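import Pool.Agent.H93.TR.Hole

/-!
# TR, Comp and Chain: all sets of bounded faces

`add`: let `ρ k = 0` if `cor v k ∉ Q`, `1` if `cor v k ∈ A`, `2` if `cor v k ∈ Q \ A`; no `1` is next to a `2` (`Cl`, `Cl.symm`), so this is `add_loc` (`Loc.lean`).

`all_ge`: strong induction on `Q.card`. `Q = ∅` is trivial. For `f ∈ Q` let `A` be its component (`exists_comp`); `A` is connected, so `2 |A| ≤ ∑ cap0 (pat A v)` by `hole`, the same for `Q \ A` by induction, and add (`|Q| = |A| + |Q \ A|`).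
`comp_eq0`: for a component `A` of `Q`: `2 |Q| = 2 |A| + 2 |Q \ A|`, `∑ cap0 (pat Q v) = ∑ cap0 (pat A v) + ∑ cap0 (pat (Q \ A) v)`, and `all_ge` for `A`, `Q \ A`.

`cap_gt`: Suppose `∑ cap (pat Q v) ≤ 2 |Q|`. By `cap0_le_cap` and `all_ge` all are equal: `cap0 (pat Q v) = cap (pat Q v)` for all `v`; so (`decide`) if `cnt (pat Q v) = 1` and `cor v k ∈ Q` then `k = 0` or `k = 2`.
By `comp_eq0` and `hole` every component `B` of `Q` has `Port B` (`B = L \ {x, y}` is impossible since `B ⊆ Q ⊂ L \ {x, y}`).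
Choose `f ∈ Q`, its component `A`, `v₀` with `cnt (pat A v₀) = 1` and `cor v₀ k₀ ∈ A`; let `π = s(cor v₀ (k₀ - 1), cor v₀ (k₀ + 1))`. Let `R` be the set of the `g ∈ Q` such that there is a component `B` of `Q` with `g ∈ B` and
`∃ v k, cnt (pat B v) = 1 ∧ cor v k ∈ B ∧ s(cor v (k - 1), cor v (k + 1)) = π` (say: `B` is good). `A` is good; if `B` is good then `B ⊆ R`; by `comp_eq` the component of every `g ∈ R` is good.
(1) `Cl Q R`. (2) `¬ Adj2 (pat R v)`: if `cor v k, cor v (k + 1) ∈ R`, let `B` be the component of `cor v (k + 1)`; `cor v k ∈ B` too; so `cnt (pat B v) ≥ 2`, so `≥ 3` by `Port B`, so `cnt (pat R v) ≥ 3`.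
(3) if `cnt (pat R v) = 1`, `cor v k ∈ R`, then `cnt (pat Q v) = 1`: suppose `cor v j ∈ Q`, `j ≠ k`. By (1) `j = k ± 1` is impossible (`cor v j` would be in `R`). So `j = k + 2`, and `cor v (k ± 1) ∉ Q`. Let `B'` be the component of `cor v j`;
`cor v k ∉ B'` (otherwise `B'` is the component of `cor v k`, so good, and `cor v j ∈ R`). So `cnt (pat B' v) = 1`, and its pair is `s(cor v (k + 1), cor v (k + 3)) = s(cor v (k - 1), cor v (k + 1)) = π`
(the last equality by `Port.pair` for the component `B` of `cor v k`, which is good and has `cnt (pat B v) = 1` since `B ⊆ R`). So `B'` is good, `cor v j ∈ R`, a contradiction. Hence `k = 0` or `k = 2` and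
`s(cor v 1, cor v 3) = π`. So by `Tw` there is at most one vertex `v` with `cnt (pat R v) = 1`.
(4) Let `r = cor v₀ (k₀ - 1)`; `r ∉ Q` (it would be in `A`, `Cl Q A`, but `cnt (pat A v₀) = 1`). By `par_one` `par R r v = 1` for every `v` with `cnt (pat R v) = 1` (`r` is an element of the pair), by `par_even` it is even at the others.
By `even_par` there is no such `v`. So at every vertex `cnt (pat R v) ∈ {0, 3, 4}` or `Alt`, and two consecutive corners outside `R` imply `cnt = 0`; `spread`: `cnt (pat R v) = 0` for all `v`, but `f ∈ R` (`G.surj`). Contradiction.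
-/

set_option autoImplicit false

namespace Pool.Agent.H93.TR

variable {c : ℕ} {G : PG c}

private theorem Chain_val {Q A : Finset ℕ} (hAQ : A ⊆ Q) (f : ℕ) (e : Fin 3) :
    (e = if f ∈ A then 1 else if f ∈ Q then 2 else 0) →
      (f ∈ Q ↔ e ≠ 0) ∧ (f ∈ A ↔ e = 1) ∧ (f ∈ Q \ A ↔ e = 2) := by
  intro he
  by_cases hA : f ∈ A
  · have hQ := hAQ hA
    simp [hA, hQ, he]
  · by_cases hQ : f ∈ Q <;> simp [hA, hQ, he]

theorem add {Q A : Finset ℕ} (h : G.Cl Q A) (v : Fin c) :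
    cap0 (G.pat Q v) = cap0 (G.pat A v) + cap0 (G.pat (Q \ A) v) := by
  obtain ⟨ρ, hρ⟩ : ∃ ρ : Fin 4 → Fin 3,
      ∀ k, ρ k = if G.cor v k ∈ A then 1 else if G.cor v k ∈ Q then 2 else 0 := ⟨_, fun _ => rfl⟩
  have hv := fun k => Chain_val h.1 (G.cor v k) (ρ k) (hρ k)
  have h0 := add_loc ρ (fun k => ⟨fun hk => ?_, fun hk => ?_⟩)
  · have e0 : (fun k => decide (ρ k ≠ 0)) = G.pat Q v := by
      funext k
      exact (decide_eq_decide.2 (hv k).1).symm
    have e1 : (fun k => decide (ρ k = 1)) = G.pat A v := by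
      funext k
      exact (decide_eq_decide.2 (hv k).2.1).symm
    have e2 : (fun k => decide (ρ k = 2)) = G.pat (Q \ A) v := by
      funext k
      exact (decide_eq_decide.2 (hv k).2.2).symm
    rwa [e0, e1, e2] at h0
  · have h1 := (hv k).2.1.2 hk.1
    have h2 := Finset.mem_sdiff.1 ((hv (k - 1)).2.2.2 hk.2)
    exact h2.2 (h.2 v k h1 h2.1)
  · have h1 := Finset.mem_sdiff.1 ((hv k).2.2.2 hk.1)
    have h2 := (hv (k - 1)).2.1.2 hk.2
    exact h1.2 (h.symm h2 h1.1)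

private theorem Chain_sum {Q A : Finset ℕ} (h : G.Cl Q A) :
    ∑ v, cap0 (G.pat Q v) = ∑ v, cap0 (G.pat A v) + ∑ v, cap0 (G.pat (Q \ A) v) := by
  rw [← Finset.sum_add_distrib]
  exact Finset.sum_congr rfl fun v _ => add h v

private theorem Chain_card {Q A : Finset ℕ} (h : A ⊆ Q) : Q.card = A.card + (Q \ A).card := by
  have h1 := Finset.card_sdiff_add_card_eq_card h
  omega

theorem all_ge (hR : G.Red) (hP : G.Prm) {x y : ℕ} (ho : G.Out x y) {Q : Finset ℕ}
    (hQ : Q ⊆ G.L \ {x, y}) : 2 * Q.card ≤ ∑ v, cap0 (G.pat Q v) := by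
  induction hn : Q.card using Nat.strong_induction_on generalizing Q with
  | _ n ih =>
    subst hn
    rcases Q.eq_empty_or_nonempty with h0 | ⟨f, hf⟩
    · subst h0
      simp
    · obtain ⟨A, hfA, hA⟩ := exists_comp G hf
      have hAQ : A ⊆ Q := hA.2.1
      have h1 := (hole hR hP ho (hAQ.trans hQ) hA.1).1
      have h2 := Chain_card hAQ
      have h3 : 0 < A.card := Finset.card_pos.2 ⟨f, hfA⟩
      have h4 := ih (Q \ A).card (by omega) ((Finset.sdiff_subset).trans hQ) rfl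
      have h5 := Chain_sum hA.2
      omega

theorem comp_eq0 (hR : G.Red) (hP : G.Prm) {x y : ℕ} (ho : G.Out x y) {Q : Finset ℕ}
    (hQ : Q ⊆ G.L \ {x, y}) (h : 2 * Q.card = ∑ v, cap0 (G.pat Q v)) {A : Finset ℕ}
    (hA : G.IsComp Q A) : 2 * A.card = ∑ v, cap0 (G.pat A v) := by
  have hAQ : A ⊆ Q := hA.2.1
  have h1 := all_ge hR hP ho (hAQ.trans hQ)
  have h2 := all_ge hR hP ho ((Finset.sdiff_subset (s := Q) (t := A)).trans hQ)
  have h3 := Chain_card hAQ
  have h4 := Chain_sum hA.2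
  omega

private theorem chain_d1 : ∀ (b : Fin 4 → Bool) (k : Fin 4), b k = true →
    (∀ j, j ≠ k → b j = false) → cnt b = 1 := by decide

private theorem chain_d2 : ∀ b : Fin 4 → Bool, cnt b ≠ 1 → ¬ Adj2 b → ∀ k : Fin 4, b k = false →
    b (k - 1) = false → cnt b = 0 := by decide

private theorem chain_d3 : ∀ k j : Fin 4, j ≠ k → j = k + 1 ∨ j = k - 1 ∨ j = k + 2 := by decide

private theorem chain_d4 : ∀ k j : Fin 4, j = k ∨ j = k + 1 ∨ j = k + 2 ∨ j = k + 3 := by decide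

private theorem chain_e : ∀ k : Fin 4, k + 1 ≠ k ∧ k - 1 ≠ k ∧ k + 3 = k - 1 ∧ k + 2 - 1 = k + 1 ∧
    k + 2 + 1 = k - 1 := by decide

private theorem chain_d5 : ∀ (b : Fin 4 → Bool) (k : Fin 4), b k = true → cnt b ≠ 0 := by decide

open Classical in
theorem cap_gt (hR : G.Red) (hP : G.Prm) (hT : G.Tw) {x y : ℕ} (ho : G.Out x y) {Q : Finset ℕ}
    (hQ : Q ⊂ G.L \ {x, y}) (hne : Q.Nonempty) : 2 * Q.card < ∑ v, cap (G.pat Q v) := by
  by_contra hcon
  push Not at hcon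
  have hge := all_ge hR hP ho hQ.subset
  have hle : ∀ v ∈ Finset.univ, cap0 (G.pat Q v) ≤ cap (G.pat Q v) := fun v _ => cap0_le_cap _
  have hsum := Finset.sum_le_sum hle
  have heq : 2 * Q.card = ∑ v, cap0 (G.pat Q v) := by omega
  have hcap : ∀ v, cap0 (G.pat Q v) = cap (G.pat Q v) := fun v =>
    (Finset.sum_eq_sum_iff_of_le hle).1 (by omega) v (Finset.mem_univ v)
  -- components are portals
  have hport : ∀ B, G.IsComp Q B → G.Port B := by
    intro B hB
    have h1 := comp_eq0 hR hP ho hQ.subset heq hB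
    rcases (hole hR hP ho (hB.2.1.trans hQ.subset) hB.1).2 h1 with h2 | h2
    · exact absurd (h2 ▸ hB.2.1) hQ.2
    · exact h2
  have hcnt1 : ∀ v k, cnt (G.pat Q v) = 1 → G.cor v k ∈ Q → k = 0 ∨ k = 2 := fun v k h1 h2 =>
    cap_one _ h1 (hcap v) k (G.pat_eq.2 h2)
  obtain ⟨f, hf⟩ := hne
  obtain ⟨A, hfA, hA⟩ := exists_comp G hf
  obtain ⟨v₀, hv₀⟩ := (hport A hA).ex
  obtain ⟨k₀, hk₀⟩ := cnt_pos (G.pat A v₀) (by omega)
  rw [G.pat_eq] at hk₀
  obtain ⟨π, hπ⟩ : ∃ π, π = s(G.cor v₀ (k₀ - 1), G.cor v₀ (k₀ + 1)) := ⟨_, rfl⟩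
  obtain ⟨Good, hGood⟩ : ∃ Good : Finset ℕ → Prop, Good = fun B => ∃ v k,
    cnt (G.pat B v) = 1 ∧ G.cor v k ∈ B ∧ s(G.cor v (k - 1), G.cor v (k + 1)) = π := ⟨_, rfl⟩
  have hGA : Good A := by rw [hGood]; exact ⟨v₀, k₀, hv₀, hk₀, hπ.symm⟩
  obtain ⟨R, hRdef⟩ : ∃ R, R = Q.filter (fun g => ∃ B, G.IsComp Q B ∧ g ∈ B ∧ Good B) :=
    ⟨_, rfl⟩
  have hmem : ∀ g, g ∈ R ↔ ∃ B, G.IsComp Q B ∧ g ∈ B ∧ Good B := by
    intro g
    rw [hRdef, Finset.mem_filter]
    exact ⟨fun h => h.2, fun ⟨B, h1, h2, h3⟩ => ⟨h1.2.1 h2, B, h1, h2, h3⟩⟩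
  have hRQ : R ⊆ Q := by rw [hRdef]; exact Finset.filter_subset _ _
  have hsub : ∀ B, G.IsComp Q B → Good B → B ⊆ R := fun B h1 h2 g hg =>
    (hmem g).2 ⟨B, h1, hg, h2⟩
  have hgood : ∀ g ∈ R, ∀ B, G.IsComp Q B → g ∈ B → Good B := by
    intro g hg B hB hgB
    obtain ⟨B', h1, h2, h3⟩ := (hmem g).1 hg
    rw [comp_eq hB h1 hgB h2]
    exact h3
  have hCl : G.Cl Q R := by
    refine ⟨hRQ, fun v k h1 h2 => ?_⟩
    obtain ⟨B, hB, hkB, hG⟩ := (hmem _).1 h1
    exact hsub B hB hG (hB.2.2 v k hkB h2)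
  have hadj : ∀ v, ¬ Adj2 (G.pat R v) := by
    intro v h1
    obtain ⟨k, a1, a2, a3, a4⟩ := adj2_ex _ h1
    rw [G.pat_eq] at a1 a2
    obtain ⟨B, hB1, hB⟩ := exists_comp G (hRQ a2)
    have hBR := hsub B hB (hgood _ a2 B hB hB1)
    have hkB : G.cor v k ∈ B := by
      have := hB.2.2 v (k + 1) hB1
      rw [add_sub_cancel_right] at this
      exact this (hRQ a1)
    refine (hport B hB).adj v ?_
    have h2 : G.pat B v = G.pat R v := by
      funext j
      rcases chain_d4 k j with rfl | rfl | rfl | rfl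
      · rw [G.pat_eq.2 hkB, G.pat_eq.2 a1]
      · rw [G.pat_eq.2 hB1, G.pat_eq.2 a2]
      · rw [a3, G.pat_eq_false]
        rw [G.pat_eq_false] at a3
        exact fun h => a3 (hBR h)
      · rw [a4, G.pat_eq_false]
        rw [G.pat_eq_false] at a4
        exact fun h => a4 (hBR h)
    rw [h2]
    exact h1
  -- the pair at a vertex with one corner in `R`
  have hone : ∀ v k, cnt (G.pat R v) = 1 → G.cor v k ∈ R →
      s(G.cor v (k - 1), G.cor v (k + 1)) = π ∧ cnt (G.pat Q v) = 1 := by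
    intro v k h1 hk
    have hoth : ∀ j, j ≠ k → G.cor v j ∉ R := fun j hj =>
      G.pat_eq_false.1 (cnt_one _ h1 k (G.pat_eq.2 hk) j hj)
    obtain ⟨B, hkB, hB⟩ := exists_comp G (hRQ hk)
    have hGB := hgood _ hk B hB hkB
    have hBR := hsub B hB hGB
    have hcB : cnt (G.pat B v) = 1 := chain_d1 _ k (G.pat_eq.2 hkB) fun j hj =>
      G.pat_eq_false.2 fun h => hoth j hj (hBR h)
    have hpair : s(G.cor v (k - 1), G.cor v (k + 1)) = π := by
      rw [hGood] at hGB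
      obtain ⟨v₁, k₁, b1, b2, b3⟩ := hGB
      exact ((hport B hB).pair v k v₁ k₁ hcB hkB b1 b2).trans b3
    refine ⟨hpair, ?_⟩
    by_contra hQ1
    have hex : ∃ j, j ≠ k ∧ G.cor v j ∈ Q := by
      by_contra hno
      push Not at hno
      exact hQ1 (chain_d1 _ k (G.pat_eq.2 (hRQ hk)) fun j hj => G.pat_eq_false.2 (hno j hj))
    obtain ⟨j, hjk, hjQ⟩ := hex
    have hp1 : G.cor v (k + 1) ∉ Q := by
      intro h
      refine hoth (k + 1) (chain_e k).1 (hCl.symm (v := v) (k := k + 1) ?_ h)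
      rw [add_sub_cancel_right]
      exact hk
    have hm1 : G.cor v (k - 1) ∉ Q := by
      intro h
      exact hoth (k - 1) (chain_e k).2.1 (hCl.2 v k hk h)
    have hj2 : j = k + 2 := by
      rcases chain_d3 k j hjk with h | h | h
      · rw [h] at hjQ; exact absurd hjQ hp1
      · rw [h] at hjQ; exact absurd hjQ hm1
      · exact h
    obtain ⟨B', hjB', hB'⟩ := exists_comp G hjQ
    have hkB' : G.cor v k ∉ B' := fun h =>
      hoth j hjk (hsub B' hB' (hgood _ hk B' hB' h) hjB')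
    have hcB' : cnt (G.pat B' v) = 1 := by
      refine chain_d1 _ j (G.pat_eq.2 hjB') fun i hi => G.pat_eq_false.2 fun h => ?_
      rcases chain_d4 k i with h2 | h2 | h2 | h2
      · rw [h2] at h; exact hkB' h
      · rw [h2] at h; exact hp1 (hB'.2.1 h)
      · exact hi (h2.trans hj2.symm)
      · have h3 : k + 3 = k - 1 := (chain_e k).2.2.1
        rw [h2, h3] at h
        exact hm1 (hB'.2.1 h)
    have hGB' : Good B' := by
      rw [hGood]
      refine ⟨v, j, hcB', hjB', ?_⟩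
      rw [← hpair]
      have e1 : j - 1 = k + 1 := by rw [hj2]; exact (chain_e k).2.2.2.1
      have e2 : j + 1 = k - 1 := by rw [hj2]; exact (chain_e k).2.2.2.2
      rw [e1, e2]
      exact Sym2.eq_swap
    exact hoth j hjk (hsub B' hB' hGB' hjB')
  have hpi : ∀ v k, cnt (G.pat R v) = 1 → G.cor v k ∈ R → s(G.cor v 1, G.cor v 3) = π := by
    intro v k h1 h2
    obtain ⟨h3, h4⟩ := hone v k h1 h2
    rcases hcnt1 v k h4 (hRQ h2) with rfl | rfl
    · rw [← h3]
      exact Sym2.eq_swap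
    · rw [← h3]
      rfl
  have huniq : ∀ v v', cnt (G.pat R v) = 1 → cnt (G.pat R v') = 1 → v = v' := by
    intro v v' h1 h2
    obtain ⟨k, hk⟩ := cnt_pos (G.pat R v) (by omega)
    obtain ⟨k', hk'⟩ := cnt_pos (G.pat R v') (by omega)
    exact hT v v' ((hpi v k h1 (G.pat_eq.1 hk)).trans (hpi v' k' h2 (G.pat_eq.1 hk')).symm)
  have hrQ : G.cor v₀ (k₀ - 1) ∉ Q := by
    intro h
    have h1 := hA.2.2 v₀ k₀ hk₀ h
    have h2 := cnt_one _ hv₀ k₀ (G.pat_eq.2 hk₀) (k₀ - 1) (chain_e k₀).2.1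
    exact (G.pat_eq_false.1 h2) h1
  have hrR : G.cor v₀ (k₀ - 1) ∉ R := fun h => hrQ (hRQ h)
  have hpar1 : ∀ v, cnt (G.pat R v) = 1 → G.par R (G.cor v₀ (k₀ - 1)) v = 1 := by
    intro v h1
    obtain ⟨k, hk⟩ := cnt_pos (G.pat R v) (by omega)
    rw [G.pat_eq] at hk
    rw [par_one hR hrR h1 hk, if_pos]
    have h2 := (hone v k h1 hk).1
    rw [hπ, Sym2.eq_iff] at h2
    rcases h2 with h2 | h2
    · exact Or.inl h2.1.symm
    · exact Or.inr h2.2.symm
  have hnone : ∀ v, cnt (G.pat R v) ≠ 1 := by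
    intro v h1
    have h2 := even_par G R (G.cor v₀ (k₀ - 1))
    rw [← Finset.add_sum_erase _ _ (Finset.mem_univ v), hpar1 v h1] at h2
    have h3 : Even (∑ w ∈ Finset.univ.erase v, G.par R (G.cor v₀ (k₀ - 1)) w) := by
      refine Finset.even_sum _ fun w hw => ?_
      rw [Finset.mem_erase] at hw
      exact par_even hrR (fun h => hw.1 (huniq w v h h1)) (hadj w)
    obtain ⟨a, ha⟩ := h2
    obtain ⟨b, hb⟩ := h3
    omega
  have hxy : x ∉ R ∧ y ∉ R := by
    constructor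
    · intro h
      have := Finset.mem_sdiff.1 (hQ.subset (hRQ h))
      simp at this
    · intro h
      have := Finset.mem_sdiff.1 (hQ.subset (hRQ h))
      simp at this
  have hzero := spread ho hxy.1 hxy.2 (R := R) fun v k h1 h2 =>
    chain_d2 _ (hnone v) (hadj v) k (G.pat_eq_false.2 h1) (G.pat_eq_false.2 h2)
  have hfL : f ∈ G.L := (Finset.mem_sdiff.1 (hQ.subset hf)).1
  obtain ⟨v, k, hvk⟩ := G.surj f hfL
  have hfR : G.cor v k ∈ R := by rw [hvk]; exact hsub A hA hGA hfA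
  exact chain_d5 _ k (G.pat_eq.2 hfR) (hzero v)

end Pool.Agent.H93.TR
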