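import Mathlib

/-!
# Plane 4-valent graphs: sets of faces (definitions)

`PG c` is a connected 4-valent plane graph with `c` vertices, given by the faces `cor v k` at the four corners of every vertex (in cyclic order;
the leg `(v, k)` lies between the corners `k - 1` and `k`) and by the involution `mt` which exchanges the two ends of every edge.
For a set `Q` of faces `G.pat Q v` is the pattern of the corners of `v` which are in `Q`.
-/

set_option autoImplicit false

namespace Pool.Agent.H93.TR

/-- A connected 4-valent plane graph with `c` vertices (`L` is the set of the faces, `col` a checkerboard colouring). -/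
structure PG (c : ℕ) where
  L : Finset ℕ
  cor : Fin c → Fin 4 → ℕ
  mt : Fin c × Fin 4 → Fin c × Fin 4
  col : ℕ → Bool
  card : L.card = c + 2
  mem : ∀ v k, cor v k ∈ L
  surj : ∀ f ∈ L, ∃ v k, cor v k = f
  inv : ∀ p, mt (mt p) = p
  ne : ∀ p, mt p ≠ p
  face : ∀ p, cor (mt p).1 (mt p).2 = cor p.1 (p.2 - 1)
  colne : ∀ v k, col (cor v k) ≠ col (cor v (k + 1))
  conn : ∀ P : Fin c → Prop, (∀ p, P p.1 → P (mt p).1) → ∀ v v', P v → P v'

/-- The number of the corners in the set. -/
def cnt (b : Fin 4 → Bool) : ℕ := ∑ k, (b k).toNat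

/-- The number of the legs with both sides in the set, minus `2` if all corners are in the set. -/
def loc (b : Fin 4 → Bool) : ℕ :=
  (∑ k, (b k && b (k - 1)).toNat) - 2 * (b 0 && b 1 && b 2 && b 3).toNat

/-- Twice the weight `1/2` for one corner, `1` for at least two corners. -/
def cap0 (b : Fin 4 → Bool) : ℕ := min 2 (cnt b)

/-- Twice the capacity: the corners `0`, `2` can take one half, the corners `1`, `3` the whole. -/
def cap (b : Fin 4 → Bool) : ℕ := min 2 ((b 0).toNat + (b 2).toNat + 2 * ((b 1).toNat + (b 3).toNat))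

/-- The number of the groups of one or two consecutive corners. -/
def gg (b : Fin 4 → Bool) : ℕ :=
  if cnt b = 1 then 1 else if cnt b = 2 then (if b 0 = b 2 then 2 else 1) else 0

/-- Two opposite corners are in the set. -/
def Alt (b : Fin 4 → Bool) : Prop := cnt b = 2 ∧ b 0 = b 2

/-- Two consecutive corners are in the set. -/
def Adj2 (b : Fin 4 → Bool) : Prop := cnt b = 2 ∧ b 0 ≠ b 2

instance (b : Fin 4 → Bool) : Decidable (Alt b) := inferInstanceAs (Decidable (_ ∧ _))

instance (b : Fin 4 → Bool) : Decidable (Adj2 b) := inferInstanceAs (Decidable (_ ∧ _))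

variable {c : ℕ}

/-- The pattern of a set of faces at a vertex. -/
def PG.pat (G : PG c) (Q : Finset ℕ) (v : Fin c) : Fin 4 → Bool := fun k => decide (G.cor v k ∈ Q)

/-- `A` is a part of `Q` which has no edge in common with the rest of `Q`. -/
def PG.Cl (G : PG c) (Q A : Finset ℕ) : Prop :=
  A ⊆ Q ∧ ∀ v k, G.cor v k ∈ A → G.cor v (k - 1) ∈ Q → G.cor v (k - 1) ∈ A

/-- `Q` is connected (through edges). -/
def PG.Con (G : PG c) (Q : Finset ℕ) : Prop := Q.Nonempty ∧ ∀ A, A.Nonempty → G.Cl Q A → A = Q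

/-- `A` is a connected component of `Q`. -/
def PG.IsComp (G : PG c) (Q A : Finset ℕ) : Prop := G.Con A ∧ G.Cl Q A

/-- Reduced: opposite corners belong to different faces. -/
def PG.Red (G : PG c) : Prop := ∀ v k, G.cor v k ≠ G.cor v (k + 2)

/-- Prime: two faces have at most one edge in common. -/
def PG.Prm (G : PG c) : Prop :=
  ∀ p q : Fin c × Fin 4, s(G.cor p.1 p.2, G.cor p.1 (p.2 - 1)) = s(G.cor q.1 q.2, G.cor q.1 (q.2 - 1)) →
    q = p ∨ q = G.mt p

/-- Twist-reduced. -/
def PG.Tw (G : PG c) : Prop :=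
  ∀ v v', s(G.cor v 1, G.cor v 3) = s(G.cor v' 1, G.cor v' 3) → v = v'

/-- `a` and `b` are two opposite corners of `v`. -/
def PG.Jn (G : PG c) (v : Fin c) (a b : ℕ) : Prop := ∃ k, G.cor v k = a ∧ G.cor v (k + 2) = b

/-- The faces `x`, `y` have an edge in common. -/
def PG.Out (G : PG c) (x y : ℕ) : Prop := ∃ v k, G.cor v k = x ∧ G.cor v (k - 1) = y

/-- No vertex has exactly two corners in `Q`, and all vertices with exactly one corner in `Q` have the same two faces next to this
corner; there is such a vertex. -/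
structure PG.Port (G : PG c) (Q : Finset ℕ) : Prop where
  adj : ∀ v, ¬ Adj2 (G.pat Q v)
  alt : ∀ v, ¬ Alt (G.pat Q v)
  ex : ∃ v, cnt (G.pat Q v) = 1
  pair : ∀ v k v' k', cnt (G.pat Q v) = 1 → G.cor v k ∈ Q → cnt (G.pat Q v') = 1 → G.cor v' k' ∈ Q →
    s(G.cor v (k - 1), G.cor v (k + 1)) = s(G.cor v' (k' - 1), G.cor v' (k' + 1))

/-- The number of the ends at `v` of the edges between `Q` and the face `r`. -/
def PG.par (G : PG c) (Q : Finset ℕ) (r : ℕ) (v : Fin c) : ℕ :=
  ∑ k, if G.cor v k = r then ((G.pat Q v (k - 1)).toNat + (G.pat Q v (k + 1)).toNat) else 0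

/-! ### Local facts -/

theorem cap0_eq : ∀ b : Fin 4 → Bool, cap0 b = loc b + gg b := by decide

theorem cap0_le_cap : ∀ b : Fin 4 → Bool, cap0 b ≤ cap b := by decide

theorem cap_le_cnt : ∀ b : Fin 4 → Bool, cnt b = 0 → cap b = 0 := by decide

theorem PG.pat_eq (G : PG c) {Q : Finset ℕ} {v : Fin c} {k : Fin 4} :
    G.pat Q v k = true ↔ G.cor v k ∈ Q := by
  simp [PG.pat]

theorem PG.pat_eq_false (G : PG c) {Q : Finset ℕ} {v : Fin c} {k : Fin 4} :
    G.pat Q v k = false ↔ G.cor v k ∉ Q := by
  simp [PG.pat]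

end Pool.Agent.H93.TR
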