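import Pool.Agent.H93.TR.Pos
import Pool.Agent.H93.TR.Defs

/-!
# TR, IntR: an inner point of the polytope, from Hall's inequality

(After `H63/CLK/P_Int.lean`.)
-/

set_option autoImplicit false

namespace Pool.Agent.H93.TR

open Pool.Agent.H63.CLK
open scoped BigOperators

private theorem IntR_k1 {P : Fin 4 → Prop} (h0 : P 0) (h1 : P 1) (h2 : P 2) (h3 : P 3) :
    ∀ k, P k := by
  intro k
  fin_cases k
  · exact h0
  · exact h1
  · exact h2
  · exact h3

/-- The inequalities at one vertex. -/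
private theorem IntR_vertex (a0 a1 a2 a3 : ℝ) (h0 : 0 ≤ a0) (h1 : 0 ≤ a1) (h2 : 0 ≤ a2)
    (h3 : 0 ≤ a3) (hs : a0 + a1 + a2 + a3 = 1) (l0 : a0 < 1 / 2) (l2 : a2 < 1 / 2)
    (hM : 0 < a0 ∨ 0 < a2) :
    ∃ t : ℝ, a0 ≤ 1 - t ∧ a1 ≤ t ∧ a2 ≤ 1 - t ∧ a3 ≤ t ∧ 1 / 2 < t ∧ t < 1 ∧
      (0 < a2 + a3 → 0 < a3 + a0 → 0 < a0 + a1 → 0 < a1 + a2 →
        a0 < 1 - t ∧ a1 < t ∧ a2 < 1 - t ∧ a3 < t) := by
  have m0 : (1 : ℝ) / 2 ≤ max (1 / 2) (max a1 a3) := le_max_left _ _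
  have m1 : a1 ≤ max (1 / 2) (max a1 a3) := (le_max_left _ _).trans (le_max_right _ _)
  have m3 : a3 ≤ max (1 / 2) (max a1 a3) := (le_max_right _ _).trans (le_max_right _ _)
  have M0 : a0 ≤ max a0 a2 := le_max_left _ _
  have M2 : a2 ≤ max a0 a2 := le_max_right _ _
  have hMlt : max a0 a2 < 1 / 2 := max_lt l0 l2
  have hMpos : 0 < max a0 a2 := by
    rcases hM with h | h
    · exact h.trans_le M0
    · exact h.trans_le M2
  have hm1 : max (1 / 2) (max a1 a3) ≤ 1 - max a0 a2 := by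
    refine max_le (by linarith) (max_le ?_ ?_)
    · have : max a0 a2 ≤ 1 - a1 := max_le (by linarith) (by linarith)
      linarith
    · have : max a0 a2 ≤ 1 - a3 := max_le (by linarith) (by linarith)
      linarith
  refine ⟨(max (1 / 2) (max a1 a3) + 1 - max a0 a2) / 2, by linarith, by linarith, by linarith,
    by linarith, by linarith, by linarith, fun e1 e2 e3 e4 => ?_⟩
  have hm2 : max (1 / 2) (max a1 a3) < 1 - max a0 a2 := by
    refine max_lt (by linarith) (max_lt ?_ ?_)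
    · have : max a0 a2 < 1 - a1 := max_lt (by linarith) (by linarith)
      linarith
    · have : max a0 a2 < 1 - a3 := max_lt (by linarith) (by linarith)
      linarith
  exact ⟨by linarith, by linarith, by linarith, by linarith⟩

/-- An interior point of the polytope, from Hall's inequality. -/
theorem int_of_hall {c : ℕ} {F : Finset ℕ} {cor : Fin c → Fin 4 → ℕ} (hF : F.card = c)
    (hopp' : ∀ v k, cor v k ∈ F ∨ cor v (k + 2) ∈ F) (hinj : ∀ v, Function.Injective (cor v))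
    (hH : ∀ A ⊆ F, A.Nonempty → A ≠ F → 2 * A.card < nt cor A) :
    ∃ z : Vr c → ℝ, IsInt F cor z := by
  have hopp : ∀ v, cor v 1 ∈ F ∨ cor v 3 ∈ F := fun v => hopp' v 1
  have hopp0 : ∀ v, cor v 0 ∈ F ∨ cor v 2 ∈ F := fun v => hopp' v 0
  obtain ⟨q, q0, qz, qp, qs, qf⟩ := exists_pos hF hopp
    (fun v j k _ l _ h => hinj v h) hH
  have t0 : ∀ k : Fin 4, k ∈ triP 0 ↔ k = 2 ∨ k = 1 ∨ k = 3 := fun k => by simp [triP]
  have t1 : ∀ k : Fin 4, k ∈ triP 1 ↔ k = 0 ∨ k = 1 ∨ k = 3 := fun k => by simp [triP]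
  have s0 : ∀ v, q v 0 0 + q v 0 1 + q v 0 2 + q v 0 3 = 1 / 2 := fun v => by
    rw [← qs v 0, Fin.sum_univ_four]
  have s1 : ∀ v, q v 1 0 + q v 1 1 + q v 1 2 + q v 1 3 = 1 / 2 := fun v => by
    rw [← qs v 1, Fin.sum_univ_four]
  have z0 : ∀ v, q v 0 0 = 0 := fun v => qz v 0 0 (fun h => by
    have := (t0 0).1 h.1
    revert this
    decide)
  have z1 : ∀ v, q v 1 2 = 0 := fun v => qz v 1 2 (fun h => by
    have := (t1 2).1 h.1
    revert this
    decide)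
  have pos : ∀ v k, cor v k ∈ F → 0 < q v 0 k + q v 1 k := by
    intro v
    refine IntR_k1 (fun h => ?_) (fun h => ?_) (fun h => ?_) (fun h => ?_)
    · have := qp v 1 0 ((t1 0).2 (Or.inl rfl)) h
      linarith [q0 v 0 0]
    · have := qp v 1 1 ((t1 1).2 (Or.inr (Or.inl rfl))) h
      linarith [q0 v 0 1]
    · have := qp v 0 2 ((t0 2).2 (Or.inl rfl)) h
      linarith [q0 v 1 2]
    · have := qp v 1 3 ((t1 3).2 (Or.inr (Or.inr rfl))) h
      linarith [q0 v 0 3]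
  have side : ∀ v j, 0 < q v j 1 + q v j 3 := by
    intro v j
    have m1 : (1 : Fin 4) ∈ triP j := by
      fin_cases j
      · exact (t0 1).2 (Or.inr (Or.inl rfl))
      · exact (t1 1).2 (Or.inr (Or.inl rfl))
    have m3 : (3 : Fin 4) ∈ triP j := by
      fin_cases j
      · exact (t0 3).2 (Or.inr (Or.inr rfl))
      · exact (t1 3).2 (Or.inr (Or.inr rfl))
    rcases hopp v with h | h
    · have := qp v j 1 m1 h
      linarith [q0 v j 3]
    · have := qp v j 3 m3 h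
      linarith [q0 v j 1]
  have hv := fun v : Fin c => IntR_vertex (q v 0 0 + q v 1 0) (q v 0 1 + q v 1 1)
    (q v 0 2 + q v 1 2) (q v 0 3 + q v 1 3) (by linarith [q0 v 0 0, q0 v 1 0])
    (by linarith [q0 v 0 1, q0 v 1 1]) (by linarith [q0 v 0 2, q0 v 1 2])
    (by linarith [q0 v 0 3, q0 v 1 3]) (by linarith [s0 v, s1 v])
    (by linarith [z0 v, side v 1, s1 v, z1 v]) (by linarith [z1 v, side v 0, s0 v, z0 v])
    ((hopp0 v).imp (pos v 0) (pos v 2))
  choose τ l0 l1 l2 l3 lh lt hlt using hv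
  have hle : ∀ v k, q v 0 k + q v 1 k ≤ cz 1 (τ v) k := fun v =>
    IntR_k1 (l0 v) (l1 v) (l2 v) (l3 v)
  have hnn : ∀ v k, 0 ≤ q v 0 k + q v 1 k := fun v k => add_nonneg (q0 v 0 k) (q0 v 1 k)
  refine ⟨Sum.elim τ (fun p => q p.1 0 p.2 + q p.1 1 p.2), ⟨⟨fun v => ?_, fun f hf => ?_,
    fun v k hk => ?_, hnn, hle⟩, lh, lt, fun v k hk _ => pos v k hk, fun v k hk he => ?_⟩⟩
  · simp only [Sum.elim_inr]
    rw [Finset.sum_add_distrib, qs v 0, qs v 1]
    norm_num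
  · simp only [Sum.elim_inr]
    rw [← qf f hf]
    refine Finset.sum_congr rfl fun v _ => ?_
    rw [Fin.sum_univ_two, ← Finset.sum_add_distrib]
    refine Finset.sum_congr rfl fun k _ => ?_
    split_ifs <;> simp
  · simp only [Sum.elim_inr]
    rw [qz v 0 k (fun h => hk h.2), qz v 1 k (fun h => hk h.2), add_zero]
  · simp only [Sum.elim_inr, Sum.elim_inl]
    have hpair : ∀ k : Fin 4, 0 < (q v 0 k + q v 1 k) + (q v 0 (k + 1) + q v 1 (k + 1)) := by
      intro k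
      by_cases h1 : cor v k ∈ F
      · have := pos v k h1
        linarith [hnn v (k + 1)]
      · by_cases h2 : cor v (k + 1) ∈ F
        · have := pos v (k + 1) h2
          linarith [hnn v k]
        · exact absurd ⟨k, h1, h2⟩ he
    obtain ⟨g0, g1, g2, g3⟩ := hlt v (hpair 2) (hpair 3) (hpair 0) (hpair 1)
    exact IntR_k1 (P := fun k => q v 0 k + q v 1 k < cz 1 (τ v) k) g0 g1 g2 g3 k

/-- The number of the triangles which touch `A`. -/
theorem nt_eq_cap {c : ℕ} (cor : Fin c → Fin 4 → ℕ) (A : Finset ℕ) :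
    nt cor A = ∑ v : Fin c, cap (fun k => decide (cor v k ∈ A)) := by
  classical
  unfold nt
  refine Finset.sum_congr rfl fun v _ => ?_
  rw [Fin.sum_univ_two]
  have t0 : (∃ k ∈ triP 0, cor v k ∈ A) ↔ (cor v 2 ∈ A ∨ cor v 1 ∈ A ∨ cor v 3 ∈ A) := by
    simp [triP]
  have t1 : (∃ k ∈ triP 1, cor v k ∈ A) ↔ (cor v 0 ∈ A ∨ cor v 1 ∈ A ∨ cor v 3 ∈ A) := by
    simp [triP]
  simp only [t0, t1, cap]
  by_cases h0 : cor v 0 ∈ A <;> by_cases h1 : cor v 1 ∈ A <;> by_cases h2 : cor v 2 ∈ A <;>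
    by_cases h3 : cor v 3 ∈ A <;> simp [h0, h1, h2, h3]

end Pool.Agent.H93.TR
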