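import Pool.Agent.H63.CLK.D_BdFin
import Pool.Agent.H63.CLK.C_Conn
import Pool.Agent.H63.CLK.A_Small
import Pool.Agent.H93.TR.Defs

/-!
# TR, Map: the plane graph of a template

As in the proof of `exists_tdata` (`H63/CLK/D_BdFin.lean`): from `hT` get `S`, and `R, bd, χ` with `Inv S R bd χ` (`inv_init`, `inv_sweep`, `conn_init`), `R.str = [z]`, the legs `leg`, `hl`; `hcc : S.cor = List.ofFn cor`.

(1) The mates: `inv_mate` gives for every `p` exactly one `q` with `Mate leg p q`; `mt p := q`; `mt (mt p) = p`, `mt p ≠ p`.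

(2) `face`: for every `q` there is a `p` with `Mate leg p q` (or `Mate leg q p`) and `cor p.1 (p.2 - 1) = cor q.1 q.2`. Let `f = cor q.1 q.2`; `Elt.cor q.1 q.2 ∈ bd f` (`h.mem`). `h.path f` is a closed path, so every element
`x` of `bd f` has an element `y` of `bd f` with `lout R y = lin R x` (a lemma about `Path` by induction on the list: if `Path li lo a l b` and `x ∈ l` then `li x = a` or there is `y ∈ l` with `lo y = li x`; if `l ≠ []` there is `y ∈ l` with `lo y = b`).
`x = Elt.cor q.1 q.2`. If `y = Elt.cor v k` (`v < c`): `p = (v, k + 1)`: `leg` is `ident 0 z` of the entry (`D_BdO_leg`), so `leg v (k + 1) = leg q.1 q.2`; `p ≠ q`, otherwise `cor v k = cor v (k + 1)` (both `f`), which contradicts `h.colc`.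
If `y = Elt.lid i`: `i < 2` (`hg : S.gaps = [0, 1]`), `f = i`, and `lout R y = (0 :: [z]).getD i 0`, `lin R y = ([z] ++ [0]).getD i 0`: one of them is `0`, the other one is `z`. Take `y' ∈ bd f` with `lout R y' = lin R y`; `y'` is not a lid, since
the only lid with the face `i` is `lid i` and `lout R (lid i) ≠ lin R (lid i)` (`z ≠ 0`: `conn_end`). So `y' = Elt.cor v k`, `p = (v, k + 1)`: `leg v (k + 1) = ident 0 z _ = 0 = leg q.1 q.2`. Again `p ≠ q` by the colours.

(3) `col f := decide (χ f % 2 = 1)` does not follow from `χ ≠ χ`; instead take the colouring from `exists_chi` (`C_Chi.lean`) with `z = fun _ => 1` (the sum of four `1` is `0` in `ZMod 2`): `χ' (cor v k) = χ' (cor v (k - 1)) + 1`; `col f := decide (χ' f = 1)`.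
`exists_chi` and `conn` (`C_Conn.lean`) need `T : TData c`, `T.Of w`, `T.Good`: build `T` as in `exists_tdata`: `hbd` from `inv_bd` (`hne : ∀ f ∈ F, ∃ v k, cor v k = f` is `face_corner`, `A_Small.lean`), and for `one`: a vertex `v` has at most one leg `k` with
`leg v k = 0`: two such legs `k ≠ l` are mates, so `cor v l = cor v (k - 1)` and `cor v k = cor v (l - 1)` by (2); `l = k + 1`: `cor v (k + 1) = cor v (k - 1)` contradicts `hR`; `l = k + 3`: the same; `l = k + 2`: `cor v (k + 2) = cor v (k + 3)` contradicts the colours.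
`T.Good.zero` from `inv_outer`. (`exists_chi` needs only `T.Of w`.)

(4) `conn`: `C_Conn.conn` with `P`; `card`: `template_card` (`A_GInv.lean`): `F.card = c`, and `0, 1 ∉ F` (`not_mem_F`), `L = insert 0 (insert 1 F)`. `mem`: `cor_mem`. `surj`: for `f ∈ F` `face_corner`; for `0`, `1`: `exists_zero` (`C_Conn.lean`) gives a leg `(v, k)` with the label `0`;
`cor v k, cor v (k - 1) ∉ F` (`inv_outer` / `T.Good.zero`), so both are in `{0, 1}` and they are different (colours). This leg, or its mate (`face`), also gives `G.Out 0 1`.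
-/

set_option autoImplicit false

namespace Pool.Agent.H93.TR

open Pool.Agent.H63.CLK

variable {c : ℕ} {S : Sweep} {R : Strands} {bd : ℕ → List Elt} {χ : ℕ → ℕ}

/-- The boundary of the face at a corner begins with an edge of the face. -/
private theorem Map_face (h : Inv S R bd χ) {z : ℕ} (hz : R.str = [z]) (hz0 : z ≠ 0)
    (hg : S.gaps = [0, 1]) {leg cor : Fin c → Fin 4 → ℕ}
    (hl : List.ofFn leg = R.leg.map (fun x k => ident 0 z (x k)))
    (hc : S.cor = List.ofFn cor) (q : Fin c × Fin 4) :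
    ∃ p : Fin c × Fin 4, Mate leg p q ∧ cor p.1 (p.2 - 1) = cor q.1 q.2 := by
  have hlen := D_BdO_len hl
  have hclen : S.cor.length = c := by rw [h.lenc, hlen]
  have hcol : ∀ (v : Fin c) (j : Fin 4), χ (cor v j) ≠ χ (cor v (j + 1)) := by
    intro v j
    have hv' : (v : ℕ) < S.cor.length := by rw [hclen]; exact v.2
    have := h.colc v hv' j
    rwa [D_BdO_cor hc, D_BdO_cor hc] at this
  have hlid : ∀ i f, Elt.lid i ∈ bd f → i < 2 ∧ f = i := by
    intro i f hi
    have h1 := (h.mem f (.lid i)).1 hi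
    have h2 : i < 2 := by
      have := h1.1
      unfold Val at this
      rw [hg] at this
      simpa using this
    have h3 := h1.2
    unfold fac at h3
    rw [hg] at h3
    rcases i with _ | _ | i
    · simp at h3
      exact ⟨h2, h3.symm⟩
    · simp at h3
      exact ⟨h2, h3.symm⟩
    · omega
  have hi0 : ident 0 z 0 = 0 := by
    unfold ident
    rw [max_eq_right (Nat.zero_le z), if_neg (Ne.symm hz0)]
  have hiz : ident 0 z z = 0 := by
    unfold ident
    rw [max_eq_right (Nat.zero_le z), if_pos rfl, min_eq_left (Nat.zero_le z)]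
  -- the case of a corner
  have key : ∀ v' k', Elt.cor v' k' ∈ bd (cor q.1 q.2) →
      ident 0 z ((R.leg.getD v' (fun _ => 0)) (k' + 1)) = leg q.1 q.2 →
      ∃ p : Fin c × Fin 4, Mate leg p q ∧ cor p.1 (p.2 - 1) = cor q.1 q.2 := by
    intro v' k' hy he
    have h1 := (h.mem _ _).1 hy
    have hv : v' < c := by rw [← hclen]; exact h1.1
    have h2 : cor ⟨v', hv⟩ k' = cor q.1 q.2 := by
      rw [← D_BdO_cor hc ⟨v', hv⟩ k']
      exact h1.2
    refine ⟨(⟨v', hv⟩, k' + 1), ⟨?_, ?_⟩, ?_⟩
    · intro hq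
      rw [← hq] at h2
      exact hcol ⟨v', hv⟩ k' (by rw [h2])
    · rw [← he]
      exact D_BdO_leg hl ⟨v', hv⟩ (k' + 1)
    · change cor ⟨v', hv⟩ (k' + 1 - 1) = _
      rw [add_sub_cancel_right]
      exact h2
  have hqv : (q.1 : ℕ) < S.cor.length := by rw [hclen]; exact q.1.2
  have hX : Elt.cor q.1 q.2 ∈ bd (cor q.1 q.2) := (h.mem _ _).2 ⟨hqv, D_BdO_cor hc q.1 q.2⟩
  obtain ⟨a, ha⟩ := h.path (cor q.1 q.2)
  obtain ⟨y, hy, hy2⟩ := path_prev ha hX
  have hq2 : leg q.1 q.2 = ident 0 z (lin R (Elt.cor q.1 q.2)) := D_BdO_leg hl q.1 q.2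
  rw [← hy2] at hq2
  rcases y with ⟨v', k'⟩ | i
  · exact key v' k' hy hq2.symm
  · obtain ⟨hi, hf⟩ := hlid i _ hy
    have hq0 : leg q.1 q.2 = 0 := by
      rw [hq2]
      unfold lout
      rw [hz]
      rcases i with _ | _ | i
      · exact hi0
      · exact hiz
      · omega
    obtain ⟨y', hy', hy2'⟩ := path_prev ha hy
    rcases y' with ⟨v', k'⟩ | j
    · refine key v' k' hy' ?_
      have h3 : (R.leg.getD v' (fun _ => 0)) (k' + 1) = lin R (Elt.lid i) := hy2'
      rw [h3, hq0]
      unfold lin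
      rw [hz]
      rcases i with _ | _ | i
      · exact hiz
      · exact hi0
      · omega
    · exfalso
      obtain ⟨hj, hf'⟩ := hlid j _ hy'
      have hij : j = i := by rw [← hf', hf]
      subst hij
      unfold lin lout at hy2'
      rw [hz] at hy2'
      rcases j with _ | _ | j
      · exact hz0 (by simpa using hy2'.symm)
      · exact hz0 (by simpa using hy2')
      · omega

private theorem Map_four : ∀ k l : Fin 4, k ≠ l → l = k + 1 ∨ l = k + 2 ∨ l = k + 3 := by decide

private theorem Map_sub : ∀ k : Fin 4, k - 1 + 2 = k + 1 := by decide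

private theorem Map_sub' : ∀ k : Fin 4, k + 2 + 1 = k - 1 := by decide

private theorem Map_sub'' : ∀ k : Fin 4, k + 3 - 1 = k + 2 := by decide

theorem exists_PG {w : List TPiece} {c : ℕ} {F : Finset ℕ} {cor : Fin c → Fin 4 → ℕ}
    (hT : IsTemplate w c F cor) (hc : 0 < c) (hR : ∀ v k, cor v k ≠ cor v (k + 2)) :
    ∃ G : PG c, G.cor = cor ∧ F = G.L \ {0, 1} ∧ 0 ∈ G.L ∧ 1 ∈ G.L ∧ G.Out 0 1 := by
  have hT' := hT
  obtain ⟨S, hs, hg, hcc, hF⟩ := hT
  obtain ⟨bd₀, χ₀, h0⟩ := inv_init
  obtain ⟨R, bd, χ, hRR, hI, hC⟩ := inv_sweep w _ _ _ _ _ h0 conn_init hs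
  have hlen : R.str.length = 1 := by
    have := hI.len
    rw [hg] at this
    simpa using this.symm
  obtain ⟨z, hz⟩ := List.length_eq_one_iff.mp hlen
  have hcl : R.leg.length = c := by
    rw [← hI.lenc, hcc, List.length_ofFn]
  obtain ⟨leg, hl⟩ : ∃ leg : Fin c → Fin 4 → ℕ,
      List.ofFn leg = R.leg.map (fun x k => ident 0 z (x k)) := by
    refine ⟨fun v => (R.leg.map (fun x k => ident 0 z (x k))).get (v.cast (by simp [hcl])), ?_⟩
    apply List.ext_get
    · simp [hcl]
    · intro n h1 h2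
      simp
  have hL : IsLegs w c leg := ⟨R, z, hRR, hz, hl⟩
  have hF2 : ∀ f ∈ F, 2 ≤ f := by
    intro f hf
    rw [hF] at hf
    simp only [Finset.mem_erase] at hf
    omega
  have hbd : ∀ f, ∃ b : ℕ → Fin c × Fin 4, f ∈ F → IsBd cor leg f (bd f).length b := by
    intro f
    by_cases hf : f ∈ F
    · obtain ⟨v, k, hv⟩ := face_corner hT' hf
      obtain ⟨b, hb⟩ := inv_bd hI hz hg hl hcc f (hF2 f hf) (v, k) hv
      exact ⟨b, fun _ => hb⟩
    · exact ⟨fun _ => (⟨0, hc⟩, 0), fun h => absurd h hf⟩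
  choose b hb using hbd
  have hz0 : z ≠ 0 := by
    refine conn_end hI hz hC ?_
    intro h
    rw [h] at hcl
    simp at hcl
    omega
  have hout := inv_outer hI hz hg hl hcc
  have hclen : S.cor.length = c := by rw [hcc, List.length_ofFn]
  have hcol : ∀ (v : Fin c) (j : Fin 4), cor v j ≠ cor v (j + 1) := by
    intro v j he
    have hv' : (v : ℕ) < S.cor.length := by rw [hclen]; exact v.2
    have := hI.colc v hv' j
    rw [D_BdO_cor hcc, D_BdO_cor hcc, he] at this
    exact this rfl
  -- the mates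
  have hmate := inv_mate (c := c) hI hz hl
  choose mt hmt using hmate
  have hinv : ∀ p, mt (mt p) = p := fun p =>
    ((hmt (mt p)).2 p ⟨(hmt p).1.1.symm, (hmt p).1.2.symm⟩).symm
  have hmne : ∀ p, mt p ≠ p := fun p => (hmt p).1.1.symm
  have hface : ∀ p, cor (mt p).1 (mt p).2 = cor p.1 (p.2 - 1) := by
    intro p
    obtain ⟨p', h1, h2⟩ := Map_face hI hz hz0 hg hl hcc (mt p)
    have h3 : p' = p := by
      rw [(hmt (mt p)).2 p' ⟨h1.1.symm, h1.2.symm⟩]
      exact hinv p
    rw [← h2, h3]
  have hone : ∀ v, ∃ k₀ : Fin 4, ∀ k, leg v k = 0 → k₀ = k := by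
    intro v
    by_cases h : ∃ k, leg v k = 0
    · obtain ⟨k, hk⟩ := h
      refine ⟨k, fun l hl0 => ?_⟩
      by_contra hne
      have h1 : (v, l) = mt (v, k) := (hmt (v, k)).2 (v, l)
        ⟨fun he => hne (Prod.ext_iff.1 he).2, by rw [hk, hl0]⟩
      have h2 := hface (v, k)
      rw [← h1] at h2
      have h3 := hface (v, l)
      rw [h1, hinv] at h3
      simp only at h2 h3
      have h1' : (mt (v, k)).2 = l := by rw [← h1]
      have h1'' : (mt (v, k)).1 = v := by rw [← h1]
      rw [h1', h1''] at h3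
      have hk4 : l = k + 1 ∨ l = k + 2 ∨ l = k + 3 := Map_four k l hne
      rcases hk4 with rfl | rfl | rfl
      · refine hR v (k - 1) ?_
        rw [← h2, Map_sub k]
      · refine hcol v (k + 2) ?_
        rw [h2, Map_sub' k]
      · refine hR v k ?_
        rw [h3, Map_sub'' k]
    · push Not at h
      exact ⟨0, fun k hk => absurd hk (h k)⟩
  choose one hone using hone
  let T : TData c := ⟨F, cor, leg, fun f => (bd f).length, b, one⟩
  have hOf : T.Of w := ⟨hT', hL, fun f hf => hb f hf, fun v k hk => hone v k hk⟩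
  have hGd : T.Good := by
    refine ⟨fun p => ⟨mt p, (hmt p).1⟩, fun p q r hq hr => ?_, fun v k hv => ?_⟩
    · rw [(hmt p).2 q hq, (hmt p).2 r hr]
    · obtain ⟨h1, h2⟩ := hout v k hv
      refine ⟨fun h => ?_, fun h => ?_⟩
      · have h3 : 2 ≤ cor v k := hF2 _ h
        omega
      · have h3 : 2 ≤ cor v (k - 1) := hF2 _ h
        omega
  have hFc : T.F.card = c := template_card hT'
  obtain ⟨χ', -, -, hχ⟩ := exists_chi hOf (fun _ => 1) (fun _ => by decide)
  obtain ⟨n0, n1⟩ := not_mem_F hOf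
  change 0 ∉ F at n0
  change 1 ∉ F at n1
  obtain ⟨p, q, hpq, hp0⟩ := exists_zero hOf hGd hFc hc
  have hq : q = mt p := (hmt p).2 q hpq
  obtain ⟨u1, u2⟩ := hout p.1 p.2 hp0
  have u3 : cor p.1 (p.2 - 1) ≠ cor p.1 p.2 := by
    have := hcol p.1 (p.2 - 1)
    rwa [sub_add_cancel] at this
  have hO : ∃ v k, cor v k = 0 ∧ cor v (k - 1) = 1 := by
    rcases Nat.eq_zero_or_pos (cor p.1 p.2) with h1 | h1
    · exact ⟨p.1, p.2, h1, by omega⟩
    · refine ⟨(mt p).1, (mt p).2, ?_, ?_⟩
      · rw [hface p]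
        omega
      · have h2 := hface (mt p)
        rw [hinv] at h2
        rw [← h2]
        omega
  refine ⟨⟨insert 0 (insert 1 F), cor, mt, fun f => decide (χ' f = 1), ?_, ?_, ?_, hinv, hmne,
    hface, ?_, ?_⟩, rfl, ?_, ?_, ?_, hO⟩
  · rw [Finset.card_insert_of_notMem, Finset.card_insert_of_notMem n1]
    · rw [show F.card = c from hFc]
    · rw [Finset.mem_insert]
      rintro (h | h)
      · omega
      · exact n0 h
  · intro v k
    rcases cor_mem hOf v k with h | h | h
    · exact Finset.mem_insert_of_mem (Finset.mem_insert_of_mem h)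
    · change cor v k = 0 at h
      rw [h]
      exact Finset.mem_insert_self _ _
    · change cor v k = 1 at h
      rw [h]
      exact Finset.mem_insert_of_mem (Finset.mem_insert_self _ _)
  · intro f hf
    rw [Finset.mem_insert, Finset.mem_insert] at hf
    obtain ⟨v, k, h1, h2⟩ := hO
    rcases hf with rfl | rfl | hf
    · exact ⟨v, k, h1⟩
    · exact ⟨v, k - 1, h2⟩
    · exact face_corner hT' hf
  · intro v k
    have h1 := hχ v (k + 1)
    rw [add_sub_cancel_right] at h1
    change χ' (cor v (k + 1)) = χ' (cor v k) + 1 at h1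
    simp only [h1]
    generalize χ' (cor v k) = x
    revert x
    decide
  · intro P hP v v' hv
    refine conn hOf hGd hFc P ?_ v v' hv
    intro p q hpq hp
    rw [(hmt p).2 q hpq]
    exact hP p hp
  · ext f
    simp only [Finset.mem_sdiff, Finset.mem_insert, Finset.mem_singleton]
    constructor
    · intro hf
      have := hF2 f hf
      refine ⟨Or.inr (Or.inr hf), ?_⟩
      omega
    · rintro ⟨h1, h2⟩
      rcases h1 with h1 | h1 | h1
      · exact absurd (Or.inl h1) h2
      · exact absurd (Or.inr h1) h2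
      · exact h1
  · exact Finset.mem_insert_self _ _
  · exact Finset.mem_insert_of_mem (Finset.mem_insert_self _ _)

end Pool.Agent.H93.TR
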