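import Pool.Agent.H93.TR.State
import Pool.Agent.H93.TR.Map
import Pool.Agent.H93.TR.Chain
import Pool.Agent.H93.TR.IntR

/-!
# TR, Main: prime templates
-/

set_option autoImplicit false

namespace Pool.Agent.H93.TR

open Pool.Agent.H63.CLK

variable {c : ℕ}

/-- The template is prime and reduced: two faces have at most one edge in common (every edge has two
ends), and opposite corners of a twist region belong to different faces. -/
structure IsPR (cor : Fin c → Fin 4 → ℕ) : Prop where
  prime : ∀ f g : ℕ, (Finset.univ.filter fun p : Fin c × Fin 4 =>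
    s(cor p.1 p.2, cor p.1 (p.2 + 1)) = s(f, g)).card ≤ 2
  red : ∀ v k, cor v k ≠ cor v (k + 2)

private theorem Main_colsub (G : PG c) (v : Fin c) (k : Fin 4) :
    G.col (G.cor v (k - 1)) ≠ G.col (G.cor v k) := by
  have := G.colne v (k - 1)
  rwa [sub_add_cancel] at this

private theorem Main_prm {G : PG c} (h : IsPR G.cor) : G.Prm := by
  intro p q hpq
  set f := G.cor p.1 p.2 with hf
  set g := G.cor p.1 (p.2 - 1) with hg
  have h1 := h.prime f g
  set S := Finset.univ.filter fun p : Fin c × Fin 4 =>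
    s(G.cor p.1 p.2, G.cor p.1 (p.2 + 1)) = s(f, g) with hS
  have hmem : ∀ r : Fin c × Fin 4, s(G.cor r.1 r.2, G.cor r.1 (r.2 - 1)) = s(f, g) →
      (r.1, r.2 - 1) ∈ S := by
    intro r hr
    rw [hS, Finset.mem_filter]
    refine ⟨Finset.mem_univ _, ?_⟩
    rw [← hr]
    simp only [sub_add_cancel]
    exact Sym2.eq_swap
  have hp := hmem p rfl
  have hq := hmem q hpq.symm
  have hm := hmem (G.mt p) (by rw [G.face p, face2 G p]; exact Sym2.eq_swap)
  by_contra hcon
  rw [not_or] at hcon
  have hsub : ∀ r r' : Fin c × Fin 4, (r.1, r.2 - 1) = (r'.1, r'.2 - 1) → r = r' := by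
    intro r r' hr
    have e1 := congrArg Prod.fst hr
    have e2 := congrArg Prod.snd hr
    simp only at e1 e2
    exact Prod.ext e1 (sub_left_injective e2)
  have h3 : ({(p.1, p.2 - 1), (q.1, q.2 - 1), ((G.mt p).1, (G.mt p).2 - 1)} :
      Finset (Fin c × Fin 4)) ⊆ S := by
    intro r hr
    simp only [Finset.mem_insert, Finset.mem_singleton] at hr
    rcases hr with rfl | rfl | rfl
    · exact hp
    · exact hq
    · exact hm
  have h4 := Finset.card_le_card h3
  rw [Finset.card_insert_of_notMem, Finset.card_insert_of_notMem, Finset.card_singleton] at h4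
  · omega
  · rw [Finset.mem_singleton]
    exact fun e => hcon.2 (hsub _ _ e)
  · simp only [Finset.mem_insert, Finset.mem_singleton, not_or]
    exact ⟨fun e => hcon.1 (hsub _ _ e).symm, fun e => G.ne p (hsub _ _ e).symm⟩

private theorem Main_out {G : PG c} {F : Finset ℕ} (hF : F = G.L \ {0, 1}) {v : Fin c} {k : Fin 4}
    (h : G.cor v k ∉ F) : G.cor v k = 0 ∨ G.cor v k = 1 := by
  by_contra hcon
  rw [not_or] at hcon
  apply h
  rw [hF, Finset.mem_sdiff, Finset.mem_insert, Finset.mem_singleton]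
  exact ⟨G.mem v k, fun h => h.elim hcon.1 hcon.2⟩

private theorem Main_inj {G : PG c} (hR : G.Red) (v : Fin c) : Function.Injective (G.cor v) := by
  intro j k h
  rcases cases4 G (v := v) (j := j) (k := k) (by rw [h]) with h1 | h1
  · exact h1
  · exfalso
    rw [h1] at h
    exact hR v k h.symm

theorem isPrimeT_of_PR {w : List TPiece} {F : Finset ℕ} {cor : Fin c → Fin 4 → ℕ}
    (hT : IsTemplate w c F cor) (hc : 0 < c) (h : IsPR cor) : IsPrimeT F cor := by
  have hcard := template_card hT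
  obtain ⟨G, hcor, hF, h0, h1, hO⟩ := exists_PG hT hc h.red
  subst hcor
  have hR : G.Red := h.red
  have hPr : G.Prm := Main_prm h
  obtain ⟨v₀, k₀, hv0, hv1⟩ := hO
  have h01 : G.col 0 ≠ G.col 1 := by
    have := Main_colsub G v₀ k₀
    rw [hv0, hv1] at this
    exact this.symm
  refine ⟨⟨v₀, (G.mt (v₀, k₀)).1, ?_⟩, ?_, ?_⟩
  · rintro v ⟨k, hk, hk'⟩
    have e1 := Main_out hF hk
    have e2 := Main_out hF hk'
    have e3 := G.colne v k
    have e4 : s(G.cor v₀ k₀, G.cor v₀ (k₀ - 1)) = s(G.cor v (k + 1), G.cor v (k + 1 - 1)) := by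
      rw [hv0, hv1, add_sub_cancel_right]
      rcases e1 with e1 | e1 <;> rcases e2 with e2 | e2 <;> rw [e1, e2] at e3 ⊢
      · exact absurd rfl e3
      · exact Sym2.eq_swap
      · exact absurd rfl e3
    rcases hPr (v₀, k₀) (v, k + 1) e4 with e5 | e5
    · left
      exact congrArg Prod.fst e5
    · right
      exact congrArg Prod.fst e5
  · intro v k
    by_contra hcon
    rw [not_or] at hcon
    have e1 := Main_out hF hcon.1
    have e2 := Main_out hF hcon.2
    have e3 := cor2 G v k
    apply hR v k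
    rcases e1 with e1 | e1 <;> rcases e2 with e2 | e2 <;> rw [e1, e2] at e3 ⊢
    · exact absurd e3.symm h01
    · exact absurd e3 h01
  · intro v k hk
    have hk' := hk
    rw [hF, Finset.mem_sdiff, Finset.mem_insert, Finset.mem_singleton, not_or] at hk'
    obtain ⟨Φ, hΦ, hΦ1, hΦ2⟩ := exists_Phi hR hPr h0 h1 h01 hk'.2.1 hk'.2.2
    have hmem : ∀ f ∈ F, f ∈ G.L ∧ f ≠ 0 ∧ f ≠ 1 := by
      intro f hf
      rw [hF, Finset.mem_sdiff, Finset.mem_insert, Finset.mem_singleton, not_or] at hf
      exact ⟨hf.1, hf.2.1, hf.2.2⟩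
    exact state_of_Phi (Main_inj hR) hcard
      (fun f hf => hΦ1 f (hmem f hf).1 (hmem f hf).2.1 (hmem f hf).2.2)
      (fun f hf g hg => hΦ2 f (hmem f hf).1 (hmem f hf).2.1 (hmem f hf).2.2 g (hmem g hg).1
        (hmem g hg).2.1 (hmem g hg).2.2) hk hΦ

private theorem Main_tw {G : PG c} (h : IsTwRed G.cor) : G.Tw := by
  intro v v' he
  by_contra hne
  apply h v v' hne
  rcases Sym2.eq_iff.1 he with h1 | h1
  · exact Or.inl h1
  · exact Or.inr h1

/-- A prime, reduced and twist-reduced template satisfies the two hypotheses of the asymptotic theorem. -/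
theorem reduced_int {w : List TPiece} {F : Finset ℕ} {cor : Fin c → Fin 4 → ℕ}
    (hT : IsTemplate w c F cor) (hc : 0 < c) (h : IsPR cor) (hTw : IsTwRed cor) :
    IsPrimeT F cor ∧ ∃ x : Vr c → ℝ, IsInt F cor x := by
  have hPT := isPrimeT_of_PR hT hc h
  refine ⟨hPT, ?_⟩
  have hcard := template_card hT
  obtain ⟨G, hcor, hF, h0, h1, hO⟩ := exists_PG hT hc h.red
  subst hcor
  refine int_of_hall hcard hPT.opp (Main_inj h.red) (fun A hA hne hAF => ?_)
  rw [nt_eq_cap]
  exact cap_gt h.red (Main_prm h) (Main_tw hTw) hO (hF ▸ Finset.ssubset_iff_subset_ne.2 ⟨hA, hAF⟩) hne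

end Pool.Agent.H93.TR
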