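import Pool.Agent.H93.TR.Rank

/-!
# TR, Both: a connected set of faces with connected complement

`rank` for `Q` and for `L \ Q` (both are nonempty, so both are `⊂ L`): `2 (c + 2) = 2 |L| ≤ 4 + ∑ v, (loc (pat Q v) + loc (pat (L \ Q) v))`. `pat (L \ Q) v k = !(pat Q v k)` by `G.mem`,
and `loc b + loc (fun k => !(b k)) = if Alt b then 0 else 2` (`decide`). So `2 c ≤ ∑ v, (if Alt .. then 0 else 2) ≤ 2 c`: there is no `v` with `Alt`, and both inequalities
are equalities.
-/

set_option autoImplicit false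

namespace Pool.Agent.H93.TR

variable {c : ℕ} {G : PG c}

private theorem Both_loc : ∀ b : Fin 4 → Bool,
    loc b + loc (fun k => !(b k)) = if Alt b then 0 else 2 := by decide

theorem both {Q : Finset ℕ} (hQ : Q ⊆ G.L) (h1 : G.Con Q) (h2 : G.Con (G.L \ Q)) :
    (∀ v, ¬ Alt (G.pat Q v)) ∧ 2 * Q.card = 2 + ∑ v, loc (G.pat Q v) := by
  have hQ1 : Q ⊂ G.L := by
    refine hQ.ssubset_of_ne ?_
    rintro rfl
    have h3 := h2.1
    rw [Finset.sdiff_self] at h3
    exact Finset.not_nonempty_empty h3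
  have hQ2 : G.L \ Q ⊂ G.L := by
    refine Finset.sdiff_subset.ssubset_of_ne ?_
    intro h
    obtain ⟨f, hf⟩ := h1.1
    have h3 : f ∈ G.L \ Q := by
      rw [h]
      exact hQ hf
    exact (Finset.mem_sdiff.mp h3).2 hf
  have r1 := rank hQ1 h1
  have r2 := rank hQ2 h2
  have hcard : (G.L \ Q).card + Q.card = c + 2 := by
    rw [← G.card]
    exact Finset.card_sdiff_add_card_eq_card hQ
  have hpat : ∀ v, G.pat (G.L \ Q) v = fun k => !(G.pat Q v k) := by
    intro v
    funext k
    have h3 := G.mem v k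
    by_cases h4 : G.cor v k ∈ Q
    · simp [PG.pat, h4]
    · simp [PG.pat, h3, h4]
  have hsum : ∑ v, loc (G.pat Q v) + ∑ v, loc (G.pat (G.L \ Q) v) =
      ∑ v, if Alt (G.pat Q v) then 0 else 2 := by
    rw [← Finset.sum_add_distrib]
    refine Finset.sum_congr rfl fun v _ => ?_
    rw [hpat v]
    exact Both_loc (G.pat Q v)
  have htwo : ∑ _v : Fin c, 2 = 2 * c := by
    rw [Finset.sum_const, Finset.card_univ, Fintype.card_fin, smul_eq_mul, mul_comm]
  have hle : (∑ v, if Alt (G.pat Q v) then 0 else 2) ≤ ∑ _v : Fin c, 2 := by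
    apply Finset.sum_le_sum
    intro v _
    split_ifs <;> omega
  constructor
  · intro v hv
    have hlt : (∑ v, if Alt (G.pat Q v) then 0 else 2) < ∑ _v : Fin c, 2 := by
      apply Finset.sum_lt_sum
      · intro w _
        split_ifs <;> omega
      · exact ⟨v, Finset.mem_univ v, by rw [if_pos hv]; omega⟩
    omega
  · omega

end Pool.Agent.H93.TR
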