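import Pool.Agent.H93.TR.Loc

/-!
# TR, Cnn: connected sets of faces

All proofs are short. `q := G.mt (v, k)`: `G.cor q.1 q.2 = G.cor v (k - 1)` (`G.face`), and `G.cor q.1 (q.2 - 1) = G.cor v k` (`G.face (G.mt (v, k))`, `G.inv`).

* `Cl.symm`: apply the definition of `Cl` at the leg `q = G.mt (v, k)`.
* `Cl.sdiff`: if `cor v k ∈ Q \ A`, `cor v (k-1) ∈ Q` were in `A`, then `cor v k ∈ A` by `Cl.symm`.
* `Cl.trans`: immediate.
* `exists_comp`: among all `A` with `f ∈ A`, `Cl P A` (for example `P`) take one with the smallest number of elements (`Finset.exists_min_image` on `P.powerset`,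
  or `Nat.find`). If `B ⊆ A` is nonempty and `Cl A B`, then `Cl P B` and `Cl P (A \ B)` (`Cl.trans`, `Cl.sdiff`), `f` is in one of the two; by minimality
  `B = A` if `f ∈ B`, and `f ∈ A \ B` is impossible since `A \ B` is smaller.
* `comp_eq`: `Cl A (A ∩ B)` (an edge from `A ∩ B` to `A ⊆ P` stays in `B`), so `A ∩ B = A`; the same with `B`.
* `con_L`: let `A` be nonempty with `Cl L A`. At every vertex `v` all four corners are in `A` or none is (`Cl` at the legs of `v` and `G.mem`; go around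
  the vertex: `k → k - 1 → k - 2 → k - 3`). `P v := G.cor v 0 ∈ A`; it is closed under `mt` by `G.face`. By `G.surj`, `G.conn` every face is in `A`.
* `co_con`: `C` connected, `A` a component of `L \ C`. Let `B ⊆ L \ A` be nonempty and `Cl (L \ A) B`. Then `Cl C (B ∩ C)`, so `B ∩ C = ∅` or `C ⊆ B`.
  CLAIM: if `B ⊆ L \ A`, `Cl (L \ A) B`, `B ∩ C = ∅` then `B = ∅`: `B ⊆ L \ C`, and there is no edge between `B` and `A` (since `Cl (L \ C) A`: an edge from `A`
  to `B ⊆ L \ C` would end in `A`), so `Cl L B`; if `B` were nonempty then `B = L` by `con_L`, but `B ∩ C = ∅` and `C ≠ ∅`. In the first case we get a contradiction; in the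
  second case apply the claim to `(L \ A) \ B` (`Cl.sdiff`), which gives `B = L \ A`.
* `union_con`: `C` connected, `A` a component of `L \ C`. Let `B ⊆ C ∪ A` be nonempty with `Cl (C ∪ A) B`. Then `Cl C (B ∩ C)`, `Cl A (B ∩ A)`, so both are empty
  or everything. If `B = A` (and not `C ⊆ B`), then there is no edge from `A` to `C`, and none to the rest of `L \ C`, so `Cl L A` and `A = L`, contradiction to
  `A ⊆ L \ C`, `C ≠ ∅`. If `B = C`, then (`Cl.sdiff`) `Cl (C ∪ A) A` and the same contradiction.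
-/

set_option autoImplicit false

namespace Pool.Agent.H93.TR

variable {c : ℕ} {G : PG c}

theorem face' (G : PG c) (p : Fin c × Fin 4) :
    G.cor (G.mt p).1 ((G.mt p).2 - 1) = G.cor p.1 p.2 := by
  have h := G.face (G.mt p)
  rw [G.inv] at h
  exact h.symm

theorem PG.Cl.symm {Q A : Finset ℕ} (h : G.Cl Q A) {v : Fin c} {k : Fin 4}
    (h1 : G.cor v (k - 1) ∈ A) (h2 : G.cor v k ∈ Q) : G.cor v k ∈ A := by
  have e1 := G.face (v, k)
  have e2 := face' G (v, k)
  simp only at e1 e2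
  have h3 := h.2 (G.mt (v, k)).1 (G.mt (v, k)).2
  rw [e1, e2] at h3
  exact h3 h1 h2

theorem PG.Cl.sdiff {Q A : Finset ℕ} (h : G.Cl Q A) : G.Cl Q (Q \ A) := by
  refine ⟨Finset.sdiff_subset, fun v k h1 h2 => ?_⟩
  rw [Finset.mem_sdiff] at h1 ⊢
  exact ⟨h2, fun h3 => h1.2 (h.symm h3 h1.1)⟩

theorem PG.Cl.trans {P A B : Finset ℕ} (h1 : G.Cl P A) (h2 : G.Cl A B) : G.Cl P B := by
  exact ⟨h2.1.trans h1.1, fun v k h3 h4 => h2.2 v k h3 (h1.2 v k (h2.1 h3) h4)⟩

theorem exists_comp (G : PG c) {P : Finset ℕ} {f : ℕ} (hf : f ∈ P) : ∃ A, f ∈ A ∧ G.IsComp P A := by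
  classical
  have hne : (P.powerset.filter (fun A => f ∈ A ∧ G.Cl P A)).Nonempty := by
    refine ⟨P, ?_⟩
    rw [Finset.mem_filter, Finset.mem_powerset]
    exact ⟨le_rfl, hf, le_rfl, fun _ _ _ h => h⟩
  obtain ⟨A, hA, hmin⟩ := Finset.exists_min_image _ Finset.card hne
  rw [Finset.mem_filter, Finset.mem_powerset] at hA
  have hmin' : ∀ B : Finset ℕ, f ∈ B → G.Cl P B → A.card ≤ B.card := by
    intro B hB1 hB2
    apply hmin B
    rw [Finset.mem_filter, Finset.mem_powerset]
    exact ⟨hB2.1, hB1, hB2⟩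
  refine ⟨A, hA.2.1, ⟨⟨f, hA.2.1⟩, ?_⟩, hA.2.2⟩
  intro B hBne hB
  by_cases hfB : f ∈ B
  · exact Finset.eq_of_subset_of_card_le hB.1 (hmin' B hfB (hA.2.2.trans hB))
  · exfalso
    have h1 := hmin' (A \ B) (Finset.mem_sdiff.mpr ⟨hA.2.1, hfB⟩) (hA.2.2.trans hB.sdiff)
    have h2 := Finset.card_sdiff_add_card_eq_card hB.1
    have h3 := hBne.card_pos
    omega

private theorem Cnn_inter {P A B : Finset ℕ} (hAP : A ⊆ P) (hB : G.Cl P B) : G.Cl A (B ∩ A) := by
  refine ⟨Finset.inter_subset_right, fun v k h1 h2 => ?_⟩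
  rw [Finset.mem_inter] at h1 ⊢
  exact ⟨hB.2 v k h1.1 (hAP h2), h2⟩

private theorem Cnn_dich {P A B : Finset ℕ} (hA : G.Con A) (hAP : A ⊆ P) (hB : G.Cl P B) :
    B ∩ A = ∅ ∨ A ⊆ B := by
  rcases (B ∩ A).eq_empty_or_nonempty with h | h
  · exact Or.inl h
  · right
    have h1 := hA.2 (B ∩ A) h (Cnn_inter hAP hB)
    rw [← h1]
    exact Finset.inter_subset_left

theorem comp_eq {P A B : Finset ℕ} (hA : G.IsComp P A) (hB : G.IsComp P B) {f : ℕ}
    (h1 : f ∈ A) (h2 : f ∈ B) : A = B := by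
  apply le_antisymm
  · rcases Cnn_dich hA.1 hA.2.1 hB.2 with h | h
    · exfalso
      have : f ∈ B ∩ A := Finset.mem_inter.mpr ⟨h2, h1⟩
      rw [h] at this
      exact absurd this (Finset.notMem_empty f)
    · exact h
  · rcases Cnn_dich hB.1 hB.2.1 hA.2 with h | h
    · exfalso
      have : f ∈ A ∩ B := Finset.mem_inter.mpr ⟨h1, h2⟩
      rw [h] at this
      exact absurd this (Finset.notMem_empty f)
    · exact h

theorem con_L (G : PG c) : G.Con G.L := by
  refine ⟨?_, ?_⟩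
  · rw [← Finset.card_pos, G.card]
    omega
  intro A hAne hA
  have hk : ∀ v k, G.cor v k ∈ A ↔ G.cor v (k - 1) ∈ A := fun v k =>
    ⟨fun h => hA.2 v k h (G.mem v _), fun h => hA.symm h (G.mem v k)⟩
  have h0 : ∀ v k, G.cor v k ∈ A ↔ G.cor v 0 ∈ A := by
    intro v k
    have a1 := hk v 1
    have a2 := hk v 2
    have a3 := hk v 3
    fin_cases k
    · exact Iff.rfl
    · exact a1
    · exact a2.trans a1
    · exact a3.trans (a2.trans a1)
  have hc : ∀ v v', G.cor v 0 ∈ A → G.cor v' 0 ∈ A := by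
    apply G.conn (fun v => G.cor v 0 ∈ A)
    intro p hp
    have h1 : G.cor (G.mt p).1 (G.mt p).2 ∈ A := by
      rw [G.face p]
      exact (h0 _ _).mpr hp
    exact (h0 _ _).mp h1
  apply le_antisymm hA.1
  intro g hg
  obtain ⟨f, hf⟩ := hAne
  obtain ⟨v, k, rfl⟩ := G.surj f (hA.1 hf)
  obtain ⟨v', k', rfl⟩ := G.surj g hg
  exact (h0 _ _).mpr (hc v v' ((h0 _ _).mp hf))

theorem co_con {C A : Finset ℕ} (hC : G.Con C) (hCL : C ⊆ G.L) (hA : G.IsComp (G.L \ C) A) :
    G.Con (G.L \ A) := by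
  have hCA : C ⊆ G.L \ A := by
    intro f hf
    rw [Finset.mem_sdiff]
    exact ⟨hCL hf, fun h => (Finset.mem_sdiff.mp (hA.2.1 h)).2 hf⟩
  obtain ⟨f0, hf0⟩ := hC.1
  have claim : ∀ B : Finset ℕ, G.Cl (G.L \ A) B → B ∩ C = ∅ → B = ∅ := by
    intro B hB hBC
    have hnot : ∀ f ∈ B, f ∉ C := by
      intro f h1 h2
      have : f ∈ B ∩ C := Finset.mem_inter.mpr ⟨h1, h2⟩
      rw [hBC] at this
      exact absurd this (Finset.notMem_empty f)
    by_contra hne
    have hCl : G.Cl G.L B := by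
      refine ⟨hB.1.trans Finset.sdiff_subset, fun v k h1 h2 => ?_⟩
      by_cases h3 : G.cor v (k - 1) ∈ A
      · exfalso
        have h4 := hB.1 h1
        rw [Finset.mem_sdiff] at h4
        exact h4.2 (hA.2.symm h3 (Finset.mem_sdiff.mpr ⟨h4.1, hnot _ h1⟩))
      · exact hB.2 v k h1 (Finset.mem_sdiff.mpr ⟨h2, h3⟩)
    have h5 := (con_L G).2 B (Finset.nonempty_iff_ne_empty.mpr hne) hCl
    exact hnot f0 (h5 ▸ hCL hf0) hf0
  refine ⟨⟨f0, hCA hf0⟩, ?_⟩
  intro B hBne hB
  rcases Cnn_dich hC hCA hB with h | h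
  · exact absurd (claim B hB h) (Finset.nonempty_iff_ne_empty.mp hBne)
  · have h1 := claim ((G.L \ A) \ B) hB.sdiff (by
      rw [Finset.eq_empty_iff_forall_notMem]
      intro f hf
      rw [Finset.mem_inter, Finset.mem_sdiff] at hf
      exact hf.1.2 (h hf.2))
    exact le_antisymm hB.1 (Finset.sdiff_eq_empty_iff_subset.mp h1)

theorem union_con {C A : Finset ℕ} (hC : G.Con C) (hCL : C ⊆ G.L) (hA : G.IsComp (G.L \ C) A) :
    G.Con (C ∪ A) := by
  obtain ⟨f0, hf0⟩ := hC.1
  have hdis : ∀ f ∈ A, f ∉ C := fun f h => (Finset.mem_sdiff.mp (hA.2.1 h)).2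
  have hAL : A ⊆ G.L := hA.2.1.trans Finset.sdiff_subset
  have claim : ¬ G.Cl (C ∪ A) A := by
    intro h
    have hCl : G.Cl G.L A := by
      refine ⟨hAL, fun v k h1 h2 => ?_⟩
      by_cases h3 : G.cor v (k - 1) ∈ C
      · exact h.2 v k h1 (Finset.mem_union_left _ h3)
      · exact hA.2.2 v k h1 (Finset.mem_sdiff.mpr ⟨h2, h3⟩)
    have h5 := (con_L G).2 A hA.1.1 hCl
    exact hdis f0 (h5 ▸ hCL hf0) hf0
  refine ⟨⟨f0, Finset.mem_union_left _ hf0⟩, ?_⟩
  intro B hBne hB
  rcases Cnn_dich hC Finset.subset_union_left hB with h1 | h1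
  · rcases Cnn_dich hA.1 Finset.subset_union_right hB with h2 | h2
    · exfalso
      obtain ⟨g, hg⟩ := hBne
      rcases Finset.mem_union.mp (hB.1 hg) with h3 | h3
      · have : g ∈ B ∩ C := Finset.mem_inter.mpr ⟨hg, h3⟩
        rw [h1] at this
        exact absurd this (Finset.notMem_empty g)
      · have : g ∈ B ∩ A := Finset.mem_inter.mpr ⟨hg, h3⟩
        rw [h2] at this
        exact absurd this (Finset.notMem_empty g)
    · exfalso
      have h3 : B = A := by
        apply le_antisymm _ h2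
        intro g hg
        rcases Finset.mem_union.mp (hB.1 hg) with h3 | h3
        · have : g ∈ B ∩ C := Finset.mem_inter.mpr ⟨hg, h3⟩
          rw [h1] at this
          exact absurd this (Finset.notMem_empty g)
        · exact h3
      exact claim (h3 ▸ hB)
  · rcases Cnn_dich hA.1 Finset.subset_union_right hB with h2 | h2
    · exfalso
      have h3 : (C ∪ A) \ B = A := by
        ext g
        rw [Finset.mem_sdiff, Finset.mem_union]
        constructor
        · rintro ⟨h4 | h4, h5⟩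
          · exact absurd (h1 h4) h5
          · exact h4
        · intro h4
          refine ⟨Or.inr h4, fun h5 => ?_⟩
          have : g ∈ B ∩ A := Finset.mem_inter.mpr ⟨h5, h4⟩
          rw [h2] at this
          exact absurd this (Finset.notMem_empty g)
      have h4 := hB.sdiff
      rw [h3] at h4
      exact claim h4
    · exact le_antisymm hB.1 (Finset.union_subset h1 h2)

end Pool.Agent.H93.TR
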