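import Pool.Agent.H93.TR.Loc

/-!
# TR, Par: parity

`even_par`: `∑ v, par Q r v = #A + #B`, where `A` is the set of the ends `p` with `cor p.1 p.2 = r`, `cor p.1 (p.2 - 1) ∈ Q`, and `B` the set of the ends `p` with
`cor p.1 (p.2 - 1) = r`, `cor p.1 p.2 ∈ Q` (in the second sum over `k` replace `k` by `k - 1`: `Equiv.sum_comp (Equiv.subRight 1)` or just `Fin.sum_univ_four`).
`mt` is a bijection from `A` to `B` (`G.face`, `G.inv`: `cor (mt p).1 (mt p).2 = cor p.1 (p.2 - 1)`, `cor (mt p).1 ((mt p).2 - 1) = cor p.1 p.2`). So the sum is `2 * #A`.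

Local formulas (`r ∉ Q`; write `z k = cor v k`; by cases over `k` and `Fin.sum_univ_four`; only the pattern and the positions `j` with `z j = r` matter, so everything
follows from a `decide` over `b ρ : Fin 4 → Bool`, `ρ j = decide (z j = r)`, `b j = pat Q v j`, with `∀ j, !(ρ j && b j)`; for `par_one` in addition `z (k - 1) ≠ z (k + 1)` (`Red`,
`(k - 1) + 2 = k + 1`), for `par_adj`: `z (k - 1) ≠ z (k + 2)` by `G.colne v (k + 2)`):
* `par_even`: if the pattern is not `cnt = 1`, not `Adj2`, then `par` is even (`cnt = 0`: it is `0`; `cnt = 2`, `Alt`: every corner `k` with `z k = r` has both neighbours in `Q`; `cnt = 3`: the only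
  corner outside has both neighbours in `Q`; `cnt = 4`: `r ∉ Q` does not occur).
* `par_one`: if `cnt = 1`, `cor v k ∈ Q`, then `par = 1` if `r ∈ {cor v (k-1), cor v (k+1)}` and `0` otherwise (using `Red`).
* `par_adj`: if `Adj2`, `cor v k, cor v (k + 1) ∈ Q`, then `par = 1` if `r ∈ {cor v (k-1), cor v (k+2)}` and `0` otherwise.
-/

set_option autoImplicit false

namespace Pool.Agent.H93.TR

variable {c : ℕ} {G : PG c}

private def par_l (b ρ : Fin 4 → Bool) : ℕ :=
  ∑ k, if ρ k = true then ((b (k - 1)).toNat + (b (k + 1)).toNat) else 0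

private theorem par_eq_l (Q : Finset ℕ) (r : ℕ) (v : Fin c) :
    G.par Q r v = par_l (G.pat Q v) (fun j => decide (G.cor v j = r)) := by
  unfold PG.par par_l
  refine Finset.sum_congr rfl fun k _ => ?_
  simp only [decide_eq_true_eq]

private theorem par_fin1 : ∀ k : Fin 4, k - 1 + 2 = k + 1 := by decide

private theorem par_fin2 : ∀ k : Fin 4, k + 2 + 1 = k - 1 := by decide

private theorem par_lev : ∀ b ρ : Fin 4 → Bool, (∀ j, (ρ j && b j) = false) → cnt b ≠ 1 →
    ¬ Adj2 b → par_l b ρ % 2 = 0 := by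
  unfold par_l
  decide +kernel

private theorem par_lone : ∀ b ρ : Fin 4 → Bool, (∀ j, (ρ j && b j) = false) → cnt b = 1 →
    ∀ k, b k = true → (ρ (k - 1) && ρ (k + 1)) = false →
    par_l b ρ = if (ρ (k - 1) || ρ (k + 1)) = true then 1 else 0 := by
  unfold par_l
  decide +kernel

private theorem par_ladj : ∀ b ρ : Fin 4 → Bool, (∀ j, (ρ j && b j) = false) → Adj2 b →
    ∀ k, b k = true → b (k + 1) = true → (ρ (k - 1) && ρ (k + 2)) = false →
    par_l b ρ = if (ρ (k - 1) || ρ (k + 2)) = true then 1 else 0 := by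
  unfold par_l
  decide +kernel

private theorem par_disj {Q : Finset ℕ} {r : ℕ} (hr : r ∉ Q) (v : Fin c) (j : Fin 4) :
    (decide (G.cor v j = r) && G.pat Q v j) = false := by
  unfold PG.pat
  by_cases h : G.cor v j = r
  · simp [h, hr]
  · simp [h]

theorem even_par (G : PG c) (Q : Finset ℕ) (r : ℕ) : Even (∑ v, G.par Q r v) := by
  classical
  have h1 : ∑ v, G.par Q r v =
      (Finset.univ.filter (fun p : Fin c × Fin 4 =>
        G.cor p.1 p.2 = r ∧ G.cor p.1 (p.2 - 1) ∈ Q)).card +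
      (Finset.univ.filter (fun p : Fin c × Fin 4 =>
        G.cor p.1 (p.2 - 1) = r ∧ G.cor p.1 p.2 ∈ Q)).card := by
    rw [Finset.card_filter, Finset.card_filter, Fintype.sum_prod_type, Fintype.sum_prod_type,
      ← Finset.sum_add_distrib]
    refine Finset.sum_congr rfl fun v _ => ?_
    unfold PG.par PG.pat
    have h2 : (∑ k : Fin 4, if G.cor v (k - 1) = r ∧ G.cor v k ∈ Q then 1 else 0) =
        ∑ k : Fin 4, if G.cor v k = r ∧ G.cor v (k + 1) ∈ Q then 1 else 0 := by
      rw [← Equiv.sum_comp (Equiv.addRight (1 : Fin 4))]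
      refine Finset.sum_congr rfl fun k _ => ?_
      simp only [Equiv.coe_addRight, add_sub_cancel_right]
    show _ = (∑ k : Fin 4, if G.cor v k = r ∧ G.cor v (k - 1) ∈ Q then 1 else 0) +
      (∑ k : Fin 4, if G.cor v (k - 1) = r ∧ G.cor v k ∈ Q then 1 else 0)
    rw [h2, ← Finset.sum_add_distrib]
    refine Finset.sum_congr rfl fun k _ => ?_
    by_cases ha : G.cor v k = r
    · by_cases hb : G.cor v (k - 1) ∈ Q <;> by_cases hc : G.cor v (k + 1) ∈ Q <;>
        simp [ha, hb, hc]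
    · simp [ha]
  have h3 : (Finset.univ.filter (fun p : Fin c × Fin 4 =>
        G.cor p.1 p.2 = r ∧ G.cor p.1 (p.2 - 1) ∈ Q)).card =
      (Finset.univ.filter (fun p : Fin c × Fin 4 =>
        G.cor p.1 (p.2 - 1) = r ∧ G.cor p.1 p.2 ∈ Q)).card := by
    have hf : ∀ p, G.cor (G.mt p).1 ((G.mt p).2 - 1) = G.cor p.1 p.2 := by
      intro p
      have := G.face (G.mt p)
      rw [G.inv] at this
      exact this.symm
    apply Finset.card_bij (fun p _ => G.mt p)
    · intro p hp
      rw [Finset.mem_filter] at hp ⊢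
      refine ⟨Finset.mem_univ _, ?_, ?_⟩
      · rw [hf]; exact hp.2.1
      · rw [G.face]; exact hp.2.2
    · intro p _ q _ h
      rw [← G.inv p, ← G.inv q, h]
    · intro p hp
      rw [Finset.mem_filter] at hp
      refine ⟨G.mt p, ?_, G.inv p⟩
      rw [Finset.mem_filter]
      refine ⟨Finset.mem_univ _, ?_, ?_⟩
      · rw [G.face]; exact hp.2.1
      · rw [hf]; exact hp.2.2
  rw [h1, h3]
  exact Even.add_self _

theorem par_even {Q : Finset ℕ} {r : ℕ} (hr : r ∉ Q) {v : Fin c} (h1 : cnt (G.pat Q v) ≠ 1)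
    (h2 : ¬ Adj2 (G.pat Q v)) : Even (G.par Q r v) := by
  rw [par_eq_l, Nat.even_iff]
  exact par_lev _ _ (par_disj hr v) h1 h2

theorem par_one (hR : G.Red) {Q : Finset ℕ} {r : ℕ} (hr : r ∉ Q) {v : Fin c} {k : Fin 4}
    (h1 : cnt (G.pat Q v) = 1) (hk : G.cor v k ∈ Q) :
    G.par Q r v = if r = G.cor v (k - 1) ∨ r = G.cor v (k + 1) then 1 else 0 := by
  have hne : (decide (G.cor v (k - 1) = r) && decide (G.cor v (k + 1) = r)) = false := by
    have h := hR v (k - 1)
    have e : k - 1 + 2 = k + 1 := par_fin1 k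
    rw [e] at h
    by_cases ha : G.cor v (k - 1) = r
    · have hb : G.cor v (k + 1) ≠ r := fun hb => h (ha.trans hb.symm)
      simp [hb]
    · simp [ha]
  rw [par_eq_l, par_lone _ _ (par_disj hr v) h1 k (G.pat_eq.2 hk) hne]
  simp only [Bool.or_eq_true, decide_eq_true_eq, @eq_comm _ r]

theorem par_adj {Q : Finset ℕ} {r : ℕ} (hr : r ∉ Q) {v : Fin c} {k : Fin 4}
    (h1 : Adj2 (G.pat Q v)) (hk : G.cor v k ∈ Q) (hk' : G.cor v (k + 1) ∈ Q) :
    G.par Q r v = if r = G.cor v (k - 1) ∨ r = G.cor v (k + 2) then 1 else 0 := by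
  have hne : (decide (G.cor v (k - 1) = r) && decide (G.cor v (k + 2) = r)) = false := by
    have h := G.colne v (k + 2)
    have e : k + 2 + 1 = k - 1 := par_fin2 k
    rw [e] at h
    by_cases ha : G.cor v (k - 1) = r
    · have hb : G.cor v (k + 2) ≠ r := fun hb => h (by rw [ha, hb])
      simp [hb]
    · simp [ha]
  rw [par_eq_l, par_ladj _ _ (par_disj hr v) h1 k (G.pat_eq.2 hk) (G.pat_eq.2 hk') hne]
  simp only [Bool.or_eq_true, decide_eq_true_eq, @eq_comm _ r]

end Pool.Agent.H93.TR
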