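import Pool.Agent.H93.TR.Both
import Pool.Agent.H93.TR.Par
import Pool.Agent.H93.TR.Cnn

/-!
# TR, Cls: connected sets with connected complement, lower bound

* `spread`: `Z v := cnt (pat R v) = 0` is closed under `mt`: for `p = (v, k)`, `q = G.mt p`: `cor q.1 q.2 = cor v (k - 1) ∉ R` and `cor q.1 (q.2 - 1) = cor v k ∉ R`
  (`G.face`, `face'`), so `h` applies at `q`. `ho`, `hx`, `hy` give a vertex with `Z` (again by `h`); `G.conn`.
* `even_adj`: `both` gives `2 |Q| = 2 + ∑ loc`, and `loc b % 2 = if Adj2 b then 1 else 0` (`decide`).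
* `cls_two`: suppose `∑ gg ≤ 1`. By `both` there is no `Alt`. `gg b = 0` iff `cnt b ∈ {0, 3, 4}`, `gg b = 1` iff `cnt b = 1` or `Adj2 b` (`decide`).
  If `∑ gg = 0`: at every vertex `cnt ∈ {0, 3, 4}`, so two consecutive corners outside `Q` imply `cnt = 0`, and `spread` shows `cnt = 0` everywhere; but `Q` is nonempty
  (`G.surj`, `hQ`).
  If `∑ gg = 1`: there is exactly one vertex `v` with `gg = 1`, the others have `gg = 0`. By `even_adj` it is not `Adj2`, so `cnt = 1`; let `cor v k ∈ Q`, `r = cor v (k - 1)`; `r ∉ Q`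
  since `cnt = 1`. `par Q r v = 1` (`par_one`), and `par` is even at all other vertices (`par_even`), a contradiction to `even_par`.
-/

set_option autoImplicit false

namespace Pool.Agent.H93.TR

variable {c : ℕ} {G : PG c}

private theorem Cls_cnt0 : ∀ b : Fin 4 → Bool, cnt b = 0 → ∀ k, b k = false := by decide

private theorem Cls_loc : ∀ b : Fin 4 → Bool, loc b % 2 = if Adj2 b then 1 else 0 := by decide

private theorem Cls_gg0 : ∀ b : Fin 4 → Bool, gg b = 0 → cnt b ≠ 1 ∧ ¬ Adj2 b := by decide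

private theorem Cls_gg0' : ∀ b : Fin 4 → Bool, gg b = 0 → ∀ k, b k = false → b (k - 1) = false →
    cnt b = 0 := by decide

private theorem Cls_gg1 : ∀ b : Fin 4 → Bool, gg b = 1 → ¬ Adj2 b → cnt b = 1 := by decide

private theorem Cls_cnt1 : ∀ b : Fin 4 → Bool, cnt b = 1 → ∃ k, b k = true ∧ b (k - 1) = false := by
  decide

theorem spread {x y : ℕ} {R : Finset ℕ} (ho : G.Out x y) (hx : x ∉ R) (hy : y ∉ R)
    (h : ∀ v k, G.cor v k ∉ R → G.cor v (k - 1) ∉ R → cnt (G.pat R v) = 0) (v : Fin c) :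
    cnt (G.pat R v) = 0 := by
  obtain ⟨v0, k0, e1, e2⟩ := ho
  have h0 : cnt (G.pat R v0) = 0 := h v0 k0 (by rw [e1]; exact hx) (by rw [e2]; exact hy)
  refine G.conn (fun v => cnt (G.pat R v) = 0) ?_ v0 v h0
  intro p hp
  have hk := Cls_cnt0 _ hp
  refine h (G.mt p).1 (G.mt p).2 ?_ ?_
  · rw [G.face p]
    exact G.pat_eq_false.1 (hk _)
  · rw [face' G p]
    exact G.pat_eq_false.1 (hk _)

theorem even_adj {Q : Finset ℕ} (hQ : Q ⊆ G.L) (h1 : G.Con Q) (h2 : G.Con (G.L \ Q)) :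
    Even (∑ v, if Adj2 (G.pat Q v) then 1 else 0) := by
  have h := (both hQ h1 h2).2
  have e : ∑ v, loc (G.pat Q v) = (∑ v, if Adj2 (G.pat Q v) then 1 else 0) +
      2 * ∑ v, loc (G.pat Q v) / 2 := by
    rw [Finset.mul_sum, ← Finset.sum_add_distrib]
    refine Finset.sum_congr rfl fun v _ => ?_
    rw [← Cls_loc]
    exact (Nat.mod_add_div _ _).symm
  rw [Nat.even_iff]
  omega

theorem cls_two (hR : G.Red) {x y : ℕ} (ho : G.Out x y) {Q : Finset ℕ} (hQ : Q ⊆ G.L)
    (hx : x ∉ Q) (hy : y ∉ Q) (h1 : G.Con Q) (h2 : G.Con (G.L \ Q)) :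
    2 ≤ ∑ v, gg (G.pat Q v) := by
  by_contra hcon
  by_cases hall : ∀ v, gg (G.pat Q v) = 0
  · have hs := spread ho hx hy fun v k hk hk' =>
      Cls_gg0' _ (hall v) k (G.pat_eq_false.2 hk) (G.pat_eq_false.2 hk')
    obtain ⟨f, hf⟩ := h1.1
    obtain ⟨v, k, e⟩ := G.surj f (hQ hf)
    have := Cls_cnt0 _ (hs v) k
    rw [G.pat_eq_false, e] at this
    exact this hf
  · push Not at hall
    obtain ⟨v, hv⟩ := hall
    have hsum := Finset.add_sum_erase Finset.univ (fun v => gg (G.pat Q v)) (Finset.mem_univ v)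
    have hv1 : gg (G.pat Q v) = 1 := by
      omega
    have her : ∑ x ∈ Finset.univ.erase v, gg (G.pat Q x) = 0 := by
      omega
    have hoth : ∀ w, w ≠ v → gg (G.pat Q w) = 0 := fun w hw =>
      Finset.sum_eq_zero_iff.1 her w (Finset.mem_erase.2 ⟨hw, Finset.mem_univ w⟩)
    have hnadj : ¬ Adj2 (G.pat Q v) := by
      intro ha
      have he := even_adj hQ h1 h2
      rw [← Finset.add_sum_erase Finset.univ _ (Finset.mem_univ v), if_pos ha,
        Finset.sum_eq_zero, add_zero] at he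
      · exact absurd he (by decide)
      · intro w hw
        exact if_neg (Cls_gg0 _ (hoth w (Finset.mem_erase.1 hw).1)).2
    have hc1 := Cls_gg1 _ hv1 hnadj
    obtain ⟨k, hk, hk'⟩ := Cls_cnt1 _ hc1
    rw [G.pat_eq] at hk
    rw [G.pat_eq_false] at hk'
    have hp1 : G.par Q (G.cor v (k - 1)) v = 1 := by
      rw [par_one hR hk' hc1 hk, if_pos (Or.inl rfl)]
    have hev := even_par G Q (G.cor v (k - 1))
    rw [← Finset.add_sum_erase Finset.univ _ (Finset.mem_univ v), hp1] at hev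
    have hev2 : Even (∑ w ∈ Finset.univ.erase v, G.par Q (G.cor v (k - 1)) w) := by
      refine Finset.even_sum _ fun w hw => ?_
      have hw' := Cls_gg0 _ (hoth w (Finset.mem_erase.1 hw).1)
      exact par_even hk' hw'.1 hw'.2
    rw [Nat.even_iff] at hev hev2
    omega

end Pool.Agent.H93.TR
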