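import Pool.Agent.H93.TR.Cls

/-!
# TR, ClsE: connected sets with connected complement, the case of equality

`both`: no `Alt`. `gg b = 1` iff `cnt b = 1` or `Adj2 b`, `gg b = 2` iff `Alt b` (`decide`). So there are `v₁ ≠ v₂` with `gg = 1` and `gg = 0` (`cnt ∈ {0, 3, 4}`) at all other vertices. By `even_adj` either both
are `Adj2` or none is.

(1) None is `Adj2`: both have `cnt = 1`. `Port Q`: `adj`, `alt`, `ex` are clear. `pair`: `v, v' ∈ {v₁, v₂}`. If `v = v'` then `k = k'` since `cnt = 1`. If `v ≠ v'`: let `r` be `cor v (k - 1)` or `cor v (k + 1)`;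
`r ∉ Q` since `cnt = 1`. `par Q r v = 1` by `par_one`, `par Q r u` is even for `u ≠ v, v'` (`par_even`), so by `even_par` `par Q r v'` is odd, so (`par_one` at `v'`)
`r ∈ {cor v' (k' - 1), cor v' (k' + 1)}`. The two values of `r` are different (`Red`: `(k - 1) + 2 = k + 1`), so the two unordered pairs are equal.

(2) Both are `Adj2`: let `cor v₁ k₁, cor v₁ (k₁ + 1) ∈ Q`, `cor v₂ k₂, cor v₂ (k₂ + 1) ∈ Q` and `a = cor v₁ (k₁ + 2)`, `b = cor v₁ (k₁ + 3)`, `a' = cor v₂ (k₂ + 2)`, `b' = cor v₂ (k₂ + 3)`: these are not in `Q`,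
`a ≠ b` by `G.colne`. As in (1), with `par_adj` (`k - 1 = k + 3`), `a, b ∈ {a', b'}`, so `s(a, b) = s(a', b')`. The leg `p₁ = (v₁, k₁ + 3)` has the faces `cor v₁ (k₁ + 3) = b`, `cor v₁ (k₁ + 2) = a`, and
`p₂ = (v₂, k₂ + 3)` has the faces `b'`, `a'`; by `Prm` `p₂ = p₁` or `p₂ = mt p₁`, so `p₂ = mt p₁` as `v₁ ≠ v₂`.
CLAIM: a leg with both faces outside `Q` at a vertex with `cnt ≠ 0` is `p₁` or `p₂`: the vertex does not have `cnt ∈ {3, 4}`, so it is `v₁` or `v₂`, and the only consecutive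
corners outside `Q` at `v₁` are `k₁ + 2`, `k₁ + 3`.
The predicate `Z v := cnt (pat Q v) = 0` is closed under `mt`: let `p = (v, k)`, `Z v`; the leg `q = mt p` has both faces outside `Q`; if its vertex does not have `Z` then `q = p₁` or `q = p₂`, so
`p = mt q = p₂` or `p₁`, but `Z v` fails for `v₁`, `v₂`. Since `Z v₁` is false, `Z v` is false for all `v` (`G.conn`, contrapositive). So by the CLAIM the only legs with both faces outside `Q` are `p₁`, `p₂`.
Let `A = {a, b}`. `Cl (L \ Q) A`: if `cor v k ∈ A`, `cor v (k - 1) ∈ L \ Q`, then the leg `(v, k)` has both faces outside `Q` (`a, b ∉ Q`), so it is `p₁` or `p₂`, and `cor v (k - 1) ∈ {a, b}`.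
So `L \ Q = {a, b}` by `h2`. `x, y ∈ L \ Q` (`Out`, `G.mem`) and `x ≠ y` (`G.colne`), so `L \ Q = {x, y}`.
-/

set_option autoImplicit false

namespace Pool.Agent.H93.TR

variable {c : ℕ} {G : PG c}

private theorem ClsE_f1 : ∀ k : Fin 4, k - 1 ≠ k := by decide
private theorem ClsE_f2 : ∀ k : Fin 4, k + 1 ≠ k := by decide
private theorem ClsE_f3 : ∀ k : Fin 4, k - 1 + 2 = k + 1 := by decide
private theorem ClsE_f4 : ∀ k : Fin 4, k - 1 = k + 3 := by decide
private theorem ClsE_f5 : ∀ k : Fin 4, k + 3 - 1 = k + 2 := by decide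
private theorem ClsE_f6 : ∀ k : Fin 4, k + 2 + 1 = k + 3 := by decide
private theorem ClsE_f7 : ∀ k : Fin 4, k - 1 + 1 = k := by decide
private theorem ClsE_f8 : ∀ j k : Fin 4, k ≠ j → k ≠ j + 1 → k - 1 ≠ j → k - 1 ≠ j + 1 →
    k = j + 3 := by decide
private theorem ClsE_cnt0 : ∀ b : Fin 4 → Bool, cnt b = 0 → ∀ k, b k = false := by decide
private theorem ClsE_adj0 : ∀ b : Fin 4 → Bool, Adj2 b → cnt b ≠ 0 := by decide

private theorem ClsE_sym {a b a' b' : ℕ} (hab : a ≠ b) (ha : a = a' ∨ a = b') (hb : b = a' ∨ b = b') :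
    s(a, b) = s(a', b') := by
  rw [Sym2.eq_iff]
  rcases ha with ha | ha <;> rcases hb with hb | hb
  · exact absurd (ha.trans hb.symm) hab
  · exact Or.inl ⟨ha, hb⟩
  · exact Or.inr ⟨ha, hb⟩
  · exact absurd (ha.trans hb.symm) hab

/-- The two odd vertices. -/
private theorem ClsE_par {Q : Finset ℕ} {v₁ v₂ : Fin c} (h12 : v₁ ≠ v₂)
    (hS : ∀ v, v ≠ v₁ → v ≠ v₂ → cnt (G.pat Q v) ≠ 1 ∧ ¬ Adj2 (G.pat Q v)) {r : ℕ} (hr : r ∉ Q) :
    Even (G.par Q r v₁ + G.par Q r v₂) := by
  have h1 := even_par G Q r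
  rw [← Finset.add_sum_erase Finset.univ _ (Finset.mem_univ v₁),
    ← Finset.add_sum_erase (Finset.univ.erase v₁) _
      (Finset.mem_erase.2 ⟨h12.symm, Finset.mem_univ v₂⟩), ← add_assoc] at h1
  have h2 : Even (∑ v ∈ (Finset.univ.erase v₁).erase v₂, G.par Q r v) := by
    apply Finset.even_sum
    intro v hv
    rw [Finset.mem_erase, Finset.mem_erase] at hv
    have h3 := hS v hv.2.1 hv.1
    exact par_even hr h3.1 h3.2
  exact (Nat.even_add.1 h1).2 h2

theorem cls_eq (hR : G.Red) (hP : G.Prm) {x y : ℕ} (ho : G.Out x y) {Q : Finset ℕ} (hQ : Q ⊆ G.L)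
    (hx : x ∉ Q) (hy : y ∉ Q) (h1 : G.Con Q) (h2 : G.Con (G.L \ Q))
    (hg : ∑ v, gg (G.pat Q v) = 2) : G.L \ Q = {x, y} ∨ G.Port Q := by
  have hAlt := (both hQ h1 h2).1
  set S : Finset (Fin c) := Finset.univ.filter
    (fun v => cnt (G.pat Q v) = 1 ∨ Adj2 (G.pat Q v)) with hS
  have hScard : S.card = 2 := by
    rw [hS, Finset.card_filter, ← hg]
    apply Finset.sum_congr rfl
    intro v _
    rw [gg_le _ (hAlt v)]
  obtain ⟨v₁, v₂, h12, hS12⟩ := Finset.card_eq_two.1 hScard
  have hmem : ∀ v, (cnt (G.pat Q v) = 1 ∨ Adj2 (G.pat Q v)) ↔ (v = v₁ ∨ v = v₂) := by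
    intro v
    have h3 : v ∈ S ↔ (cnt (G.pat Q v) = 1 ∨ Adj2 (G.pat Q v)) := by
      rw [hS, Finset.mem_filter]
      exact and_iff_right (Finset.mem_univ v)
    rw [← h3, hS12, Finset.mem_insert, Finset.mem_singleton]
  have hout : ∀ v, v ≠ v₁ → v ≠ v₂ → cnt (G.pat Q v) ≠ 1 ∧ ¬ Adj2 (G.pat Q v) := by
    intro v hv1 hv2
    have h3 : ¬ (cnt (G.pat Q v) = 1 ∨ Adj2 (G.pat Q v)) := by
      rw [hmem]
      rintro (h | h)
      · exact hv1 h
      · exact hv2 h
    exact ⟨fun h => h3 (Or.inl h), fun h => h3 (Or.inr h)⟩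
  have hpar : ∀ {r : ℕ}, r ∉ Q → Even (G.par Q r v₁ + G.par Q r v₂) :=
    fun hr => ClsE_par h12 hout hr
  have hev := even_adj hQ h1 h2
  rw [← Finset.card_filter] at hev
  set T : Finset (Fin c) := Finset.univ.filter (fun v => Adj2 (G.pat Q v)) with hT
  have hTS : T ⊆ S := by
    intro v hv
    rw [hT, Finset.mem_filter] at hv
    rw [hS, Finset.mem_filter]
    exact ⟨hv.1, Or.inr hv.2⟩
  by_cases hT0 : T = ∅
  · right
    have hadj : ∀ v, ¬ Adj2 (G.pat Q v) := by
      intro v hv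
      have h3 : v ∈ T := by
        rw [hT, Finset.mem_filter]
        exact ⟨Finset.mem_univ v, hv⟩
      rw [hT0] at h3
      exact absurd h3 (Finset.notMem_empty v)
    refine ⟨hadj, hAlt, ⟨v₁, ((hmem v₁).2 (Or.inl rfl)).resolve_right (hadj v₁)⟩, ?_⟩
    intro v k v' k' hv hk hv' hk'
    have hkt : G.pat Q v k = true := G.pat_eq.2 hk
    have hkt' : G.pat Q v' k' = true := G.pat_eq.2 hk'
    by_cases hvv : v = v'
    · subst hvv
      have hkk : k = k' := by
        by_contra hne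
        have h3 := cnt_one _ hv k hkt k' (Ne.symm hne)
        rw [hkt'] at h3
        exact absurd h3 (by decide)
      subst hkk
      rfl
    · have hpar' : ∀ {r : ℕ}, r ∉ Q → Even (G.par Q r v + G.par Q r v') := by
        intro r hr
        have h3 := hpar hr
        rcases (hmem v).1 (Or.inl hv) with e | e <;> rcases (hmem v').1 (Or.inl hv') with e' | e'
        · exact absurd (e.trans e'.symm) hvv
        · rw [e, e']
          exact h3
        · rw [e, e', add_comm]
          exact h3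
        · exact absurd (e.trans e'.symm) hvv
      have hr1 : G.cor v (k - 1) ∉ Q :=
        G.pat_eq_false.1 (cnt_one _ hv k hkt (k - 1) (ClsE_f1 k))
      have hr2 : G.cor v (k + 1) ∉ Q :=
        G.pat_eq_false.1 (cnt_one _ hv k hkt (k + 1) (ClsE_f2 k))
      have hne : G.cor v (k - 1) ≠ G.cor v (k + 1) := by
        have h3 := hR v (k - 1)
        rwa [ClsE_f3] at h3
      have key : ∀ r, r ∉ Q → (r = G.cor v (k - 1) ∨ r = G.cor v (k + 1)) →
          (r = G.cor v' (k' - 1) ∨ r = G.cor v' (k' + 1)) := by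
        intro r hr hr'
        by_contra hcon
        have h3 := hpar' hr
        rw [par_one hR hr hv hk, par_one hR hr hv' hk', if_pos hr', if_neg hcon] at h3
        exact absurd h3 (by decide)
      exact ClsE_sym hne (key _ hr1 (Or.inl rfl)) (key _ hr2 (Or.inr rfl))
  · left
    have hTpos : 0 < T.card := Finset.card_pos.2 (Finset.nonempty_iff_ne_empty.2 hT0)
    have hT2 : S.card ≤ T.card := by
      rw [hScard]
      obtain ⟨n, hn⟩ := hev
      omega
    have hTeq : T = S := Finset.eq_of_subset_of_card_le hTS hT2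
    have hadj : ∀ v, v = v₁ ∨ v = v₂ → Adj2 (G.pat Q v) := by
      intro v hv
      have h3 : v ∈ T := by
        rw [hTeq, hS12, Finset.mem_insert, Finset.mem_singleton]
        exact hv
      rw [hT, Finset.mem_filter] at h3
      exact h3.2
    have hA1 := hadj v₁ (Or.inl rfl)
    have hA2 := hadj v₂ (Or.inr rfl)
    obtain ⟨k₁, p1, p2, p3, p4⟩ := adj2_ex _ hA1
    obtain ⟨k₂, q1, q2, q3, q4⟩ := adj2_ex _ hA2
    have ha : G.cor v₁ (k₁ + 2) ∉ Q := G.pat_eq_false.1 p3
    have hb : G.cor v₁ (k₁ + 3) ∉ Q := G.pat_eq_false.1 p4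
    have hne : G.cor v₁ (k₁ + 2) ≠ G.cor v₁ (k₁ + 3) := by
      intro h
      have h3 := G.colne v₁ (k₁ + 2)
      rw [ClsE_f6, h] at h3
      exact h3 rfl
    have key : ∀ r, r ∉ Q → (r = G.cor v₁ (k₁ + 3) ∨ r = G.cor v₁ (k₁ + 2)) →
        (r = G.cor v₂ (k₂ + 3) ∨ r = G.cor v₂ (k₂ + 2)) := by
      intro r hr hr'
      by_contra hcon
      have h3 := hpar hr
      rw [par_adj hr hA1 (G.pat_eq.1 p1) (G.pat_eq.1 p2),
        par_adj hr hA2 (G.pat_eq.1 q1) (G.pat_eq.1 q2), ClsE_f4, ClsE_f4, if_pos hr',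
        if_neg hcon] at h3
      exact absurd h3 (by decide)
    have hsym : s(G.cor v₁ (k₁ + 3), G.cor v₁ (k₁ + 2)) =
        s(G.cor v₂ (k₂ + 3), G.cor v₂ (k₂ + 2)) :=
      ClsE_sym hne.symm (key _ hb (Or.inl rfl)) (key _ ha (Or.inr rfl))
    have hP1 := hP (v₁, k₁ + 3) (v₂, k₂ + 3) (by
      show s(G.cor v₁ (k₁ + 3), G.cor v₁ (k₁ + 3 - 1)) =
        s(G.cor v₂ (k₂ + 3), G.cor v₂ (k₂ + 3 - 1))
      rw [ClsE_f5, ClsE_f5]
      exact hsym)
    have hmt : ((v₂, k₂ + 3) : Fin c × Fin 4) = G.mt (v₁, k₁ + 3) := by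
      rcases hP1 with h | h
      · exact absurd (congrArg Prod.fst h).symm h12
      · exact h
    have hmt' : ((v₁, k₁ + 3) : Fin c × Fin 4) = G.mt (v₂, k₂ + 3) := by
      rw [hmt, G.inv]
    -- legs at a vertex with `Adj2`
    have hleg : ∀ (v : Fin c) (j k : Fin 4), G.pat Q v j = true → G.pat Q v (j + 1) = true →
        G.cor v k ∉ Q → G.cor v (k - 1) ∉ Q → k = j + 3 := by
      intro v j k hj hj' hk hk'
      apply ClsE_f8
      · rintro rfl
        exact hk (G.pat_eq.1 hj)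
      · rintro rfl
        exact hk (G.pat_eq.1 hj')
      · intro h
        rw [h] at hk'
        exact hk' (G.pat_eq.1 hj)
      · intro h
        rw [h] at hk'
        exact hk' (G.pat_eq.1 hj')
    have claim : ∀ (v : Fin c) (k : Fin 4), G.cor v k ∉ Q → G.cor v (k - 1) ∉ Q →
        cnt (G.pat Q v) ≠ 0 → (v, k) = (v₁, k₁ + 3) ∨ (v, k) = (v₂, k₂ + 3) := by
      intro v k hk hk' hc
      by_cases hv1 : v = v₁
      · left
        subst hv1
        rw [hleg v k₁ k p1 p2 hk hk']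
      · by_cases hv2 : v = v₂
        · right
          subst hv2
          rw [hleg v k₂ k q1 q2 hk hk']
        · exfalso
          have h3 : gg (G.pat Q v) = 0 := by
            rw [gg_le _ (hAlt v), if_neg]
            have h4 := hout v hv1 hv2
            rintro (h | h)
            · exact h4.1 h
            · exact h4.2 h
          exact hc (gg_zero _ h3 k (G.pat_eq_false.2 hk) (G.pat_eq_false.2 hk'))
    have hZ : ∀ p : Fin c × Fin 4, cnt (G.pat Q p.1) = 0 → cnt (G.pat Q (G.mt p).1) = 0 := by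
      intro p hp
      by_contra hcon
      have hno : ∀ k, G.cor p.1 k ∉ Q := fun k => G.pat_eq_false.1 (ClsE_cnt0 _ hp k)
      have h3 : G.cor (G.mt p).1 (G.mt p).2 ∉ Q := by
        rw [G.face]
        exact hno _
      have h4 : G.cor (G.mt p).1 ((G.mt p).2 - 1) ∉ Q := by
        rw [face']
        exact hno _
      rcases claim _ _ h3 h4 hcon with h | h
      · have h5 : G.mt p = (v₁, k₁ + 3) := h
        have h6 : p = (v₂, k₂ + 3) := by
          rw [hmt, ← h5, G.inv]
        rw [h6] at hp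
        exact ClsE_adj0 _ hA2 hp
      · have h5 : G.mt p = (v₂, k₂ + 3) := h
        have h6 : p = (v₁, k₁ + 3) := by
          rw [hmt', ← h5, G.inv]
        rw [h6] at hp
        exact ClsE_adj0 _ hA1 hp
    have hcnt : ∀ v, cnt (G.pat Q v) ≠ 0 := fun v hv =>
      ClsE_adj0 _ hA1 (G.conn (fun v => cnt (G.pat Q v) = 0) hZ v v₁ hv)
    have hAeq : ({G.cor v₁ (k₁ + 2), G.cor v₁ (k₁ + 3)} : Finset ℕ) = G.L \ Q := by
      apply h2.2 _ (Finset.insert_nonempty _ _)
      refine ⟨?_, ?_⟩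
      · intro f hf
        rw [Finset.mem_insert, Finset.mem_singleton] at hf
        rw [Finset.mem_sdiff]
        rcases hf with rfl | rfl
        · exact ⟨G.mem _ _, ha⟩
        · exact ⟨G.mem _ _, hb⟩
      · intro v k hk hk'
        have h3 : G.cor v k ∉ Q := by
          rw [Finset.mem_insert, Finset.mem_singleton] at hk
          rcases hk with h | h
          · rw [h]
            exact ha
          · rw [h]
            exact hb
        have h4 : G.cor v (k - 1) ∉ Q := (Finset.mem_sdiff.1 hk').2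
        rcases claim v k h3 h4 (hcnt v) with h | h
        · have e1 : v = v₁ := congrArg Prod.fst h
          have e2 : k = k₁ + 3 := congrArg Prod.snd h
          rw [e1, e2, ClsE_f5]
          exact Finset.mem_insert_self _ _
        · have e1 : v = v₂ := congrArg Prod.fst h
          have e2 : k = k₂ + 3 := congrArg Prod.snd h
          rw [e1, e2, ClsE_f5, Finset.mem_insert, Finset.mem_singleton]
          rcases Sym2.eq_iff.1 hsym with h5 | h5
          · exact Or.inl h5.2.symm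
          · exact Or.inr h5.1.symm
    obtain ⟨v, k, hvx, hvy⟩ := ho
    have hxy : x ≠ y := by
      intro h
      have h3 := G.colne v (k - 1)
      rw [ClsE_f7, hvx, hvy, h] at h3
      exact h3 rfl
    have hxL : x ∈ G.L \ Q := by
      rw [Finset.mem_sdiff, ← hvx]
      exact ⟨G.mem _ _, by rw [hvx]; exact hx⟩
    have hyL : y ∈ G.L \ Q := by
      rw [Finset.mem_sdiff, ← hvy]
      exact ⟨G.mem _ _, by rw [hvy]; exact hy⟩
    symm
    apply Finset.eq_of_subset_of_card_le
    · intro f hf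
      rw [Finset.mem_insert, Finset.mem_singleton] at hf
      rcases hf with rfl | rfl
      · exact hxL
      · exact hyL
    · rw [Finset.card_pair hxy, ← hAeq, Finset.card_pair hne]

end Pool.Agent.H93.TR
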