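import Pool.Agent.H93.TR.Loc

/-!
# TR, Tree: spanning trees

`exists_tree`: among all `A ⊆ N` with `r ∈ A` for which there are `φ`, `d` with the property for `A` (for all `b ∈ A`, `b ≠ r` there is `a ∈ A` with `J (φ b) a b`, `d a < d b`) take one with the largest number of elements
(`{r}` is one). If `A ≠ N` then `h` gives `v`, `a`, `b`; change `φ` and `d` at `b` (`Function.update`): `φ b = v`, `d b = 1 + ∑ x ∈ A, d x` (or any number larger than `d a`); the property holds for `insert b A` (`b ∉ A`), a contradiction.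

`tree_inj`: let `v = φ b₁ = φ b₂`, `b₁ ≠ b₂`: there are `k`, `j` with `cor v (k + 2) = b₁`, `cor v k = a₁ ∈ N`, `d a₁ < d b₁`, `cor v (j + 2) = b₂`, `cor v j = a₂`, `d a₂ < d b₂`. All four have the colour `e`, so `j ∈ {k, k + 2}` (`G.colne`); `j = k` gives
`b₁ = b₂`; `j = k + 2` gives `a₂ = b₁`, `b₂ = a₁` (`k + 2 + 2 = k`), so `d b₂ < d b₁ < d b₂`.
-/

set_option autoImplicit false

namespace Pool.Agent.H93.TR

variable {c : ℕ} {G : PG c}

theorem exists_tree (hc : 0 < c) (J : Fin c → ℕ → ℕ → Prop) (N : Finset ℕ) {r : ℕ} (hr : r ∈ N)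
    (h : ∀ A ⊆ N, r ∈ A → A ≠ N → ∃ v, ∃ a ∈ A, ∃ b ∈ N \ A, J v a b) :
    ∃ (φ : ℕ → Fin c) (d : ℕ → ℕ), ∀ b ∈ N, b ≠ r → ∃ a ∈ N, J (φ b) a b ∧ d a < d b := by
  classical
  have hne : (N.powerset.filter fun A => r ∈ A ∧ ∃ (φ : ℕ → Fin c) (d : ℕ → ℕ),
      ∀ b ∈ A, b ≠ r → ∃ a ∈ A, J (φ b) a b ∧ d a < d b).Nonempty := by
    refine ⟨{r}, ?_⟩
    rw [Finset.mem_filter, Finset.mem_powerset, Finset.singleton_subset_iff]
    refine ⟨hr, Finset.mem_singleton_self r, fun _ => ⟨0, hc⟩, fun _ => 0, fun b hb hbr => ?_⟩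
    exact absurd (Finset.mem_singleton.mp hb) hbr
  obtain ⟨A, hA, hmax⟩ := Finset.exists_max_image _ Finset.card hne
  rw [Finset.mem_filter, Finset.mem_powerset] at hA
  obtain ⟨hAN, hrA, φ, d, hφ⟩ := hA
  by_cases hE : A = N
  · subst hE
    exact ⟨φ, d, hφ⟩
  · exfalso
    obtain ⟨v, a, ha, b, hb, hJ⟩ := h A hAN hrA hE
    rw [Finset.mem_sdiff] at hb
    obtain ⟨hbN, hbA⟩ := hb
    have hne' : ∀ x ∈ A, x ≠ b := fun x hx hxb => hbA (hxb ▸ hx)
    have h1 := hmax (insert b A) (by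
      rw [Finset.mem_filter, Finset.mem_powerset]
      refine ⟨Finset.insert_subset hbN hAN, Finset.mem_insert_of_mem hrA,
        Function.update φ b v, Function.update d b (d a + 1), fun x hx hxr => ?_⟩
      rcases Finset.mem_insert.mp hx with hxb | hxA
      · subst hxb
        refine ⟨a, Finset.mem_insert_of_mem ha, ?_, ?_⟩
        · rw [Function.update_self]
          exact hJ
        · rw [Function.update_self, Function.update_of_ne (hne' a ha)]
          exact Nat.lt_succ_self _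
      · obtain ⟨y, hyA, hyJ, hyd⟩ := hφ x hxA hxr
        refine ⟨y, Finset.mem_insert_of_mem hyA, ?_, ?_⟩
        · rw [Function.update_of_ne (hne' x hxA)]
          exact hyJ
        · rw [Function.update_of_ne (hne' x hxA), Function.update_of_ne (hne' y hyA)]
          exact hyd)
    rw [Finset.card_insert_of_notMem hbA] at h1
    omega

theorem tree_inj {N : Finset ℕ} {e : Bool} (hN : ∀ f ∈ N, G.col f = e) {r : ℕ} {φ : ℕ → Fin c}
    {d : ℕ → ℕ} (h : ∀ b ∈ N, b ≠ r → ∃ a ∈ N, G.Jn (φ b) a b ∧ d a < d b) {b₁ b₂ : ℕ}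
    (h1 : b₁ ∈ N) (h1r : b₁ ≠ r) (h2 : b₂ ∈ N) (h2r : b₂ ≠ r) (he : φ b₁ = φ b₂) : b₁ = b₂ := by
  obtain ⟨a₁, ha₁, ⟨k, hk1, hk2⟩, hd1⟩ := h b₁ h1 h1r
  obtain ⟨a₂, ha₂, ⟨j, hj1, hj2⟩, hd2⟩ := h b₂ h2 h2r
  rw [← he] at hj1 hj2
  have hck : G.col (G.cor (φ b₁) k) = e := by rw [hk1]; exact hN _ ha₁
  have hcj : G.col (G.cor (φ b₁) j) = e := by rw [hj1]; exact hN _ ha₂
  have hj3 : j ≠ k + 1 := fun hj => by
    have h3 := G.colne (φ b₁) k
    rw [← hj, hck, hcj] at h3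
    exact h3 rfl
  have hj4 : j ≠ k + 3 := fun hj => by
    have h3 := G.colne (φ b₁) j
    have h5 : ∀ k : Fin 4, k + 3 + 1 = k := by decide
    have h4 : j + 1 = k := by rw [hj, h5]
    rw [h4, hck, hcj] at h3
    exact h3 rfl
  have hcase : ∀ k j : Fin 4, j ≠ k + 1 → j ≠ k + 3 → j = k ∨ j = k + 2 := by decide
  rcases hcase k j hj3 hj4 with hj | hj
  · subst hj
    rw [← hk2, ← hj2]
  · exfalso
    have h22 : ∀ k : Fin 4, k + 2 + 2 = k := by decide
    rw [hj] at hj1 hj2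
    rw [h22] at hj2
    have e1 : a₂ = b₁ := hj1.symm.trans hk2
    have e2 : b₂ = a₁ := hj2.symm.trans hk1
    rw [e1, e2] at hd2
    omega

end Pool.Agent.H93.TR
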