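import Pool.Agent.H93.TR.Two
import Pool.Agent.H93.TR.Tree

/-!
# TR, Dual: the complement of a spanning tree connects the faces of the other colour

`φ`, `d`: a spanning tree (with the root `r`) of the faces of the colour `e`; `T` is the set of the vertices `φ b`, `b ≠ r`. `A` is a set of faces of the other colour.

`even_cut`: for a face `b` and any set `A` the number of the corners `(v, k)` of `b` with exactly one of `cor v (k - 1)`, `cor v (k + 1)` in `A` is even: let `S` be the set of the `p` with `cor p = b`, `σ p = G.mt (p.1, p.2 + 1)` is a bijection of `S`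
(`G.face`), and `cor (σ p).1 ((σ p).2 - 1) = cor p.1 (p.2 + 1)` (`face2`). With `ι f = if f ∈ A then 1 else 0 : ℕ`: `∑ p ∈ S, (ι (cor p.1 (p.2 - 1)) + ι (cor p.1 (p.2 + 1))) = 2 ∑ p ∈ S, ι (cor p.1 (p.2 - 1))` (reindex by `σ`: `Finset.sum_bij` or
`Finset.sum_nbij'`, or `σ` as an `Equiv.Perm` and `Equiv.sum_comp` for `∑ p, if cor p = b then .. else 0`), and modulo 2 the left side is the number in question.

`dual`: suppose that the conclusion is false. Let `D` be the set of the vertices `v` for which there is a `k` with `cor v k ∈ A`, `cor v (k + 2) ∉ A`. Then every `v ∈ D` is `φ b` for some `b ∈ G.L` with `G.col b = e`, `b ≠ r`.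
(1) `D` is nonempty: otherwise `P v := ∃ k, cor v k ∈ A` is closed under `mt`: `cor v k ∈ A`, so `cor v (k + 2) ∈ A`: all the corners of `v` of the colour `≠ e` are in `A` (`cases4`), for the edge `p = (v, j)` one of `cor v j`, `cor v (j - 1)` has the colour `≠ e` (`G.colne v (j - 1)`), so it is in `A`
and it is a face at `mt p` (`G.face`, `face2`). `A` is nonempty, so all vertices have `P` (`G.surj`, `G.conn`), also the vertex with the corner `g`; all its corners of the colour `≠ e` are in `A`, so `g ∈ A`, a contradiction.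
(2) Choose `v ∈ D`, `v = φ b`, with `d b` as large as possible (`Finset.exists_max_image` on the set of the `b ∈ G.L` with `col b = e`, `b ≠ r`, `φ b ∈ D`). Let `p` be a corner of `b` with exactly one of `cor p.1 (p.2 - 1)`, `cor p.1 (p.2 + 1)` in `A`. Then `p.1 ∈ D` (`k = p.2 - 1` or `k = p.2 + 1`;
`(p.2 - 1) + 2 = p.2 + 1`, `(p.2 + 1) + 2 = p.2 - 1`), so `p.1 = φ b'` with `b' ∈ L`, `col b' = e`, `b' ≠ r`, `a' ∈ L`, `Jn p.1 a' b'`, `d a' < d b'`. `b` is a corner of `p.1` of the colour `e`, so `b = b'` or `b = a'` (`cases4`); in the second case `d b < d b'`, a contradiction to the choice. So `b' = b`,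
`p.1 = φ b = v`. `b` is exactly one corner of `v` (`cases4`, `hR`). Conversely the corner `(v, k)` with `cor v k = b` has exactly one of `cor v (k - 1)`, `cor v (k + 1)` in `A`, since `v ∈ D` (the corners in `A` do not have the colour `e`). So the number in `even_cut` is `1`, which is not even.
-/

set_option autoImplicit false

namespace Pool.Agent.H93.TR

variable {c : ℕ} {G : PG c}

/-- The successor of a corner around its face. -/
private def Dual_sig (G : PG c) : Equiv.Perm (Fin c × Fin 4) where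
  toFun p := G.mt (p.1, p.2 + 1)
  invFun q := ((G.mt q).1, (G.mt q).2 - 1)
  left_inv p := by
    show ((G.mt (G.mt (p.1, p.2 + 1))).1, (G.mt (G.mt (p.1, p.2 + 1))).2 - 1) = p
    rw [G.inv]
    simp
  right_inv q := by
    show G.mt ((G.mt q).1, (G.mt q).2 - 1 + 1) = q
    rw [sub_add_cancel]
    exact G.inv q

private theorem Dual_sig_cor (G : PG c) (p : Fin c × Fin 4) :
    G.cor (Dual_sig G p).1 (Dual_sig G p).2 = G.cor p.1 p.2 := by
  show G.cor (G.mt (p.1, p.2 + 1)).1 (G.mt (p.1, p.2 + 1)).2 = _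
  rw [G.face]
  simp

private theorem Dual_sig_cor2 (G : PG c) (p : Fin c × Fin 4) :
    G.cor (Dual_sig G p).1 ((Dual_sig G p).2 - 1) = G.cor p.1 (p.2 + 1) :=
  face2 G (p.1, p.2 + 1)

open Classical in
theorem even_cut (G : PG c) (A : Finset ℕ) (b : ℕ) :
    Even (Finset.univ.filter (fun p : Fin c × Fin 4 => G.cor p.1 p.2 = b ∧
      ¬ (G.cor p.1 (p.2 - 1) ∈ A ↔ G.cor p.1 (p.2 + 1) ∈ A))).card := by
  have h1 : ∑ p : Fin c × Fin 4, (if G.cor p.1 p.2 = b ∧ G.cor p.1 (p.2 - 1) ∈ A then 1 else 0) =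
      ∑ p : Fin c × Fin 4, (if G.cor p.1 p.2 = b ∧ G.cor p.1 (p.2 + 1) ∈ A then 1 else 0) := by
    rw [← Equiv.sum_comp (Dual_sig G)]
    refine Finset.sum_congr rfl fun p _ => ?_
    rw [Dual_sig_cor, Dual_sig_cor2]
  have h2 : (Finset.univ.filter (fun p : Fin c × Fin 4 => G.cor p.1 p.2 = b ∧
      ¬ (G.cor p.1 (p.2 - 1) ∈ A ↔ G.cor p.1 (p.2 + 1) ∈ A))).card +
      2 * ∑ p : Fin c × Fin 4, (if G.cor p.1 p.2 = b ∧ G.cor p.1 (p.2 - 1) ∈ A ∧
        G.cor p.1 (p.2 + 1) ∈ A then 1 else 0) =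
      ∑ p : Fin c × Fin 4, (if G.cor p.1 p.2 = b ∧ G.cor p.1 (p.2 - 1) ∈ A then 1 else 0) +
      ∑ p : Fin c × Fin 4, (if G.cor p.1 p.2 = b ∧ G.cor p.1 (p.2 + 1) ∈ A then 1 else 0) := by
    rw [Finset.card_filter, Finset.mul_sum, ← Finset.sum_add_distrib, ← Finset.sum_add_distrib]
    refine Finset.sum_congr rfl fun p _ => ?_
    by_cases a1 : G.cor p.1 p.2 = b <;> by_cases a2 : G.cor p.1 (p.2 - 1) ∈ A <;>
      by_cases a3 : G.cor p.1 (p.2 + 1) ∈ A <;> simp [a1, a2, a3]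
  rw [← h1] at h2
  rw [Nat.even_iff]
  omega

private theorem Dual_fin4 : ∀ k j : Fin 4, k ≠ j → k ≠ j + 2 → k = j + 1 ∨ k = j - 1 := by decide

private theorem Dual_fin4a : ∀ k : Fin 4, k - 1 + 2 = k + 1 := by decide

private theorem Dual_fin4b : ∀ k : Fin 4, k + 1 + 2 = k - 1 := by decide

private theorem Dual_fin4c : ∀ k : Fin 4, k + 2 + 2 = k := by decide

theorem dual (hR : G.Red) {e : Bool} {r : ℕ} {φ : ℕ → Fin c} {d : ℕ → ℕ}
    (h : ∀ b ∈ G.L, G.col b = e → b ≠ r → ∃ a ∈ G.L, G.Jn (φ b) a b ∧ d a < d b) {A : Finset ℕ}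
    (hA : ∀ f ∈ A, f ∈ G.L ∧ G.col f ≠ e) (hne : A.Nonempty) {g : ℕ} (hg : g ∈ G.L)
    (hgc : G.col g ≠ e) (hgA : g ∉ A) :
    ∃ v, (∀ b ∈ G.L, G.col b = e → b ≠ r → φ b ≠ v) ∧ ∃ k, G.cor v k ∈ A ∧ G.cor v (k + 2) ∉ A := by
  classical
  by_contra hcon
  have hD : ∀ v, (∃ k, G.cor v k ∈ A ∧ G.cor v (k + 2) ∉ A) →
      ∃ b ∈ G.L, G.col b = e ∧ b ≠ r ∧ φ b = v := by
    intro v hv
    by_contra hc
    apply hcon
    refine ⟨v, fun b h1 h2 h3 h4 => hc ⟨b, h1, h2, h3, h4⟩, hv⟩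
  have hcol : ∀ x y : ℕ, G.col x ≠ e → G.col y ≠ e → G.col x = G.col y := by
    intro x y hx hy
    cases hx' : G.col x <;> cases hy' : G.col y <;> cases e <;> simp_all
  -- step 1
  have hex : ∃ v, ∃ k, G.cor v k ∈ A ∧ G.cor v (k + 2) ∉ A := by
    by_contra hno
    have hno' : ∀ v k, G.cor v k ∈ A → G.cor v (k + 2) ∈ A := by
      intro v k h1
      by_contra h2
      exact hno ⟨v, k, h1, h2⟩
    have HP : ∀ v, (∃ k, G.cor v k ∈ A) → ∀ j, G.col (G.cor v j) ≠ e → G.cor v j ∈ A := by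
      rintro v ⟨k, hk⟩ j hj
      rcases cases4 G (hcol _ _ hj (hA _ hk).2) with rfl | rfl
      · exact hk
      · exact hno' v k hk
    have hclosed : ∀ p : Fin c × Fin 4, (∃ k, G.cor p.1 k ∈ A) → ∃ k, G.cor (G.mt p).1 k ∈ A := by
      intro p hp
      by_cases h1 : G.col (G.cor p.1 p.2) = e
      · have h2 : G.col (G.cor p.1 (p.2 - 1)) ≠ e := by
          have := G.colne p.1 (p.2 - 1)
          rw [sub_add_cancel, h1] at this
          exact this
        exact ⟨(G.mt p).2, by rw [G.face]; exact HP p.1 hp _ h2⟩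
      · exact ⟨(G.mt p).2 - 1, by rw [face2]; exact HP p.1 hp _ h1⟩
    obtain ⟨f, hf⟩ := hne
    obtain ⟨v, k, hvk⟩ := G.surj f (hA f hf).1
    obtain ⟨v', k', hvk'⟩ := G.surj g hg
    have hPv : ∃ k, G.cor v k ∈ A := ⟨k, by rw [hvk]; exact hf⟩
    have hPv' := G.conn (fun v => ∃ k, G.cor v k ∈ A) hclosed v v' hPv
    have := HP v' hPv' k' (by rw [hvk']; exact hgc)
    rw [hvk'] at this
    exact hgA this
  -- step 2
  set N := G.L.filter (fun b => G.col b = e ∧ b ≠ r ∧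
    ∃ k, G.cor (φ b) k ∈ A ∧ G.cor (φ b) (k + 2) ∉ A) with hN
  have hNne : N.Nonempty := by
    obtain ⟨v, hv⟩ := hex
    obtain ⟨b, h1, h2, h3, h4⟩ := hD v hv
    refine ⟨b, ?_⟩
    rw [hN, Finset.mem_filter]
    exact ⟨h1, h2, h3, by rw [h4]; exact hv⟩
  obtain ⟨b, hbN, hmax⟩ := Finset.exists_max_image N d hNne
  rw [hN, Finset.mem_filter] at hbN
  obtain ⟨hbL, hbc, hbr, k, hk1, hk2⟩ := hbN
  obtain ⟨a, haL, ⟨k0, hk0, hk0'⟩, hda⟩ := h b hbL hbc hbr
  -- the corner of `φ b` in the face `b`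
  have hkc : G.col (G.cor (φ b) k) ≠ e := (hA _ hk1).2
  have hkb1 : k ≠ k0 + 2 := by
    rintro rfl
    rw [hk0'] at hkc
    exact hkc hbc
  have hkb2 : k ≠ k0 + 2 + 2 := by
    rintro rfl
    rw [cor2, hk0'] at hkc
    exact hkc hbc
  have hmem : (φ b, k0 + 2) ∈ Finset.univ.filter (fun p : Fin c × Fin 4 => G.cor p.1 p.2 = b ∧
      ¬ (G.cor p.1 (p.2 - 1) ∈ A ↔ G.cor p.1 (p.2 + 1) ∈ A)) := by
    rw [Finset.mem_filter]
    refine ⟨Finset.mem_univ _, hk0', ?_⟩
    show ¬ (G.cor (φ b) (k0 + 2 - 1) ∈ A ↔ G.cor (φ b) (k0 + 2 + 1) ∈ A)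
    rcases Dual_fin4 k (k0 + 2) hkb1 hkb2 with h1 | h1
    · rw [h1] at hk1 hk2
      rw [Dual_fin4b] at hk2
      exact fun hiff => hk2 (hiff.2 hk1)
    · rw [h1] at hk1 hk2
      rw [Dual_fin4a] at hk2
      exact fun hiff => hk2 (hiff.1 hk1)
  have hall : ∀ p ∈ Finset.univ.filter (fun p : Fin c × Fin 4 => G.cor p.1 p.2 = b ∧
      ¬ (G.cor p.1 (p.2 - 1) ∈ A ↔ G.cor p.1 (p.2 + 1) ∈ A)), p = (φ b, k0 + 2) := by
    intro p hp
    rw [Finset.mem_filter] at hp
    obtain ⟨-, hp1, hp2⟩ := hp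
    have hpD : ∃ k, G.cor p.1 k ∈ A ∧ G.cor p.1 (k + 2) ∉ A := by
      by_cases h1 : G.cor p.1 (p.2 - 1) ∈ A
      · have h2 : G.cor p.1 (p.2 + 1) ∉ A := fun h2 => hp2 ⟨fun _ => h2, fun _ => h1⟩
        exact ⟨p.2 - 1, h1, by rw [Dual_fin4a]; exact h2⟩
      · have h2 : G.cor p.1 (p.2 + 1) ∈ A := by
          by_contra h2
          exact hp2 ⟨fun h3 => absurd h3 h1, fun h3 => absurd h3 h2⟩
        exact ⟨p.2 + 1, h2, by rw [Dual_fin4b]; exact h1⟩
    obtain ⟨b', hb'L, hb'c, hb'r, hb'v⟩ := hD p.1 hpD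
    have hb'N : b' ∈ N := by
      rw [hN, Finset.mem_filter]
      exact ⟨hb'L, hb'c, hb'r, by rw [hb'v]; exact hpD⟩
    have hle := hmax b' hb'N
    obtain ⟨a', ha'L, ⟨k', hk', hk''⟩, hda'⟩ := h b' hb'L hb'c hb'r
    rw [hb'v] at hk' hk''
    have hcc : G.col (G.cor p.1 p.2) = G.col (G.cor p.1 (k' + 2)) := by
      rw [hp1, hk'', hbc, hb'c]
    have hbb' : b = b' := by
      rcases cases4 G hcc with h1 | h1
      · rw [← hp1, ← hk'', h1]
      · exfalso
        rw [Dual_fin4c] at h1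
        have h2 : b = a' := by rw [← hp1, ← hk', h1]
        rw [← h2] at hda'
        omega
    have hpv : p.1 = φ b := by rw [← hb'v, hbb']
    have hp22 : p.2 = k0 + 2 := by
      have h3 : G.cor (φ b) p.2 = b := by rw [← hpv]; exact hp1
      have h4 : G.col (G.cor (φ b) p.2) = G.col (G.cor (φ b) (k0 + 2)) := by rw [h3, hk0']
      rcases cases4 G h4 with h5 | h5
      · exact h5
      · exfalso
        apply hR (φ b) (k0 + 2)
        rw [← h5, h3, hk0']
    exact Prod.ext hpv hp22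
  have hcard : ∀ S : Finset (Fin c × Fin 4), (∀ p, p ∈ S ↔ G.cor p.1 p.2 = b ∧
      ¬ (G.cor p.1 (p.2 - 1) ∈ A ↔ G.cor p.1 (p.2 + 1) ∈ A)) → S.card = 1 := by
    intro S hS
    rw [Finset.card_eq_one]
    refine ⟨(φ b, k0 + 2), ?_⟩
    ext p
    rw [Finset.mem_singleton, hS]
    constructor
    · intro hp
      exact hall p (Finset.mem_filter.2 ⟨Finset.mem_univ _, hp⟩)
    · rintro rfl
      exact (Finset.mem_filter.1 hmem).2
  have heven := even_cut G A b
  rw [hcard _ (fun p => by rw [Finset.mem_filter]; exact ⟨fun h => h.2, fun h => ⟨Finset.mem_univ _, h⟩⟩)]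
    at heven
  exact absurd heven (by decide)

end Pool.Agent.H93.TR
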