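import Pool.Agent.H93.TR.ClsE

/-!
# TR, Hole: connected sets of bounded faces

`C` connected, `C ⊆ L \ {x, y}`. Let `P = L \ C`, `P₀` the component of `P` containing `x` (`exists_comp`); `y ∈ P₀` (`ho`: the leg `(v, k)` with `cor v k = x`, `cor v (k - 1) = y`, and `Cl P P₀`). Let `D = L \ P₀ ⊇ C`. `D` is
connected (`co_con`), `L \ D = P₀` is connected, `x, y ∉ D`. So `cls_two`, `cls_eq` apply to `D`, and `both` (no `Alt` for `D`).

Local comparison: at every vertex `gg (pat D v) + (if Alt (pat C v) then 2 else 0) ≤ gg (pat C v)`. Let every corner of `v` be `0`: in `P₀`, `1`: in `C`, `2`: in `D \ C = P \ P₀`. A corner `2` is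
not next to a corner `0` (`Cl P P₀`, and `Cl.symm`). The pattern of `D` (`≠ 0`) is not `Alt`. This is `hole_loc1` (`Loc.lean`).

If `P = P₀` then `D = C`, `2 |C| = 2 + ∑ loc` (`both`), so `∑ cap0 = ∑ loc + ∑ gg ≥ 2 |C|` by `cap0_eq` and `cls_two`, with equality only if `∑ gg = 2`, and `cls_eq` gives the result.

If `P ≠ P₀`: we show `2 |C| < ∑ cap0`. `∑ gg (pat C v) ≥ 2 + 2 #Alt` by the local comparison. `2 |C| ≤ 2 + ∑ loc (pat C v)` by `rank`. So if there is a `v` with `Alt (pat C v)` we are done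
(`cap0_eq`). Suppose there is none. Take `f ∈ P \ P₀` and its component `P₁` in `P` (`exists_comp`); `P₁ ≠ P₀`, so they are disjoint (`comp_eq`). `C ∪ P₁` is connected (`union_con`), and `≠ L` (`x ∉`), so
`2 |C| + 2 |P₁| ≤ 2 + ∑ loc (pat (C ∪ P₁) v)` (`rank`, `C` and `P₁` are disjoint). `both` applies to `P₁` (`co_con` for its complement): `2 |P₁| = 2 + ∑ loc (pat P₁ v)`. Local fact:
`loc (pat (C ∪ P₁) v) = loc (pat C v) + loc (pat P₁ v)`: let every corner be `0`: outside `C ∪ P₁`, `1`: in `C`, `2`: in `P₁`; no `0` is next to a `2` (`Cl P P₁`), and the pattern of `C` is not `Alt`: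
this is `hole_loc2` (`Loc.lean`). So `2 |C| ≤ ∑ loc (pat C v) < ∑ loc (pat C v) + 2 ≤ ∑ cap0`.
-/

set_option autoImplicit false

namespace Pool.Agent.H93.TR

variable {c : ℕ} {G : PG c}

private theorem Hole_pat {Q : Finset ℕ} {v : Fin c} {b : Fin 4 → Bool}
    (h : ∀ k, b k = true ↔ G.cor v k ∈ Q) : b = G.pat Q v := by
  funext k
  rw [Bool.eq_iff_iff, h k, G.pat_eq]

private theorem Hole_cmp {C P₀ : Finset ℕ} (h0 : G.Cl (G.L \ C) P₀) {v : Fin c}
    (hA : ¬ Alt (G.pat (G.L \ P₀) v)) :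
    gg (G.pat (G.L \ P₀) v) + (if Alt (G.pat C v) then 2 else 0) ≤ gg (G.pat C v) := by
  classical
  have hdis : ∀ f ∈ P₀, f ∉ C := fun f h => (Finset.mem_sdiff.mp (h0.1 h)).2
  set ρ : Fin 4 → Fin 3 := fun k =>
    if G.cor v k ∈ C then 1 else if G.cor v k ∈ P₀ then 0 else 2 with hρ
  have r1 : ∀ k, ρ k = 1 ↔ G.cor v k ∈ C := by
    intro k
    rw [hρ]
    simp only
    by_cases a : G.cor v k ∈ C
    · simp [a]
    · by_cases b : G.cor v k ∈ P₀
      · simp [a, b]
      · simp [a, b]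
  have r0 : ∀ k, ρ k = 0 ↔ G.cor v k ∈ P₀ := by
    intro k
    rw [hρ]
    simp only
    by_cases a : G.cor v k ∈ C
    · have b : G.cor v k ∉ P₀ := fun h => hdis _ h a
      simp [a, b]
    · by_cases b : G.cor v k ∈ P₀
      · simp [a, b]
      · simp [a, b]
  have r2 : ∀ k, ρ k = 2 ↔ (G.cor v k ∉ C ∧ G.cor v k ∉ P₀) := by
    intro k
    rw [hρ]
    simp only
    by_cases a : G.cor v k ∈ C
    · simp [a]
    · by_cases b : G.cor v k ∈ P₀
      · simp [a, b]
      · simp [a, b]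
  have e1 : (fun k => decide (ρ k ≠ 0)) = G.pat (G.L \ P₀) v := by
    apply Hole_pat
    intro k
    rw [decide_eq_true_iff, Ne, r0, Finset.mem_sdiff]
    exact ⟨fun h => ⟨G.mem v k, h⟩, fun h => h.2⟩
  have e2 : (fun k => decide (ρ k = 1)) = G.pat C v := by
    apply Hole_pat
    intro k
    rw [decide_eq_true_iff, r1]
  have h := hole_loc1 ρ ?_ ?_
  · rw [e1, e2] at h
    exact h
  · intro k
    constructor
    · rintro ⟨a, b⟩
      rw [r2] at a
      rw [r0] at b
      exact a.2 (h0.symm b (Finset.mem_sdiff.mpr ⟨G.mem v k, a.1⟩))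
    · rintro ⟨a, b⟩
      rw [r0] at a
      rw [r2] at b
      exact b.2 (h0.2 v k a (Finset.mem_sdiff.mpr ⟨G.mem v _, b.1⟩))
  · rw [e1]
    exact hA

private theorem Hole_add {C P₁ : Finset ℕ} (h0 : G.Cl (G.L \ C) P₁) {v : Fin c}
    (hA : ¬ Alt (G.pat C v)) :
    loc (G.pat (C ∪ P₁) v) = loc (G.pat C v) + loc (G.pat P₁ v) := by
  classical
  have hdis : ∀ f ∈ P₁, f ∉ C := fun f h => (Finset.mem_sdiff.mp (h0.1 h)).2
  set ρ : Fin 4 → Fin 3 := fun k =>
    if G.cor v k ∈ C then 1 else if G.cor v k ∈ P₁ then 2 else 0 with hρ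
  have r1 : ∀ k, ρ k = 1 ↔ G.cor v k ∈ C := by
    intro k
    rw [hρ]
    simp only
    by_cases a : G.cor v k ∈ C
    · simp [a]
    · by_cases b : G.cor v k ∈ P₁
      · simp [a, b]
      · simp [a, b]
  have r2 : ∀ k, ρ k = 2 ↔ G.cor v k ∈ P₁ := by
    intro k
    rw [hρ]
    simp only
    by_cases a : G.cor v k ∈ C
    · have b : G.cor v k ∉ P₁ := fun h => hdis _ h a
      simp [a, b]
    · by_cases b : G.cor v k ∈ P₁
      · simp [a, b]
      · simp [a, b]
  have r0 : ∀ k, ρ k = 0 ↔ (G.cor v k ∉ C ∧ G.cor v k ∉ P₁) := by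
    intro k
    rw [hρ]
    simp only
    by_cases a : G.cor v k ∈ C
    · simp [a]
    · by_cases b : G.cor v k ∈ P₁
      · simp [a, b]
      · simp [a, b]
  have e1 : (fun k => decide (ρ k ≠ 0)) = G.pat (C ∪ P₁) v := by
    apply Hole_pat
    intro k
    rw [decide_eq_true_iff, Ne, r0, Finset.mem_union]
    tauto
  have e2 : (fun k => decide (ρ k = 1)) = G.pat C v := by
    apply Hole_pat
    intro k
    rw [decide_eq_true_iff, r1]
  have e3 : (fun k => decide (ρ k = 2)) = G.pat P₁ v := by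
    apply Hole_pat
    intro k
    rw [decide_eq_true_iff, r2]
  have h := hole_loc2 ρ ?_ ?_
  · rw [e1, e2, e3] at h
    exact h
  · intro k
    constructor
    · rintro ⟨a, b⟩
      rw [r2] at a
      rw [r0] at b
      exact b.2 (h0.2 v k a (Finset.mem_sdiff.mpr ⟨G.mem v _, b.1⟩))
    · rintro ⟨a, b⟩
      rw [r0] at a
      rw [r2] at b
      exact a.2 (h0.symm b (Finset.mem_sdiff.mpr ⟨G.mem v k, a.1⟩))
  · rw [e2]
    exact hA

theorem hole (hR : G.Red) (hP : G.Prm) {x y : ℕ} (ho : G.Out x y) {C : Finset ℕ}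
    (hC : C ⊆ G.L \ {x, y}) (h1 : G.Con C) :
    2 * C.card ≤ ∑ v, cap0 (G.pat C v) ∧
      (2 * C.card = ∑ v, cap0 (G.pat C v) → C = G.L \ {x, y} ∨ G.Port C) := by
  have hCL : C ⊆ G.L := hC.trans Finset.sdiff_subset
  have hxL : x ∈ G.L := by
    obtain ⟨v, k, h, _⟩ := ho
    exact h ▸ G.mem v k
  have hyL : y ∈ G.L := by
    obtain ⟨v, k, _, h⟩ := ho
    exact h ▸ G.mem v (k - 1)
  have hxC : x ∉ C := by
    intro h
    have := (Finset.mem_sdiff.mp (hC h)).2
    exact this (Finset.mem_insert_self _ _)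
  have hyC : y ∉ C := by
    intro h
    have := (Finset.mem_sdiff.mp (hC h)).2
    exact this (Finset.mem_insert_of_mem (Finset.mem_singleton_self _))
  obtain ⟨P₀, hxP, hP0⟩ := exists_comp G (Finset.mem_sdiff.mpr ⟨hxL, hxC⟩)
  have hyP : y ∈ P₀ := by
    obtain ⟨v, k, e1, e2⟩ := ho
    have := hP0.2.2 v k
    rw [e1, e2] at this
    exact this hxP (Finset.mem_sdiff.mpr ⟨hyL, hyC⟩)
  have hP0L : P₀ ⊆ G.L := hP0.2.1.trans Finset.sdiff_subset
  have hDcon : G.Con (G.L \ P₀) := co_con h1 hCL hP0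
  have hLD : G.L \ (G.L \ P₀) = P₀ := Finset.sdiff_sdiff_eq_self hP0L
  have hDL : G.L \ P₀ ⊆ G.L := Finset.sdiff_subset
  have hDc : G.Con (G.L \ (G.L \ P₀)) := by
    rw [hLD]
    exact hP0.1
  have hxD : x ∉ G.L \ P₀ := fun h => (Finset.mem_sdiff.mp h).2 hxP
  have hyD : y ∉ G.L \ P₀ := fun h => (Finset.mem_sdiff.mp h).2 hyP
  obtain ⟨hAlt, hDcard⟩ := both hDL hDcon hDc
  have hgD := cls_two hR ho hDL hxD hyD hDcon hDc
  have hcap : ∑ v, cap0 (G.pat C v) = ∑ v, loc (G.pat C v) + ∑ v, gg (G.pat C v) := by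
    rw [← Finset.sum_add_distrib]
    exact Finset.sum_congr rfl fun v _ => cap0_eq _
  have hcmp : ∑ v, gg (G.pat (G.L \ P₀) v) + ∑ v, (if Alt (G.pat C v) then 2 else 0) ≤
      ∑ v, gg (G.pat C v) := by
    rw [← Finset.sum_add_distrib]
    exact Finset.sum_le_sum fun v _ => Hole_cmp hP0.2 (hAlt v)
  by_cases hPP : G.L \ C = P₀
  · have hDC : G.L \ P₀ = C := by
      rw [← hPP]
      exact Finset.sdiff_sdiff_eq_self hCL
    rw [hDC] at hDcard hgD
    refine ⟨by omega, fun heq => ?_⟩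
    have hg2 : ∑ v, gg (G.pat C v) = 2 := by omega
    rw [hDC] at hDcon hDc
    rcases cls_eq hR hP ho hCL hxC hyC hDcon hDc hg2 with h | h
    · left
      rw [← h]
      exact (Finset.sdiff_sdiff_eq_self hCL).symm
    · exact Or.inr h
  · have hstrict : 2 * C.card < ∑ v, cap0 (G.pat C v) := by
      have hCss : C ⊂ G.L := by
        rw [Finset.ssubset_iff_subset_ne]
        exact ⟨hCL, fun h => hxC (h ▸ hxL)⟩
      have hrk := rank hCss h1
      by_cases hal : ∃ v, Alt (G.pat C v)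
      · obtain ⟨v, hv⟩ := hal
        have h2 : 2 ≤ ∑ v, (if Alt (G.pat C v) then 2 else 0) := by
          calc 2 = (if Alt (G.pat C v) then 2 else 0) := (if_pos hv).symm
            _ ≤ _ := Finset.single_le_sum (f := fun v => if Alt (G.pat C v) then 2 else 0)
                (fun i _ => Nat.zero_le _) (Finset.mem_univ v)
        omega
      · have hex : ∃ f, f ∈ G.L \ C ∧ f ∉ P₀ := by
          by_contra hcon
          push Not at hcon
          exact hPP (le_antisymm hcon hP0.2.1)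
        obtain ⟨f, hf1, hf2⟩ := hex
        obtain ⟨P₁, hfP, hP1⟩ := exists_comp G hf1
        have hxP1 : x ∉ P₁ := by
          intro h
          rw [comp_eq hP1 hP0 h hxP] at hfP
          exact hf2 hfP
        have hP1L : P₁ ⊆ G.L := hP1.2.1.trans Finset.sdiff_subset
        have hu := union_con h1 hCL hP1
        have huL : C ∪ P₁ ⊂ G.L := by
          rw [Finset.ssubset_iff_subset_ne]
          refine ⟨Finset.union_subset hCL hP1L, fun h => ?_⟩
          have : x ∈ C ∪ P₁ := h ▸ hxL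
          rcases Finset.mem_union.mp this with h | h
          · exact hxC h
          · exact hxP1 h
        have hrk2 := rank huL hu
        have hdj : Disjoint C P₁ := by
          rw [Finset.disjoint_left]
          intro g hg1 hg2
          exact (Finset.mem_sdiff.mp (hP1.2.1 hg2)).2 hg1
        rw [Finset.card_union_of_disjoint hdj] at hrk2
        have hb := (both hP1L hP1.1 (co_con h1 hCL hP1)).2
        have hl : ∑ v, loc (G.pat (C ∪ P₁) v) = ∑ v, loc (G.pat C v) + ∑ v, loc (G.pat P₁ v) := by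
          rw [← Finset.sum_add_distrib]
          exact Finset.sum_congr rfl fun v _ => Hole_add hP1.2 (fun h => hal ⟨v, h⟩)
        omega
    exact ⟨hstrict.le, fun h => absurd h hstrict.ne⟩

end Pool.Agent.H93.TR
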