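import Pool.Agent.H93.TR.Defs

/-!
# TR, Loc: local facts (patterns of the four corners of a vertex), by `decide`
-/

set_option autoImplicit false

namespace Pool.Agent.H93.TR
theorem hole_loc1 : ∀ ρ : Fin 4 → Fin 3,
    (∀ k, ¬ (ρ k = 2 ∧ ρ (k - 1) = 0) ∧ ¬ (ρ k = 0 ∧ ρ (k - 1) = 2)) →
    ¬ Alt (fun k => decide (ρ k ≠ 0)) →
    gg (fun k => decide (ρ k ≠ 0)) + (if Alt (fun k => decide (ρ k = 1)) then 2 else 0) ≤
      gg (fun k => decide (ρ k = 1)) := by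
  decide +kernel
theorem hole_loc2 : ∀ ρ : Fin 4 → Fin 3,
    (∀ k, ¬ (ρ k = 2 ∧ ρ (k - 1) = 0) ∧ ¬ (ρ k = 0 ∧ ρ (k - 1) = 2)) →
    ¬ Alt (fun k => decide (ρ k = 1)) →
    loc (fun k => decide (ρ k ≠ 0)) =
      loc (fun k => decide (ρ k = 1)) + loc (fun k => decide (ρ k = 2)) := by
  decide +kernel
theorem add_loc : ∀ ρ : Fin 4 → Fin 3,
    (∀ k, ¬ (ρ k = 1 ∧ ρ (k - 1) = 2) ∧ ¬ (ρ k = 2 ∧ ρ (k - 1) = 1)) →
    cap0 (fun k => decide (ρ k ≠ 0)) =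
      cap0 (fun k => decide (ρ k = 1)) + cap0 (fun k => decide (ρ k = 2)) := by
  decide +kernel
theorem loc_compl : ∀ b : Fin 4 → Bool, loc b + loc (fun k => !(b k)) = if Alt b then 0 else 2 := by
  decide
theorem loc_mod : ∀ b : Fin 4 → Bool, loc b % 2 = if Adj2 b then 1 else 0 := by decide
theorem loc_add : ∀ b : Fin 4 → Bool, loc b + 2 * (b 0 && b 1 && b 2 && b 3).toNat =
    ∑ k, (b k && b (k - 1)).toNat := by decide
theorem gg_le : ∀ b : Fin 4 → Bool, ¬ Alt b → gg b = if cnt b = 1 ∨ Adj2 b then 1 else 0 := by decide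
theorem gg_zero : ∀ b : Fin 4 → Bool, gg b = 0 → ∀ k, b k = false → b (k - 1) = false → cnt b = 0 := by decide
theorem cnt_one : ∀ b : Fin 4 → Bool, cnt b = 1 → ∀ k, b k = true → ∀ j, j ≠ k → b j = false := by decide
theorem cnt_pos : ∀ b : Fin 4 → Bool, cnt b ≠ 0 → ∃ k, b k = true := by decide
theorem cap_one : ∀ b : Fin 4 → Bool, cnt b = 1 → cap0 b = cap b → ∀ k, b k = true → k = 0 ∨ k = 2 := by decide
theorem adj2_ex : ∀ b : Fin 4 → Bool, Adj2 b → ∃ k, b k = true ∧ b (k + 1) = true ∧ b (k + 2) = false ∧ b (k + 3) = false := by decide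
end Pool.Agent.H93.TR
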