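import Pool.Agent.H63.CLK.H_Def

/-!
# Twist-reduced templates: positive solutions

`exists_match`: Hall's theorem (`Finset.all_card_le_biUnion_card_iff_exists_injective`) for the `2 c - 1` pairs `(f, i) ≠ (f₀, 0)`, `f ∈ F`,
`i : Fin 2`, and the triangles `(v, j) ≠ (v₀, j₀)` which touch the face `f`: a set `X` of pairs with the set `A` of faces has at least
`nt A - 1` neighbours; for `A ≠ F` this is `≥ 2 |A| ≥ |X|`, for `A = F` it is `2 c - 1 ≥ |X|` (every triangle touches `F`: `hopp`; if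
`nt` is smaller than `2 c` there is a contradiction). Together with `(f₀, 0) ↦ (v₀, j₀)` this is an injective map from the `2 c`
pairs to the `2 c` triangles, so a bijection; its inverse gives `M v j ∈ F`, every face of `F` is taken twice.

`exists_pos`: for a map `M` as in `exists_match` let `q v j k = 1/2` if `k ∈ triP j` and `cor v k = M v j`, otherwise `0` (exactly one
such `k`, since the corners of a triangle are different: `hd`). Take the average over the maps `M` for all `(v₀, j₀, k₀)` with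
`k₀ ∈ triP j₀`, `cor v₀ k₀ ∈ F`.
-/

set_option autoImplicit false

namespace Pool.Agent.H93.TR

open Pool.Agent.H63.CLK
open scoped BigOperators

/-- No two twist regions have the same two faces at their sides (otherwise they are twist equivalent). -/
def IsTwRed {c : ℕ} (cor : Fin c → Fin 4 → ℕ) : Prop :=
  ∀ v v' : Fin c, v ≠ v' → ¬ ((cor v 1 = cor v' 1 ∧ cor v 3 = cor v' 3) ∨
    (cor v 1 = cor v' 3 ∧ cor v 3 = cor v' 1))

/-- The corners of the two triangles at a vertex. -/
def triP : Fin 2 → Finset (Fin 4) := ![{2, 1, 3}, {0, 1, 3}]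

open Classical in
/-- The number of the triangles which touch `A`. -/
noncomputable def nt {c : ℕ} (cor : Fin c → Fin 4 → ℕ) (A : Finset ℕ) : ℕ :=
  ∑ v : Fin c, ∑ j : Fin 2, if ∃ k ∈ triP j, cor v k ∈ A then 1 else 0


variable {c : ℕ} {F : Finset ℕ} {cor : Fin c → Fin 4 → ℕ}

open Classical in
/-- The triangles which touch `A`. -/
private noncomputable def Pos_T (cor : Fin c → Fin 4 → ℕ) (A : Finset ℕ) : Finset (Fin c × Fin 2) :=
  Finset.univ.filter (fun p => ∃ k ∈ triP p.2, cor p.1 k ∈ A)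

private theorem Pos_nt (A : Finset ℕ) : nt cor A = (Pos_T cor A).card := by
  unfold nt Pos_T
  rw [Finset.card_filter, Fintype.sum_prod_type]

private theorem Pos_tri1 (j : Fin 2) : (1 : Fin 4) ∈ triP j := by
  fin_cases j <;> simp [triP]

private theorem Pos_tri3 (j : Fin 2) : (3 : Fin 4) ∈ triP j := by
  fin_cases j <;> simp [triP]

private theorem Pos_TF (hopp : ∀ v, cor v 1 ∈ F ∨ cor v 3 ∈ F) : Pos_T cor F = Finset.univ := by
  unfold Pos_T
  rw [Finset.filter_eq_self]
  intro p _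
  rcases hopp p.1 with h | h
  · exact ⟨1, Pos_tri1 _, h⟩
  · exact ⟨3, Pos_tri3 _, h⟩

open Classical in
theorem exists_match (hF : F.card = c) (hopp : ∀ v, cor v 1 ∈ F ∨ cor v 3 ∈ F)
    (hH : ∀ A ⊆ F, A.Nonempty → A ≠ F → 2 * A.card < nt cor A) (v₀ : Fin c) (j₀ : Fin 2)
    (k₀ : Fin 4) (hk : k₀ ∈ triP j₀) (hf : cor v₀ k₀ ∈ F) :
    ∃ M : Fin c → Fin 2 → ℕ, M v₀ j₀ = cor v₀ k₀ ∧
      (∀ v j, M v j ∈ F ∧ ∃ k ∈ triP j, cor v k = M v j) ∧
      ∀ f ∈ F, (Finset.univ.filter (fun p : Fin c × Fin 2 => M p.1 p.2 = f)).card = 2 := by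
  set x₀ : ↥F × Fin 2 := (⟨cor v₀ k₀, hf⟩, 0) with hx₀
  set t : ↥F × Fin 2 → Finset (Fin c × Fin 2) := fun x =>
    if x = x₀ then {(v₀, j₀)} else
      (Finset.univ.filter (fun p : Fin c × Fin 2 => ∃ k ∈ triP p.2, cor p.1 k = x.1)).erase (v₀, j₀)
    with ht
  have ht0 : t x₀ = {(v₀, j₀)} := by rw [ht]; simp
  have ht1 : ∀ x, x ≠ x₀ → t x =
      (Finset.univ.filter (fun p : Fin c × Fin 2 => ∃ k ∈ triP p.2, cor p.1 k = x.1)).erase (v₀, j₀) := by
    intro x hx
    rw [ht]
    simp only [if_neg hx]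
  have hcardT : Fintype.card (Fin c × Fin 2) = 2 * c := by
    rw [Fintype.card_prod, Fintype.card_fin, Fintype.card_fin, mul_comm]
  have hcardX : Fintype.card (↥F × Fin 2) = 2 * c := by
    rw [Fintype.card_prod, Fintype.card_coe, hF, Fintype.card_fin, mul_comm]
  -- Hall's condition without `x₀`
  have hall0 : ∀ s : Finset (↥F × Fin 2), x₀ ∉ s →
      s.card ≤ (s.biUnion t).card ∧ (v₀, j₀) ∉ s.biUnion t := by
    intro s hs
    set A : Finset ℕ := s.image (fun x => (x.1 : ℕ)) with hA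
    have hAF : A ⊆ F := by
      intro f hf'
      rw [hA, Finset.mem_image] at hf'
      obtain ⟨x, _, rfl⟩ := hf'
      exact x.1.2
    have hbi : s.biUnion t = (Pos_T cor A).erase (v₀, j₀) := by
      ext p
      rw [Finset.mem_biUnion, Finset.mem_erase, Pos_T, Finset.mem_filter]
      constructor
      · rintro ⟨x, hx, hp⟩
        rw [ht1 x (fun e => hs (e ▸ hx)), Finset.mem_erase, Finset.mem_filter] at hp
        obtain ⟨hp0, _, k, hk1, hk2⟩ := hp
        refine ⟨hp0, Finset.mem_univ _, k, hk1, ?_⟩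
        rw [hk2, hA]
        exact Finset.mem_image_of_mem _ hx
      · rintro ⟨hp0, _, k, hk1, hk2⟩
        rw [hA, Finset.mem_image] at hk2
        obtain ⟨x, hx, hxk⟩ := hk2
        refine ⟨x, hx, ?_⟩
        rw [ht1 x (fun e => hs (e ▸ hx)), Finset.mem_erase, Finset.mem_filter]
        exact ⟨hp0, Finset.mem_univ _, k, hk1, hxk.symm⟩
    refine ⟨?_, by rw [hbi]; exact Finset.notMem_erase _ _⟩
    rcases s.eq_empty_or_nonempty with hse | hse
    · rw [hse]; simp
    have hAne : A.Nonempty := hse.image _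
    have hle : (Pos_T cor A).card - 1 ≤ (s.biUnion t).card := by
      rw [hbi]
      exact Finset.pred_card_le_card_erase
    by_cases hAF' : A = F
    · have h1 : (Pos_T cor A).card = 2 * c := by
        rw [hAF', Pos_TF hopp, Finset.card_univ, hcardT]
      have h2 : s.card ≤ 2 * c - 1 := by
        have h3 : s ⊆ Finset.univ.erase x₀ := fun x hx =>
          Finset.mem_erase.mpr ⟨fun e => hs (e ▸ hx), Finset.mem_univ _⟩
        have h4 := Finset.card_le_card h3
        rwa [Finset.card_erase_of_mem (Finset.mem_univ _), Finset.card_univ, hcardX] at h4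
      omega
    · have h1 := hH A hAF hAne hAF'
      rw [Pos_nt] at h1
      have h2 : s.card ≤ 2 * A.card := by
        rw [hA]
        refine Finset.card_le_mul_card_image s 2 fun a _ => ?_
        have h3 : (s.filter (fun x => (x.1 : ℕ) = a)).card ≤ (Finset.univ : Finset (Fin 2)).card := by
          refine Finset.card_le_card_of_injOn (fun x => x.2) (fun x _ => Finset.mem_univ _) ?_
          intro x hx y hy hxy
          rw [Finset.mem_coe, Finset.mem_filter] at hx hy
          exact Prod.ext (Subtype.ext (hx.2.trans hy.2.symm)) hxy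
        simpa using h3
      omega
  have hall : ∀ s : Finset (↥F × Fin 2), s.card ≤ (s.biUnion t).card := by
    intro s
    by_cases hs : x₀ ∈ s
    · have h1 := hall0 (s.erase x₀) (Finset.notMem_erase _ _)
      have h2 : s.biUnion t = insert (v₀, j₀) ((s.erase x₀).biUnion t) := by
        conv_lhs => rw [← Finset.insert_erase hs]
        rw [Finset.biUnion_insert, ht0]
        rfl
      rw [h2, Finset.card_insert_of_notMem h1.2]
      have h3 := Finset.card_erase_of_mem hs
      omega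
    · exact (hall0 s hs).1
  obtain ⟨G, hG1, hG2⟩ := (Finset.all_card_le_biUnion_card_iff_exists_injective t).mp hall
  have hGb : Function.Bijective G :=
    (Fintype.bijective_iff_injective_and_card G).mpr ⟨hG1, by rw [hcardX, hcardT]⟩
  set E : ↥F × Fin 2 ≃ Fin c × Fin 2 := Equiv.ofBijective G hGb with hE
  have hEG : ∀ x, E x = G x := fun x => rfl
  have hG0 : G x₀ = (v₀, j₀) := by
    have := hG2 x₀
    rwa [ht0, Finset.mem_singleton] at this
  refine ⟨fun v j => ((E.symm (v, j)).1 : ℕ), ?_, ?_, ?_⟩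
  · have h1 : E.symm (v₀, j₀) = x₀ := by
      rw [Equiv.symm_apply_eq, hEG, hG0]
    show ((E.symm (v₀, j₀)).1 : ℕ) = _
    rw [h1]
  · intro v j
    refine ⟨(E.symm (v, j)).1.2, ?_⟩
    show ∃ k ∈ triP j, cor v k = ((E.symm (v, j)).1 : ℕ)
    set x := E.symm (v, j) with hx
    have h1 : G x = (v, j) := by
      rw [← hEG, hx, Equiv.apply_symm_apply]
    by_cases h2 : x = x₀
    · rw [h2, hG0] at h1
      have h3 : v₀ = v := congrArg Prod.fst h1
      have h4 : j₀ = j := congrArg Prod.snd h1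
      rw [h2]
      subst h3
      subst h4
      exact ⟨k₀, hk, rfl⟩
    · have h3 := hG2 x
      rw [ht1 x h2, h1, Finset.mem_erase, Finset.mem_filter] at h3
      exact h3.2.2
  · intro f hf'
    have h1 : (Finset.univ.filter (fun p : Fin c × Fin 2 => ((E.symm (p.1, p.2)).1 : ℕ) = f)) =
        ((Finset.univ.filter (fun x : ↥F × Fin 2 => x.1 = ⟨f, hf'⟩)).map E.toEmbedding) := by
      ext p
      rw [Finset.mem_filter, Finset.mem_map]
      constructor
      · rintro ⟨_, h⟩
        refine ⟨E.symm p, ?_, ?_⟩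
        · rw [Finset.mem_filter]
          exact ⟨Finset.mem_univ _, Subtype.ext h⟩
        · exact E.apply_symm_apply p
      · rintro ⟨x, hx, rfl⟩
        rw [Finset.mem_filter] at hx
        refine ⟨Finset.mem_univ _, ?_⟩
        have : E.symm ((E.toEmbedding x).1, (E.toEmbedding x).2) = x := E.symm_apply_apply x
        rw [this, hx.2]
    have h2 : (Finset.univ.filter (fun x : ↥F × Fin 2 => x.1 = ⟨f, hf'⟩)) =
        ({⟨f, hf'⟩} : Finset ↥F) ×ˢ (Finset.univ : Finset (Fin 2)) := by
      ext x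
      rw [Finset.mem_filter, Finset.mem_product, Finset.mem_singleton]
      exact ⟨fun h => ⟨h.2, Finset.mem_univ _⟩, fun h => ⟨Finset.mem_univ _, h.1⟩⟩
    rw [h1, Finset.card_map, h2, Finset.card_product, Finset.card_singleton, Finset.card_univ,
      Fintype.card_fin]

/-- Weak solutions. -/
private def Pos_W (F : Finset ℕ) (cor : Fin c → Fin 4 → ℕ) (q : Fin c → Fin 2 → Fin 4 → ℝ) : Prop :=
  (∀ v j k, 0 ≤ q v j k) ∧ (∀ v j k, ¬ (k ∈ triP j ∧ cor v k ∈ F) → q v j k = 0) ∧
    (∀ v j, ∑ k, q v j k = 1 / 2) ∧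
    ∀ f ∈ F, ∑ v, ∑ j, ∑ k, (if cor v k = f then q v j k else 0) = 1

private theorem Pos_weak (hd : ∀ (v : Fin c) (j : Fin 2), ∀ k ∈ triP j, ∀ l ∈ triP j, cor v k = cor v l → k = l)
    (M : Fin c → Fin 2 → ℕ) (h1 : ∀ v j, M v j ∈ F ∧ ∃ k ∈ triP j, cor v k = M v j)
    (h2 : ∀ f ∈ F, (Finset.univ.filter (fun p : Fin c × Fin 2 => M p.1 p.2 = f)).card = 2) :
    Pos_W F cor (fun v j k => if k ∈ triP j ∧ cor v k = M v j then 1 / 2 else 0) := by
  refine ⟨?_, ?_, ?_, ?_⟩
  · intro v j k
    by_cases h : k ∈ triP j ∧ cor v k = M v j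
    · simp only [if_pos h]; norm_num
    · simp only [if_neg h]; exact le_rfl
  · intro v j k hk
    refine if_neg fun h => hk ⟨h.1, ?_⟩
    rw [h.2]
    exact (h1 v j).1
  · intro v j
    obtain ⟨k, hk1, hk2⟩ := (h1 v j).2
    rw [Finset.sum_eq_single k]
    · exact if_pos ⟨hk1, hk2⟩
    · intro l _ hl
      exact if_neg fun h => hl (hd v j l h.1 k hk1 (h.2.trans hk2.symm))
    · intro h
      exact absurd (Finset.mem_univ _) h
  · intro f hf
    have h3 : ∀ (v : Fin c) (j : Fin 2), ∑ k, (if cor v k = f then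
        (if k ∈ triP j ∧ cor v k = M v j then (1 : ℝ) / 2 else 0) else 0) =
        if M v j = f then 1 / 2 else 0 := by
      intro v j
      obtain ⟨k, hk1, hk2⟩ := (h1 v j).2
      rw [Finset.sum_eq_single k]
      · rw [hk2]
        by_cases h : M v j = f
        · rw [if_pos h, if_pos h, if_pos ⟨hk1, rfl⟩]
        · rw [if_neg h, if_neg h]
      · intro l _ hl
        by_cases h : cor v l = f
        · rw [if_pos h]
          exact if_neg fun h' => hl (hd v j l h'.1 k hk1 (h'.2.trans hk2.symm))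
        · exact if_neg h
      · intro h
        exact absurd (Finset.mem_univ _) h
    have h4 : ∑ v : Fin c, ∑ j : Fin 2, (if M v j = f then (1 : ℝ) / 2 else 0) =
        ∑ p : Fin c × Fin 2, (if M p.1 p.2 = f then (1 : ℝ) / 2 else 0) := by
      rw [Fintype.sum_prod_type]
    calc _ = ∑ v : Fin c, ∑ j : Fin 2, (if M v j = f then (1 : ℝ) / 2 else 0) :=
          Finset.sum_congr rfl fun v _ => Finset.sum_congr rfl fun j _ => h3 v j
      _ = 1 := by
          rw [h4, ← Finset.sum_filter, Finset.sum_const, h2 f hf]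
          norm_num

theorem exists_pos (hF : F.card = c) (hopp : ∀ v, cor v 1 ∈ F ∨ cor v 3 ∈ F)
    (hd : ∀ (v : Fin c) (j : Fin 2), ∀ k ∈ triP j, ∀ l ∈ triP j, cor v k = cor v l → k = l)
    (hH : ∀ A ⊆ F, A.Nonempty → A ≠ F → 2 * A.card < nt cor A) :
    ∃ q : Fin c → Fin 2 → Fin 4 → ℝ, (∀ v j k, 0 ≤ q v j k) ∧
      (∀ v j k, ¬ (k ∈ triP j ∧ cor v k ∈ F) → q v j k = 0) ∧
      (∀ v j k, k ∈ triP j → cor v k ∈ F → 0 < q v j k) ∧ (∀ v j, ∑ k, q v j k = 1 / 2) ∧
      ∀ f ∈ F, ∑ v, ∑ j, ∑ k, (if cor v k = f then q v j k else 0) = 1 := by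
  classical
  set ι : Type := {t : Fin c × Fin 2 × Fin 4 // t.2.2 ∈ triP t.2.1 ∧ cor t.1 t.2.2 ∈ F} with hι
  have hex : ∀ i : ι, ∃ q : Fin c → Fin 2 → Fin 4 → ℝ, Pos_W F cor q ∧
      0 < q i.1.1 i.1.2.1 i.1.2.2 := by
    intro i
    obtain ⟨M, hM1, hM2, hM3⟩ := exists_match hF hopp hH i.1.1 i.1.2.1 i.1.2.2 i.2.1 i.2.2
    refine ⟨_, Pos_weak hd M hM2 ?_, ?_⟩
    · intro f hf
      convert hM3 f hf
    · rw [if_pos ⟨i.2.1, hM1.symm⟩]
      norm_num
  choose Q hQ1 hQ2 using hex
  by_cases hne : Nonempty ι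
  swap
  · -- then `c = 0`
    have hc : ∀ v : Fin c, False := by
      intro v
      apply hne
      rcases hopp v with h | h
      · exact ⟨⟨(v, 0, 1), Pos_tri1 0, h⟩⟩
      · exact ⟨⟨(v, 0, 3), Pos_tri3 0, h⟩⟩
    refine ⟨fun _ _ _ => 0, fun v => (hc v).elim, fun v => (hc v).elim, fun v => (hc v).elim,
      fun v => (hc v).elim, ?_⟩
    intro f hf
    exfalso
    have h1 : 0 < F.card := Finset.card_pos.mpr ⟨f, hf⟩
    rw [hF] at h1
    exact hc ⟨0, h1⟩
  · set n : ℝ := (Fintype.card ι : ℝ) with hn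
    have hn0 : 0 < n := by
      rw [hn]
      exact_mod_cast Fintype.card_pos
    refine ⟨fun v j k => (∑ i : ι, Q i v j k) / n, ?_, ?_, ?_, ?_, ?_⟩
    · intro v j k
      exact div_nonneg (Finset.sum_nonneg fun i _ => (hQ1 i).1 v j k) hn0.le
    · intro v j k hk
      simp only
      rw [Finset.sum_eq_zero fun i _ => (hQ1 i).2.1 v j k hk, zero_div]
    · intro v j k hk hf
      refine div_pos ?_ hn0
      refine Finset.sum_pos' (fun i _ => (hQ1 i).1 v j k) ⟨⟨(v, j, k), hk, hf⟩, Finset.mem_univ _, ?_⟩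
      exact hQ2 ⟨(v, j, k), hk, hf⟩
    · intro v j
      rw [← Finset.sum_div, Finset.sum_comm, Finset.sum_congr rfl fun i _ => (hQ1 i).2.2.1 v j,
        Finset.sum_const, nsmul_eq_mul, Finset.card_univ, ← hn]
      field_simp
    · intro f hf
      have h1 : ∀ (v : Fin c) (j : Fin 2) (k : Fin 4),
          (if cor v k = f then (∑ i : ι, Q i v j k) / n else 0) =
          (∑ i : ι, (if cor v k = f then Q i v j k else 0)) / n := by
        intro v j k
        by_cases h : cor v k = f
        · simp only [if_pos h]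
        · simp only [if_neg h, Finset.sum_const_zero, zero_div]
      have h2 : ∑ v : Fin c, ∑ j : Fin 2, ∑ k : Fin 4,
          (if cor v k = f then (∑ i : ι, Q i v j k) / n else 0) =
          (∑ i : ι, ∑ v : Fin c, ∑ j : Fin 2, ∑ k : Fin 4, (if cor v k = f then Q i v j k else 0)) / n := by
        rw [Finset.sum_congr rfl fun v _ => Finset.sum_congr rfl fun j _ =>
          Finset.sum_congr rfl fun k _ => h1 v j k]
        rw [Finset.sum_comm (s := (Finset.univ : Finset ι)), Finset.sum_div]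
        refine Finset.sum_congr rfl fun v _ => ?_
        rw [Finset.sum_comm (s := (Finset.univ : Finset ι)), Finset.sum_div]
        refine Finset.sum_congr rfl fun j _ => ?_
        rw [Finset.sum_comm (s := (Finset.univ : Finset ι)), Finset.sum_div]
      rw [h2, Finset.sum_congr rfl fun i _ => (hQ1 i).2.2.2 f hf, Finset.sum_const, nsmul_eq_mul,
        Finset.card_univ, ← hn, mul_one, div_self hn0.ne']

end Pool.Agent.H93.TR
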