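import Pool.Agent.H93.TR.Loc

/-!
# TR, Rank: the rank inequality

`Q` connected, `Q ≠ L`: `2 |Q| ≤ 2 + ∑ loc`. Linear algebra over `ℝ`. Let `S = {v | all corners of v are in Q}` and let `E` be the set of the ends `p = (v, k)` with
`cor v k ∈ Q`, `cor v (k-1) ∈ Q`; `E` is closed under `mt`, and `∑ v, loc (pat Q v) + 2 |S| = |E|` (at every vertex; `Finset.card_filter`, `Fintype.sum_prod_type`;
`loc b + 2 * all = ∑ k, ..` by `decide`). Let `O ⊆ E` be the set of the `p ∈ E` with `p < mt p` for a linear order on `Fin c × Fin 4` (use the map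
`p ↦ 4 * p.1 + p.2 : ℕ`, which is injective; or `finProdFinEquiv`), so `2 |O| = |E|` (`mt` is a bijection from `O` to `E \ O`, since `mt p ≠ p`).
Take `f0 ∈ Q`. The linear map `Φ : (↥(Q.erase f0) → ℝ) × (↥S → ℝ) → (↥O → ℝ)`,
`Φ (x, y) p = (x~ (cor p.1 p.2) - x~ (cor p.1 (p.2 - 1))) + (y~ p.1 - y~ (mt p).1)`
(`x~`, `y~` the extensions by `0`) is injective: let `a p = x~ (cor p.1 p.2) - x~ (cor p.1 (p.2 - 1))`, `b p = y~ p.1 - y~ (mt p).1` for all ends `p`. Both are antisymmetric: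
`a (mt p) = - a p` (`G.face p`, and `G.face (mt p)` with `G.inv`), `b (mt p) = - b p`. If `Φ (x, y) = 0`, then `a p + b p = 0` for all `p ∈ E`
(for `p ∈ O`, and for `mt p` with `p ∈ O`). `b p = 0` for `p ∉ E`: if `p.1 ∈ S` then `p ∈ E`; if `(mt p).1 ∈ S` then `mt p ∈ E`, so `p ∈ E`.
Hence `∑ p, b p ^ 2 = - ∑ p ∈ E, a p * b p = - ∑ p, a p * b p`, and `∑ p, a p * b p = ∑ p, a p * y~ p.1 - ∑ p, a p * y~ (mt p).1 = 2 ∑ p, a p * y~ p.1`
(reindex by `mt`: `Equiv.sum_comp`, or `Finset.sum_bij'`), `= 2 ∑ v, y~ v * ∑ k, a (v, k) = 0` since `∑ k, (z k - z (k - 1)) = 0` over `Fin 4`. So `b = 0`, i.e.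
`y~` has the same value at the two ends of every edge, so it is constant by `G.conn` (`P v := y~ v = y~ v₀`); there is a vertex not in `S` (otherwise all faces are in
`Q` by `G.surj`, but `Q ≠ L`), so `y~ = 0`. Then `a p = 0` for all `p ∈ E`, and the set `A` of the `f ∈ Q` with `x~ f = x~ f0 = 0` is nonempty with `Cl Q A`, so `A = Q`: `x = 0`.
So `|Q| - 1 + |S| ≤ |O|` (`LinearMap.finrank_le_finrank_of_injective`, `Module.finrank_prod`, `Module.finrank_fintype_fun_eq_card`).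
-/

set_option autoImplicit false

namespace Pool.Agent.H93.TR

variable {c : ℕ} {G : PG c}

private theorem Rank_face' (G : PG c) (p : Fin c × Fin 4) :
    G.cor (G.mt p).1 ((G.mt p).2 - 1) = G.cor p.1 p.2 := by
  have h := G.face (G.mt p)
  rw [G.inv] at h
  exact h.symm

/-- the ends of the edges with both sides in `Q` -/
private def Rank_E (G : PG c) (Q : Finset ℕ) : Finset (Fin c × Fin 4) :=
  Finset.univ.filter fun p => G.cor p.1 p.2 ∈ Q ∧ G.cor p.1 (p.2 - 1) ∈ Q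

private theorem Rank_mem_E {Q : Finset ℕ} {p : Fin c × Fin 4} :
    p ∈ Rank_E G Q ↔ G.cor p.1 p.2 ∈ Q ∧ G.cor p.1 (p.2 - 1) ∈ Q := by
  unfold Rank_E
  rw [Finset.mem_filter]
  exact ⟨fun h => h.2, fun h => ⟨Finset.mem_univ _, h⟩⟩

private theorem Rank_mt_E {Q : Finset ℕ} {p : Fin c × Fin 4} : G.mt p ∈ Rank_E G Q ↔ p ∈ Rank_E G Q := by
  rw [Rank_mem_E, Rank_mem_E, G.face, Rank_face']
  exact and_comm

/-- the vertices with all corners in `Q` -/
private def Rank_S (G : PG c) (Q : Finset ℕ) : Finset (Fin c) :=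
  Finset.univ.filter fun v => ∀ k, G.cor v k ∈ Q

private theorem Rank_mem_S {Q : Finset ℕ} {v : Fin c} : v ∈ Rank_S G Q ↔ ∀ k, G.cor v k ∈ Q := by
  unfold Rank_S
  rw [Finset.mem_filter]
  exact ⟨fun h => h.2, fun h => ⟨Finset.mem_univ _, h⟩⟩

private def Rank_key (p : Fin c × Fin 4) : ℕ := 4 * p.1.val + p.2.val

private theorem Rank_key_inj {p q : Fin c × Fin 4} (h : Rank_key p = Rank_key q) : p = q := by
  unfold Rank_key at h
  have h1 := p.2.isLt
  have h2 := q.2.isLt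
  refine Prod.ext (Fin.ext ?_) (Fin.ext ?_) <;> omega

/-- one end of every edge of `E` -/
private def Rank_O (G : PG c) (Q : Finset ℕ) : Finset (Fin c × Fin 4) :=
  (Rank_E G Q).filter fun p => Rank_key p < Rank_key (G.mt p)

private theorem Rank_or {Q : Finset ℕ} {p : Fin c × Fin 4} (hp : p ∈ Rank_E G Q) :
    p ∈ Rank_O G Q ∨ G.mt p ∈ Rank_O G Q := by
  unfold Rank_O
  rw [Finset.mem_filter, Finset.mem_filter, Rank_mt_E, G.inv]
  rcases lt_trichotomy (Rank_key p) (Rank_key (G.mt p)) with h | h | h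
  · exact Or.inl ⟨hp, h⟩
  · exact absurd (Rank_key_inj h).symm (G.ne p)
  · exact Or.inr ⟨hp, h⟩

private theorem Rank_card_O (G : PG c) (Q : Finset ℕ) : 2 * (Rank_O G Q).card = (Rank_E G Q).card := by
  have h1 := Finset.card_filter_add_card_filter_not (s := Rank_E G Q) (fun p => Rank_key p < Rank_key (G.mt p))
  have h2 : ((Rank_E G Q).filter fun p => ¬ Rank_key p < Rank_key (G.mt p)).card = (Rank_O G Q).card := by
    refine Finset.card_bij' (fun p _ => G.mt p) (fun p _ => G.mt p) (fun p hp => ?_) (fun p hp => ?_)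
      (fun p _ => G.inv p) (fun p _ => G.inv p)
    · rw [Finset.mem_filter] at hp
      rcases Rank_or hp.1 with h | h
      · unfold Rank_O at h
        rw [Finset.mem_filter] at h
        exact absurd h.2 hp.2
      · exact h
    · unfold Rank_O at hp
      rw [Finset.mem_filter] at hp ⊢
      rw [Rank_mt_E, G.inv]
      exact ⟨hp.1, not_lt.2 hp.2.le⟩
  unfold Rank_O at h2 ⊢
  omega

private theorem Rank_count (G : PG c) (Q : Finset ℕ) :
    ∑ v, loc (G.pat Q v) + 2 * (Rank_S G Q).card = (Rank_E G Q).card := by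
  have h1 : (Rank_S G Q).card = ∑ v : Fin c, (G.pat Q v 0 && G.pat Q v 1 && G.pat Q v 2 && G.pat Q v 3).toNat := by
    unfold Rank_S
    rw [Finset.card_filter]
    refine Finset.sum_congr rfl fun v _ => ?_
    have h2 : (∀ k, G.cor v k ∈ Q) ↔ (G.pat Q v 0 && G.pat Q v 1 && G.pat Q v 2 && G.pat Q v 3) = true := by
      rw [Fin.forall_fin_succ, Fin.forall_fin_succ, Fin.forall_fin_succ, Fin.forall_fin_succ]
      simp only [Bool.and_eq_true, PG.pat_eq]
      constructor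
      · rintro ⟨a, b, d, e, _⟩
        exact ⟨⟨⟨a, b⟩, d⟩, e⟩
      · rintro ⟨⟨⟨a, b⟩, d⟩, e⟩
        exact ⟨a, b, d, e, fun i => i.elim0⟩
    by_cases h3 : ∀ k, G.cor v k ∈ Q
    · rw [if_pos h3, h2.1 h3]
      rfl
    · rw [if_neg h3]
      have h4 : (G.pat Q v 0 && G.pat Q v 1 && G.pat Q v 2 && G.pat Q v 3) = false := by
        rw [← Bool.not_eq_true]
        exact fun h => h3 (h2.2 h)
      rw [h4]
      rfl
  have h5 : (Rank_E G Q).card = ∑ v : Fin c, ∑ k : Fin 4, (G.pat Q v k && G.pat Q v (k - 1)).toNat := by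
    unfold Rank_E
    rw [Finset.card_filter, Fintype.sum_prod_type]
    refine Finset.sum_congr rfl fun v _ => Finset.sum_congr rfl fun k _ => ?_
    have h2 : (G.cor v k ∈ Q ∧ G.cor v (k - 1) ∈ Q) ↔ (G.pat Q v k && G.pat Q v (k - 1)) = true := by
      simp only [Bool.and_eq_true, PG.pat_eq]
    by_cases h3 : G.cor v k ∈ Q ∧ G.cor v (k - 1) ∈ Q
    · rw [if_pos h3, h2.1 h3]
      rfl
    · rw [if_neg h3]
      have h4 : (G.pat Q v k && G.pat Q v (k - 1)) = false := by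
        rw [← Bool.not_eq_true]
        exact fun h => h3 (h2.2 h)
      rw [h4]
      rfl
  rw [h1, h5, Finset.mul_sum, ← Finset.sum_add_distrib]
  exact Finset.sum_congr rfl fun v _ => loc_add _

/-- the linear algebra: a potential on the faces of `Q` plus a potential on the vertices of `S` -/
private theorem Rank_core {Q : Finset ℕ} (hQ : Q ⊂ G.L) (hc : G.Con Q) (X : ℕ → ℝ) (Y : Fin c → ℝ)
    (hY : ∀ v, v ∉ Rank_S G Q → Y v = 0) {f0 : ℕ} (hf0 : f0 ∈ Q) (hX0 : X f0 = 0)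
    (h : ∀ p ∈ Rank_E G Q, (X (G.cor p.1 p.2) - X (G.cor p.1 (p.2 - 1))) + (Y p.1 - Y (G.mt p).1) = 0) :
    (∀ f ∈ Q, X f = 0) ∧ ∀ v, Y v = 0 := by
  have hb0 : ∀ p, p ∉ Rank_E G Q → Y p.1 - Y (G.mt p).1 = 0 := by
    intro p hp
    have h1 : Y p.1 = 0 := by
      refine hY _ fun h1 => hp ?_
      rw [Rank_mem_S] at h1
      exact Rank_mem_E.2 ⟨h1 _, h1 _⟩
    have h2 : Y (G.mt p).1 = 0 := by
      refine hY _ fun h1 => hp ?_
      rw [Rank_mem_S] at h1
      exact Rank_mt_E.1 (Rank_mem_E.2 ⟨h1 _, h1 _⟩)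
    rw [h1, h2, sub_zero]
  have hsq : ∀ p, (Y p.1 - Y (G.mt p).1) ^ 2 =
      - ((X (G.cor p.1 p.2) - X (G.cor p.1 (p.2 - 1))) * Y p.1) +
        (X (G.cor p.1 p.2) - X (G.cor p.1 (p.2 - 1))) * Y (G.mt p).1 := by
    intro p
    by_cases hp : p ∈ Rank_E G Q
    · have h1 := h p hp
      have h2 : Y p.1 - Y (G.mt p).1 = -(X (G.cor p.1 p.2) - X (G.cor p.1 (p.2 - 1))) := by linarith
      have h3 : (Y p.1 - Y (G.mt p).1) ^ 2 =
        (Y p.1 - Y (G.mt p).1) * (-(X (G.cor p.1 p.2) - X (G.cor p.1 (p.2 - 1)))) := by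
        rw [← h2, sq]
      rw [h3]
      ring
    · have h1 := hb0 p hp
      have h2 : - ((X (G.cor p.1 p.2) - X (G.cor p.1 (p.2 - 1))) * Y p.1) +
        (X (G.cor p.1 p.2) - X (G.cor p.1 (p.2 - 1))) * Y (G.mt p).1 =
          -(X (G.cor p.1 p.2) - X (G.cor p.1 (p.2 - 1))) * (Y p.1 - Y (G.mt p).1) := by ring
      rw [h2, h1]
      ring
  have hs1 : ∑ p : Fin c × Fin 4, (X (G.cor p.1 p.2) - X (G.cor p.1 (p.2 - 1))) * Y p.1 = 0 := by
    rw [Fintype.sum_prod_type]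
    refine Finset.sum_eq_zero fun v _ => ?_
    change ∑ k : Fin 4, (X (G.cor v k) - X (G.cor v (k - 1))) * Y v = 0
    rw [← Finset.sum_mul, Finset.sum_sub_distrib]
    have h1 : ∑ k : Fin 4, X (G.cor v (k - 1)) = ∑ k : Fin 4, X (G.cor v k) :=
      Equiv.sum_comp (Equiv.subRight (1 : Fin 4)) fun k => X (G.cor v k)
    rw [h1, sub_self, zero_mul]
  have hs2 : ∑ p : Fin c × Fin 4, (X (G.cor p.1 p.2) - X (G.cor p.1 (p.2 - 1))) * Y (G.mt p).1 = 0 := by
    have h1 : ∑ p : Fin c × Fin 4, (X (G.cor p.1 p.2) - X (G.cor p.1 (p.2 - 1))) * Y (G.mt p).1 =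
        ∑ p : Fin c × Fin 4, -((X (G.cor p.1 p.2) - X (G.cor p.1 (p.2 - 1))) * Y p.1) := by
      refine Finset.sum_bij' (fun p _ => G.mt p) (fun p _ => G.mt p) (fun p _ => Finset.mem_univ _)
        (fun p _ => Finset.mem_univ _) (fun p _ => G.inv p) (fun p _ => G.inv p) fun p _ => ?_
      rw [G.face, Rank_face']
      ring
    rw [h1, Finset.sum_neg_distrib, hs1, neg_zero]
  have hs3 : ∑ p : Fin c × Fin 4, (Y p.1 - Y (G.mt p).1) ^ 2 = 0 := by
    rw [Finset.sum_congr rfl fun p _ => hsq p, Finset.sum_add_distrib, Finset.sum_neg_distrib, hs1, hs2]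
    norm_num
  have hb : ∀ p, Y p.1 - Y (G.mt p).1 = 0 := by
    intro p
    have h1 := (Finset.sum_eq_zero_iff_of_nonneg fun p _ => sq_nonneg _).1 hs3 p (Finset.mem_univ _)
    exact pow_eq_zero_iff (two_ne_zero) |>.1 h1
  have hY0 : ∀ v, Y v = 0 := by
    obtain ⟨f, hf, hfQ⟩ := Finset.exists_of_ssubset hQ
    obtain ⟨v0, k, hk⟩ := G.surj f hf
    have h1 : Y v0 = 0 := by
      refine hY _ fun h1 => hfQ ?_
      rw [← hk]
      exact Rank_mem_S.1 h1 k
    intro v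
    refine G.conn (fun v => Y v = 0) (fun p hp => ?_) v0 v h1
    have h2 := hb p
    change Y (G.mt p).1 = 0
    change Y p.1 = 0 at hp
    linarith
  refine ⟨?_, hY0⟩
  have hA : G.Cl Q (Q.filter fun f => X f = 0) := by
    refine ⟨Finset.filter_subset _ _, fun v k h1 h2 => ?_⟩
    rw [Finset.mem_filter] at h1 ⊢
    refine ⟨h2, ?_⟩
    have h3 := h (v, k) (Rank_mem_E.2 ⟨h1.1, h2⟩)
    rw [hY0, hY0] at h3
    change X (G.cor v k) - X (G.cor v (k - 1)) + (0 - 0) = 0 at h3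
    linarith [h1.2]
  have hAe := hc.2 _ ⟨f0, Finset.mem_filter.2 ⟨hf0, hX0⟩⟩ hA
  intro f hf
  rw [← hAe] at hf
  exact (Finset.mem_filter.1 hf).2

/-- extension by zero -/
private def Rank_ext {α : Type} [DecidableEq α] (s : Finset α) : ({a // a ∈ s} → ℝ) →ₗ[ℝ] (α → ℝ) where
  toFun x := fun a => if h : a ∈ s then x ⟨a, h⟩ else 0
  map_add' x y := by
    funext a
    change (if h : a ∈ s then (x + y) ⟨a, h⟩ else 0) = (if h : a ∈ s then x ⟨a, h⟩ else 0) +
      (if h : a ∈ s then y ⟨a, h⟩ else 0)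
    by_cases h : a ∈ s
    · rw [dif_pos h, dif_pos h, dif_pos h]
      rfl
    · rw [dif_neg h, dif_neg h, dif_neg h, add_zero]
  map_smul' r x := by
    funext a
    change (if h : a ∈ s then (r • x) ⟨a, h⟩ else 0) = r • (if h : a ∈ s then x ⟨a, h⟩ else 0)
    by_cases h : a ∈ s
    · rw [dif_pos h, dif_pos h]
      rfl
    · rw [dif_neg h, dif_neg h, smul_zero]

private theorem Rank_ext_pos {α : Type} [DecidableEq α] {s : Finset α} (x : {a // a ∈ s} → ℝ) {a : α}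
    (h : a ∈ s) : Rank_ext s x a = x ⟨a, h⟩ := by
  change (if h : a ∈ s then x ⟨a, h⟩ else 0) = x ⟨a, h⟩
  rw [dif_pos h]

private theorem Rank_ext_neg {α : Type} [DecidableEq α] {s : Finset α} (x : {a // a ∈ s} → ℝ) {a : α}
    (h : a ∉ s) : Rank_ext s x a = 0 := by
  change (if h : a ∈ s then x ⟨a, h⟩ else 0) = 0
  rw [dif_neg h]

/-- the linear map -/
private def Rank_Phi (G : PG c) (Q : Finset ℕ) (f0 : ℕ) :
    (({f // f ∈ Q.erase f0} → ℝ) × ({v // v ∈ Rank_S G Q} → ℝ)) →ₗ[ℝ] ({p // p ∈ Rank_O G Q} → ℝ) where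
  toFun z := fun p =>
    (Rank_ext _ z.1 (G.cor p.1.1 p.1.2) - Rank_ext _ z.1 (G.cor p.1.1 (p.1.2 - 1))) +
      (Rank_ext _ z.2 p.1.1 - Rank_ext _ z.2 (G.mt p.1).1)
  map_add' z w := by
    funext p
    simp only [Prod.fst_add, Prod.snd_add, map_add, Pi.add_apply]
    ring
  map_smul' r z := by
    funext p
    simp only [Prod.smul_fst, Prod.smul_snd, map_smul, Pi.smul_apply, smul_eq_mul, RingHom.id_apply]
    ring

private theorem Rank_Phi_inj {Q : Finset ℕ} (hQ : Q ⊂ G.L) (hc : G.Con Q) {f0 : ℕ} (hf0 : f0 ∈ Q) :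
    Function.Injective (Rank_Phi G Q f0) := by
  rw [injective_iff_map_eq_zero]
  rintro ⟨x, y⟩ hz
  have hO : ∀ p ∈ Rank_O G Q, (Rank_ext _ x (G.cor p.1 p.2) - Rank_ext _ x (G.cor p.1 (p.2 - 1))) +
      (Rank_ext _ y p.1 - Rank_ext _ y (G.mt p).1) = 0 := fun p hp => congrFun hz ⟨p, hp⟩
  obtain ⟨h1, h2⟩ := Rank_core hQ hc (Rank_ext _ x) (Rank_ext _ y) (fun v hv => Rank_ext_neg y hv) hf0
    (Rank_ext_neg x (Finset.notMem_erase f0 Q)) fun p hp => by
      rcases Rank_or hp with h | h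
      · exact hO p h
      · have h3 := hO _ h
        rw [G.face, Rank_face', G.inv] at h3
        linarith
  have hx : x = 0 := by
    funext f
    have h3 := h1 f.1 (Finset.mem_of_mem_erase f.2)
    rw [Rank_ext_pos x f.2] at h3
    exact h3
  have hy : y = 0 := by
    funext v
    have h3 := h2 v.1
    rw [Rank_ext_pos y v.2] at h3
    exact h3
  rw [hx, hy]
  rfl

theorem rank {Q : Finset ℕ} (hQ : Q ⊂ G.L) (hc : G.Con Q) :
    2 * Q.card ≤ 2 + ∑ v, loc (G.pat Q v) := by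
  obtain ⟨f0, hf0⟩ := hc.1
  have h1 := LinearMap.finrank_le_finrank_of_injective (Rank_Phi_inj hQ hc hf0)
  rw [Module.finrank_prod, Module.finrank_fintype_fun_eq_card, Module.finrank_fintype_fun_eq_card,
    Module.finrank_fintype_fun_eq_card, Fintype.card_coe, Fintype.card_coe, Fintype.card_coe,
    Finset.card_erase_of_mem hf0] at h1
  have h2 := Rank_card_O G Q
  have h3 := Rank_count G Q
  have h4 : 0 < Q.card := Finset.card_pos.2 ⟨f0, hf0⟩
  omega

end Pool.Agent.H93.TR
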