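import Pool.Agent.H93.TR.Dual
import Pool.Agent.H63.CLK.H_Def

/-!
# TR, State: Kauffman states through a given corner

`exists_Phi`. Let `f₀ = cor v₀ k₀`, `e = col f₀`, `N = L.filter (col · = e)`, `M = L.filter (col · ≠ e)`. `x` and `y` have different colours, say (without loss of generality, the statement is symmetric in `x`, `y`) `col x = e`: `r = x ∈ N`, `y ∈ M`. `b' = cor v₀ (k₀ + 2)`,
`b' ≠ f₀` (`hR`), `b' ∈ N` (`cor2`).
(1) `exists_tree` for `J = G.Jn`, `N.erase f₀`, `r = x` (`x ≠ f₀`): for `A ⊆ N.erase f₀`, `x ∈ A`, `A ≠ N.erase f₀` take `g ∈ N.erase f₀`, `g ∉ A`; `two_conn` gives `v`, `k` with `cor v k ∈ A`, `cor v (k + 2) ∉ A`, `≠ f₀`, and `cor v (k + 2) ∈ N` (`cor2`, `G.mem`). So we have `φ₀`, `d₀` on `N.erase f₀`. Put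
`φ = update φ₀ f₀ v₀`, `d = update d₀ f₀ (1 + d₀ b')`: for all `b ∈ N`, `b ≠ x` there is `a ∈ N` with `Jn (φ b) a b`, `d a < d b` (for `b = f₀`: `a = b'`, `Jn v₀ b' f₀` with `k = k₀ + 2`, `k₀ + 2 + 2 = k₀`; for `b ≠ f₀`: `a ∈ N.erase f₀`).
(2) `exists_tree` for `J v a b := G.Jn v a b ∧ ∀ b' ∈ G.L, G.col b' = e → b' ≠ x → φ b' ≠ v`, `M`, `r = y`: the hypothesis is `dual` (with `g ∈ M \ A`; `cor v (k + 2) ∈ M` by `cor2`). So we have `ψ`, `d'`.
(3) `Φ f = if col f = e then φ f else ψ f`. `Φ f₀ = v₀`. `Jn (Φ f) a f` gives a corner of `Φ f` which is `f`. Injectivity: the same colour: `tree_inj` (for `N` with `e`; for `M` with `!e`, i.e. all elements have the colour `!e`), different colours: by the second part of `J` for `ψ`.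

`state_of_Phi`: `Φ` is injective on `F`, `F.card = c`, so for every `v` there is exactly one `f ∈ F` with `Φ f = v` (`Finset.surj_on_of_inj_on_of_card_le` or `Finset.eq_univ_of_card` for `F.image Φ`). Put `s v k = if cor v k ∈ F ∧ Φ (cor v k) = v then 1 else 0`.
`∑ k, s v k = 1`: if `Φ f = v`, `f ∈ F`, then there is `k` with `cor v k = f` (`hk`), it is the only `j` with `s v j ≠ 0` by the injectivity of `Φ` on `F` and of `cor v`. For `f ∈ F`: `∑ v, ∑ k, (if cor v k = f then s v k else 0)`: only the `(v, k)` with `cor v k = f`, `v = Φ f`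
contribute, there is exactly one (`hk`, `hinj`).
-/

set_option autoImplicit false

namespace Pool.Agent.H93.TR

open Pool.Agent.H63.CLK

variable {c : ℕ} {G : PG c}

private theorem stateA_aux (hR : G.Red) (hP : G.Prm) {x y : ℕ} (hx : x ∈ G.L) (hy : y ∈ G.L)
    (hxy : G.col x ≠ G.col y) {v₀ : Fin c} {k₀ : Fin 4} (h0x : G.cor v₀ k₀ ≠ x)
    (hxe : G.col x = G.col (G.cor v₀ k₀)) :
    ∃ Φ : ℕ → Fin c, Φ (G.cor v₀ k₀) = v₀ ∧
      (∀ f ∈ G.L, f ≠ x → f ≠ y → ∃ k, G.cor (Φ f) k = f) ∧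
      ∀ f ∈ G.L, f ≠ x → f ≠ y → ∀ g ∈ G.L, g ≠ x → g ≠ y → Φ f = Φ g → f = g := by
  classical
  have hc : 0 < c := Fin.pos v₀
  have k22 : ∀ k : Fin 4, k + 2 + 2 = k := by decide
  set f₀ := G.cor v₀ k₀ with hf₀
  set e := G.col f₀ with he
  have hf₀L : f₀ ∈ G.L := G.mem v₀ k₀
  set b' := G.cor v₀ (k₀ + 2) with hb'
  have hb'L : b' ∈ G.L := G.mem _ _
  have hb'e : G.col b' = e := cor2 G v₀ k₀
  have hb'f : b' ≠ f₀ := fun h => hR v₀ k₀ h.symm
  set N := G.L.filter (fun f => G.col f = e) with hN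
  set N₀ := N.erase f₀ with hN₀
  set M := G.L.filter (fun f => G.col f ≠ e) with hM
  have memN : ∀ f, f ∈ N ↔ f ∈ G.L ∧ G.col f = e := fun f => by simp [hN]
  have memN₀ : ∀ f, f ∈ N₀ ↔ f ≠ f₀ ∧ f ∈ G.L ∧ G.col f = e := fun f => by
    simp [hN₀, memN]
  have memM : ∀ f, f ∈ M ↔ f ∈ G.L ∧ G.col f ≠ e := fun f => by simp [hM]
  have hye : G.col y ≠ e := fun h => hxy (hxe.trans h.symm)
  -- the first tree
  obtain ⟨φ₀, d₀, h₀⟩ := exists_tree hc G.Jn N₀ (r := x) ((memN₀ x).2 ⟨Ne.symm h0x, hx, hxe⟩) (by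
    intro A hA hxA hne
    obtain ⟨g, hg, hgA⟩ : ∃ g ∈ N₀, g ∉ A := by
      by_contra hcon
      push Not at hcon
      exact hne (Finset.Subset.antisymm hA hcon)
    rw [memN₀] at hg
    obtain ⟨v, k, hk1, hk2, hk3⟩ := two_conn hR hP (f₀ := f₀) (A := A) (fun f hf => by
      have := (memN₀ f).1 (hA hf)
      exact ⟨this.2.1, this.2.2, this.1⟩) ⟨x, hxA⟩ hg.2.1 hg.2.2 hg.1 hgA
    refine ⟨v, _, hk1, G.cor v (k + 2), ?_, k, rfl, rfl⟩
    rw [Finset.mem_sdiff, memN₀]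
    refine ⟨⟨hk3, G.mem _ _, ?_⟩, hk2⟩
    rw [cor2]
    exact ((memN₀ _).1 (hA hk1)).2.2)
  set φ := Function.update φ₀ f₀ v₀ with hφ
  set d := Function.update d₀ f₀ (1 + d₀ b') with hd
  have hφ0 : φ f₀ = v₀ := by simp [hφ]
  have hφn : ∀ f, f ≠ f₀ → φ f = φ₀ f := fun f hf => by simp [hφ, hf]
  have hd0 : d f₀ = 1 + d₀ b' := by simp [hd]
  have hdn : ∀ f, f ≠ f₀ → d f = d₀ f := fun f hf => by simp [hd, hf]
  have hT : ∀ b ∈ G.L, G.col b = e → b ≠ x → ∃ a, (a ∈ G.L ∧ G.col a = e) ∧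
      G.Jn (φ b) a b ∧ d a < d b := by
    intro b hb hbe hbx
    by_cases hbf : b = f₀
    · subst hbf
      refine ⟨b', ⟨hb'L, hb'e⟩, ⟨k₀ + 2, ?_, ?_⟩, ?_⟩
      · rw [hφ0]
      · rw [hφ0, k22]
      · rw [hd0, hdn _ hb'f]; omega
    · obtain ⟨a, ha, hJ, hlt⟩ := h₀ b ((memN₀ b).2 ⟨hbf, hb, hbe⟩) hbx
      rw [memN₀] at ha
      refine ⟨a, ha.2, ?_, ?_⟩
      · rw [hφn _ hbf]; exact hJ
      · rw [hdn _ hbf, hdn _ ha.1]; exact hlt
  -- the second tree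
  obtain ⟨ψ, d', hψ⟩ := exists_tree hc
    (fun v a b => G.Jn v a b ∧ ∀ b' ∈ G.L, G.col b' = e → b' ≠ x → φ b' ≠ v) M (r := y)
    ((memM y).2 ⟨hy, hye⟩) (by
    intro A hA hyA hne
    obtain ⟨g, hg, hgA⟩ : ∃ g ∈ M, g ∉ A := by
      by_contra hcon
      push Not at hcon
      exact hne (Finset.Subset.antisymm hA hcon)
    rw [memM] at hg
    obtain ⟨v, hv, k, hk1, hk2⟩ := dual hR (e := e) (r := x) (φ := φ) (d := d)
      (fun b hb hbe hbx => by
        obtain ⟨a, ha, h⟩ := hT b hb hbe hbx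
        exact ⟨a, ha.1, h⟩) (A := A) (fun f hf => (memM f).1 (hA hf)) ⟨y, hyA⟩ hg.1 hg.2 hgA
    refine ⟨v, _, hk1, G.cor v (k + 2), ?_, ⟨k, rfl, rfl⟩, hv⟩
    rw [Finset.mem_sdiff, memM]
    refine ⟨⟨G.mem _ _, ?_⟩, hk2⟩
    rw [cor2]
    exact ((memM _).1 (hA hk1)).2)
  have kJ : ∀ {v : Fin c} {a b : ℕ}, G.Jn v a b → ∃ k, G.cor v k = b := by
    rintro v a b ⟨k, _, h⟩
    exact ⟨_, h⟩
  refine ⟨fun f => if G.col f = e then φ f else ψ f, ?_, ?_, ?_⟩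
  · simp only [← he, if_true]
    exact hφ0
  · intro f hf hfx hfy
    by_cases hfe : G.col f = e
    · simp only [hfe, if_true]
      obtain ⟨a, _, hJ, _⟩ := hT f hf hfe hfx
      exact kJ hJ
    · simp only [hfe, if_false]
      obtain ⟨a, _, hJ, _⟩ := hψ f ((memM f).2 ⟨hf, hfe⟩) hfy
      exact kJ hJ.1
  · intro f hf hfx hfy g hg hgx hgy
    by_cases hfe : G.col f = e <;> by_cases hge : G.col g = e
    · simp only [hfe, hge, if_true]
      intro h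
      exact tree_inj (N := N) (e := e) (fun f hf => ((memN f).1 hf).2) (r := x) (φ := φ) (d := d)
        (fun b hb hbx => by
          obtain ⟨a, ha, h⟩ := hT b ((memN b).1 hb).1 ((memN b).1 hb).2 hbx
          exact ⟨a, (memN a).2 ha, h⟩) ((memN f).2 ⟨hf, hfe⟩) hfx ((memN g).2 ⟨hg, hge⟩) hgx h
    · simp only [hfe, hge, if_true, if_false]
      intro h
      obtain ⟨a, _, hJ, _⟩ := hψ g ((memM g).2 ⟨hg, hge⟩) hgy
      exact absurd h (hJ.2 f hf hfe hfx)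
    · simp only [hfe, hge, if_true, if_false]
      intro h
      obtain ⟨a, _, hJ, _⟩ := hψ f ((memM f).2 ⟨hf, hfe⟩) hfy
      exact absurd h.symm (hJ.2 g hg hge hgx)
    · simp only [hfe, hge, if_false]
      intro h
      exact tree_inj (N := M) (e := !e) (fun f hf => by
          have := ((memM f).1 hf).2
          revert this
          cases G.col f <;> cases e <;> simp) (r := y) (φ := ψ) (d := d')
        (fun b hb hbx => by
          obtain ⟨a, ha, h⟩ := hψ b hb hbx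
          exact ⟨a, ha, h.1.1, h.2⟩) ((memM f).2 ⟨hf, hfe⟩) hfy ((memM g).2 ⟨hg, hge⟩) hgy h

theorem exists_Phi (hR : G.Red) (hP : G.Prm) {x y : ℕ} (hx : x ∈ G.L) (hy : y ∈ G.L)
    (hxy : G.col x ≠ G.col y) {v₀ : Fin c} {k₀ : Fin 4} (h0x : G.cor v₀ k₀ ≠ x)
    (h0y : G.cor v₀ k₀ ≠ y) :
    ∃ Φ : ℕ → Fin c, Φ (G.cor v₀ k₀) = v₀ ∧
      (∀ f ∈ G.L, f ≠ x → f ≠ y → ∃ k, G.cor (Φ f) k = f) ∧
      ∀ f ∈ G.L, f ≠ x → f ≠ y → ∀ g ∈ G.L, g ≠ x → g ≠ y → Φ f = Φ g → f = g := by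
  by_cases hxe : G.col x = G.col (G.cor v₀ k₀)
  · exact stateA_aux hR hP hx hy hxy h0x hxe
  · have hye : G.col y = G.col (G.cor v₀ k₀) := by
      revert hxe hxy
      cases G.col x <;> cases G.col y <;> cases G.col (G.cor v₀ k₀) <;> simp
    obtain ⟨Φ, h1, h2, h3⟩ := stateA_aux hR hP hy hx (Ne.symm hxy) h0y hye
    exact ⟨Φ, h1, fun f hf hfx hfy => h2 f hf hfy hfx,
      fun f hf hfx hfy g hg hgx hgy => h3 f hf hfy hfx g hg hgy hgx⟩

theorem state_of_Phi {F : Finset ℕ} {cor : Fin c → Fin 4 → ℕ}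
    (hinj : ∀ v, Function.Injective (cor v)) (hc : F.card = c) {Φ : ℕ → Fin c}
    (hk : ∀ f ∈ F, ∃ k, cor (Φ f) k = f) (hi : ∀ f ∈ F, ∀ g ∈ F, Φ f = Φ g → f = g) {v₀ : Fin c}
    {k₀ : Fin 4} (h0 : cor v₀ k₀ ∈ F) (h0' : Φ (cor v₀ k₀) = v₀) :
    ∃ s : Fin c → Fin 4 → ℕ, IsState F cor 1 s ∧ s v₀ k₀ ≠ 0 := by
  classical
  have himg : F.image Φ = Finset.univ := by
    apply Finset.eq_univ_of_card
    rw [Finset.card_image_of_injOn (fun f hf g hg h => hi f hf g hg h), hc, Fintype.card_fin]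
  have hsurj : ∀ v : Fin c, ∃ f ∈ F, Φ f = v := by
    intro v
    have : v ∈ F.image Φ := by rw [himg]; exact Finset.mem_univ v
    exact Finset.mem_image.1 this
  refine ⟨fun v k => if cor v k ∈ F ∧ Φ (cor v k) = v then 1 else 0, ⟨?_, ?_, ?_⟩, ?_⟩
  · intro v
    obtain ⟨f, hf, hfv⟩ := hsurj v
    obtain ⟨k, hkf⟩ := hk f hf
    rw [hfv] at hkf
    rw [Finset.sum_eq_single k]
    · exact if_pos (by rw [hkf]; exact ⟨hf, hfv⟩)
    · intro j _ hjk
      refine if_neg ?_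
      rintro ⟨h1, h2⟩
      apply hjk
      apply hinj v
      rw [hkf]
      exact hi _ h1 _ hf (h2.trans hfv.symm)
    · intro h
      exact absurd (Finset.mem_univ k) h
  · intro f hf
    obtain ⟨k, hkf⟩ := hk f hf
    rw [Finset.sum_eq_single (Φ f)]
    · rw [Finset.sum_eq_single k]
      · rw [if_pos hkf]
        exact if_pos (by rw [hkf]; exact ⟨hf, rfl⟩)
      · intro j _ hjk
        rw [if_neg]
        intro h1
        exact hjk (hinj (Φ f) (h1.trans hkf.symm))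
      · intro h
        exact absurd (Finset.mem_univ k) h
    · intro v _ hv
      refine Finset.sum_eq_zero (fun j _ => ?_)
      by_cases h1 : cor v j = f
      · rw [if_pos h1]
        refine if_neg ?_
        rintro ⟨-, h2⟩
        rw [h1] at h2
        exact hv h2.symm
      · rw [if_neg h1]
    · intro h
      exact absurd (Finset.mem_univ (Φ f)) h
  · intro v k h
    refine if_neg ?_
    rintro ⟨h1, -⟩
    exact h h1
  · have h5 : (if cor v₀ k₀ ∈ F ∧ Φ (cor v₀ k₀) = v₀ then 1 else 0) = 1 := if_pos ⟨h0, h0'⟩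
    change (if cor v₀ k₀ ∈ F ∧ Φ (cor v₀ k₀) = v₀ then 1 else 0) ≠ 0
    rw [h5]
    exact one_ne_zero

end Pool.Agent.H93.TR
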