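import Pool.Agent.H93.TR.Loc

/-!
# TR, Two: the checkerboard graph without one face is connected

`face'`: `G.face (G.mt p)` and `G.inv p`. `cor2`: `G.colne v k`, `G.colne v (k + 1)` and `Bool`. `cases4`: if `G.cor v j` has the colour of `G.cor v k` then `j = k` or `j = k + 2` (`G.colne`; `decide` over `j k : Fin 4`).

`switch`: `σ p = G.mt (p.1, p.2 + 1)` is an injective map of `Fin c × Fin 4` into itself (`G.inv`) and `cor (σ p) = cor p.1 p.2` (`G.face (p.1, p.2 + 1)`, `p.2 + 1 - 1 = p.2`).
Let `S` be the set of the `p` with `cor p = w` and not `P p.1`. If there were no `q` as claimed, then `σ` would map `S` into itself, hence onto itself (`Finset.eq_of_subset_of_card_le`, `Finset.card_image_of_injective`).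
`σ p ∈ S` for the given `p` (`P p.1`, not `P (σ p).1`), so `σ p = σ s` with `s ∈ S`, `p = s`, a contradiction to `P p.1`.

`two_conn`: Suppose there are no such `v`, `k`. Call a vertex `X` (`P v`) if it has a corner in `A`, let `B` be the set of the faces of the colour of `f₀` which are `≠ f₀` and not in `A`; call a vertex `Y` if it has a corner in `B`.
Every vertex has a corner `k` of the colour of `f₀` (`0` or `1`), `cor v k ≠ cor v (k + 2)` (`hR`), so one of the two is `≠ f₀`: every vertex is `X` or `Y`. No vertex is both: the corners in `A` and `B` would be `k` and `k + 2` (`cases4`), which is excluded by the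
assumption (for `k` in `A`). CLAIM: `P p.1 → P (mt p).1`. Suppose `P p.1`, `¬ P (mt p).1`, so `(mt p).1` is `Y`, not `X`, and `p.1` is not `Y`.
The faces `cor p.1 p.2` and `cor p.1 (p.2 - 1)` are also faces at `(mt p).1` (`G.face`, `face'`). One of them has the colour of `f₀`; it is not in `A` since `(mt p).1` is not `X`, and not in `B` since `p.1` is not `Y`, so it is `f₀`.
(a) `cor p.1 p.2 = f₀`, `w := cor p.1 (p.2 - 1)`: `switch` for `P`, `w` and the corner `(p.1, p.2 - 1)` (`σ` of it is `mt p`) gives `q = (u, i)` with `cor u i = w`, `¬ P u`, `P (mt (u, i + 1)).1`. By the same argument as before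
(for the edge `(u, i + 1)`, its faces are `cor u i = w` and `cor u (i + 1)`; `w` does not have the colour of `f₀`) `cor u (i + 1) = f₀`. `hP` for `p` and `(u, i + 1)`: `(u, i + 1) = p` is impossible (`P`), and `(u, i + 1) = mt p` is impossible since `cor (mt p) = cor p.1 (p.2 - 1) = w ≠ f₀`.
(b) `cor p.1 (p.2 - 1) = f₀`, `w := cor p.1 p.2`: the same with `mt p` instead of `p` and `¬ P` instead of `P` (`cor (mt p) = f₀`, the corner before it is `w`).
So `P` is closed under `mt`; `A` is nonempty, so some vertex has `P` (`G.surj`), so all have (`G.conn`); but the vertex with the corner `g` (`g ∈ B`) is `Y`. Contradiction.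
-/

set_option autoImplicit false

namespace Pool.Agent.H93.TR

variable {c : ℕ} {G : PG c}

theorem face2 (G : PG c) (p : Fin c × Fin 4) :
    G.cor (G.mt p).1 ((G.mt p).2 - 1) = G.cor p.1 p.2 := by
  have h := G.face (G.mt p)
  rw [G.inv] at h
  exact h.symm

private theorem two_d4 : ∀ k j : Fin 4, j = k ∨ j = k + 1 ∨ j = k + 2 ∨ j = k + 3 := by decide

private theorem two_e : ∀ k : Fin 4, k + 1 + 1 = k + 2 ∧ k + 3 + 1 = k ∧ k + 2 + 2 = k ∧
    k - 1 + 1 = k := by decide

theorem cor2 (G : PG c) (v : Fin c) (k : Fin 4) : G.col (G.cor v (k + 2)) = G.col (G.cor v k) := by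
  have h1 := G.colne v k
  have h2 := G.colne v (k + 1)
  rw [(two_e k).1] at h2
  revert h1 h2
  cases G.col (G.cor v (k + 2)) <;> cases G.col (G.cor v k) <;>
    cases G.col (G.cor v (k + 1)) <;> simp

theorem cases4 (G : PG c) {v : Fin c} {j k : Fin 4} (h : G.col (G.cor v j) = G.col (G.cor v k)) :
    j = k ∨ j = k + 2 := by
  rcases two_d4 k j with h1 | h1 | h1 | h1
  · exact Or.inl h1
  · rw [h1] at h
    exact absurd h.symm (G.colne v k)
  · exact Or.inr h1
  · rw [h1] at h
    have h2 := G.colne v (k + 3)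
    rw [(two_e k).2.1] at h2
    exact absurd h h2

theorem switch (G : PG c) (P : Fin c → Prop) (p : Fin c × Fin 4) (h1 : P p.1)
    (h2 : ¬ P (G.mt (p.1, p.2 + 1)).1) :
    ∃ q : Fin c × Fin 4, G.cor q.1 q.2 = G.cor p.1 p.2 ∧ ¬ P q.1 ∧ P (G.mt (q.1, q.2 + 1)).1 := by
  classical
  by_contra hno
  push Not at hno
  obtain ⟨σ, hσ⟩ : ∃ σ : Fin c × Fin 4 → Fin c × Fin 4, σ = fun q => G.mt (q.1, q.2 + 1) :=
    ⟨_, rfl⟩
  have hinj : Function.Injective σ := by
    intro a b hab
    rw [hσ] at hab
    simp only at hab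
    have h3 := congrArg G.mt hab
    rw [G.inv, G.inv] at h3
    obtain ⟨h4, h5⟩ := Prod.ext_iff.1 h3
    exact Prod.ext h4 (add_right_cancel h5)
  have hcor : ∀ q, G.cor (σ q).1 (σ q).2 = G.cor q.1 q.2 := by
    intro q
    have h3 := G.face (q.1, q.2 + 1)
    rw [add_sub_cancel_right] at h3
    rw [hσ]
    exact h3
  obtain ⟨S, hS⟩ : ∃ S : Finset (Fin c × Fin 4),
    S = Finset.univ.filter (fun q => G.cor q.1 q.2 = G.cor p.1 p.2 ∧ ¬ P q.1) := ⟨_, rfl⟩
  have hsub : S.image σ ⊆ S := by
    intro a ha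
    obtain ⟨q, hq, rfl⟩ := Finset.mem_image.1 ha
    rw [hS, Finset.mem_filter] at hq ⊢
    refine ⟨Finset.mem_univ _, (hcor q).trans hq.2.1, ?_⟩
    have h3 := hno q hq.2.1 hq.2.2
    rw [hσ]
    exact h3
  have heq : S.image σ = S := Finset.eq_of_subset_of_card_le hsub
    (by rw [Finset.card_image_of_injective _ hinj])
  have hp : σ p ∈ S := by
    rw [hS, Finset.mem_filter]
    refine ⟨Finset.mem_univ _, hcor p, ?_⟩
    rw [hσ]
    exact h2
  rw [← heq] at hp
  obtain ⟨q, hq, hqp⟩ := Finset.mem_image.1 hp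
  have h3 := hinj hqp
  rw [hS, Finset.mem_filter] at hq
  rw [h3] at hq
  exact hq.2.2 h1

private theorem two_bool : ∀ a b z : Bool, a ≠ z → a ≠ b → b = z := by decide

theorem two_conn (hR : G.Red) (hP : G.Prm) {f₀ : ℕ} {A : Finset ℕ}
    (hA : ∀ f ∈ A, f ∈ G.L ∧ G.col f = G.col f₀ ∧ f ≠ f₀) (hne : A.Nonempty) {g : ℕ}
    (hg : g ∈ G.L) (hgc : G.col g = G.col f₀) (hg0 : g ≠ f₀) (hgA : g ∉ A) :
    ∃ v k, G.cor v k ∈ A ∧ G.cor v (k + 2) ∉ A ∧ G.cor v (k + 2) ≠ f₀ := by
  by_contra hno
  push Not at hno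
  obtain ⟨P, hPd⟩ : ∃ P : Fin c → Prop, P = fun v => ∃ k, G.cor v k ∈ A := ⟨_, rfl⟩
  -- no vertex has corners in `A` and in the complement
  have hxy : ∀ v, P v → ∀ j, G.col (G.cor v j) = G.col f₀ → G.cor v j ≠ f₀ → G.cor v j ∈ A := by
    intro v hv j h1 h2
    rw [hPd] at hv
    obtain ⟨k, hk⟩ := hv
    rcases cases4 G (h1.trans (hA _ hk).2.1.symm) with h3 | h3
    · rw [h3]; exact hk
    · by_contra h4
      rw [h3] at h4 h2
      exact h2 (hno v k hk h4)
  -- the common face of the colour of `f₀` is `f₀`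
  have hcom : ∀ (v u : Fin c) (i j : Fin 4), P v → ¬ P u → G.cor v i = G.cor u j →
      G.col (G.cor u j) = G.col f₀ → G.cor u j = f₀ := by
    intro v u i j hv hu h1 h2
    by_contra h3
    have h4 := hxy v hv i (by rw [h1]; exact h2) (by rw [h1]; exact h3)
    rw [h1] at h4
    exact hu (by rw [hPd]; exact ⟨j, h4⟩)
  have hstep : ∀ p, P p.1 → P (G.mt p).1 := by
    intro p hp
    by_contra hq
    have hc := G.colne p.1 (p.2 - 1)
    rw [(two_e p.2).2.2.2] at hc
    by_cases ha : G.col (G.cor p.1 p.2) = G.col f₀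
    · -- the face `cor p` is `f₀`
      have h1 : G.cor p.1 p.2 = f₀ := by
        have h2 := hcom p.1 (G.mt p).1 p.2 ((G.mt p).2 - 1) hp hq (face2 G p).symm
          (by rw [face2]; exact ha)
        rw [face2] at h2
        exact h2
      have hw : G.col (G.cor p.1 (p.2 - 1)) ≠ G.col f₀ := by rw [← ha]; exact hc
      obtain ⟨⟨u, i⟩, hq1, hq2, hq3⟩ := switch G P (p.1, p.2 - 1) hp (by
        simp only
        rw [(two_e p.2).2.2.2]
        exact hq)
      simp only at hq1 hq2 hq3
      have h3 : G.col (G.cor u (i + 1)) = G.col f₀ :=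
        two_bool (G.col (G.cor u i)) _ _ (by rw [hq1]; exact hw) (G.colne u i)
      have h4 : G.cor u (i + 1) = f₀ := by
        have h5 := face2 G (u, i + 1)
        exact hcom (G.mt (u, i + 1)).1 u ((G.mt (u, i + 1)).2 - 1) (i + 1) hq3 hq2 h5 h3
      have h6 := hP p (u, i + 1) (by
        simp only
        rw [add_sub_cancel_right, h1, h4, hq1])
      rcases h6 with h6 | h6
      · rw [← h6] at hp
        exact hq2 hp
      · have h7 := G.face p
        rw [← h6] at h7
        simp only at h7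
        rw [h4] at h7
        exact hw (by rw [← h7])
    · have hb : G.col (G.cor p.1 (p.2 - 1)) = G.col f₀ :=
        two_bool (G.col (G.cor p.1 p.2)) _ _ ha hc.symm
      have h1 : G.cor p.1 (p.2 - 1) = f₀ := by
        have h2 := hcom p.1 (G.mt p).1 (p.2 - 1) (G.mt p).2 hp hq (G.face p).symm
          (by rw [G.face]; exact hb)
        rw [G.face] at h2
        exact h2
      obtain ⟨⟨u, i⟩, hq1, hq2, hq3⟩ := switch G (fun v => ¬ P v) ((G.mt p).1, (G.mt p).2 - 1) hq
        (by
          simp only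
          rw [(two_e (G.mt p).2).2.2.2]
          change ¬ ¬ P (G.mt (G.mt p)).1
          rw [G.inv]
          exact fun h => h hp)
      simp only [not_not] at hq1 hq2 hq3
      rw [face2] at hq1
      have h3 : G.col (G.cor u (i + 1)) = G.col f₀ :=
        two_bool (G.col (G.cor u i)) _ _ (by rw [hq1]; exact ha) (G.colne u i)
      have h4 : G.cor u (i + 1) = f₀ := by
        have h5 := face2 G (u, i + 1)
        have h6 := hcom u (G.mt (u, i + 1)).1 (i + 1) ((G.mt (u, i + 1)).2 - 1) hq2 hq3 h5.symm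
          (by rw [h5]; exact h3)
        rw [h5] at h6
        exact h6
      have h6 := hP p (u, i + 1) (by
        simp only
        rw [add_sub_cancel_right, h1, h4, hq1]
        exact Sym2.eq_swap)
      rcases h6 with h6 | h6
      · rw [← h6] at ha
        simp only at ha
        exact ha (by rw [h4])
      · rw [← h6] at hq
        exact hq hq2
  obtain ⟨f, hf⟩ := hne
  obtain ⟨v, k, hvk⟩ := G.surj f (hA f hf).1
  obtain ⟨v', k', hvk'⟩ := G.surj g hg
  have hv : P v := by rw [hPd]; exact ⟨k, by rw [hvk]; exact hf⟩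
  have hv' := G.conn P hstep v v' hv
  have h1 := hxy v' hv' k' (by rw [hvk']; exact hgc) (by rw [hvk']; exact hg0)
  rw [hvk'] at h1
  exact hgA h1

end Pool.Agent.H93.TR
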